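import Pool.Graph.R_pool_sql_team_seeded_3997aac3.Q257.LC.KerU

/-!
# Comparison of traces
-/

set_option autoImplicit false
set_option linter.unusedSectionVars false
set_option linter.unusedVariables false

namespace Pool.Agent.H961.T2

open Finset Equiv Matrix Q292.LC

variable {V : Type} [Fintype V] [DecidableEq V]

/-- nonnegative, row and column sums at most one -/
structure BS (M : Matrix V V ℝ) : Prop where
  nn : ∀ x y, 0 ≤ M x y
  row : ∀ x, ∑ y, M x y ≤ 1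
  col : ∀ y, ∑ x, M x y ≤ 1

theorem BS_one : BS (1 : Matrix V V ℝ) := by
  refine ⟨fun x y => ?_, fun x => ?_, fun y => ?_⟩
  · rw [Matrix.one_apply]
    split_ifs <;> norm_num
  · simp only [Matrix.one_apply]
    rw [Finset.sum_ite_eq, if_pos (Finset.mem_univ _)]
  · simp only [Matrix.one_apply]
    rw [Finset.sum_ite_eq', if_pos (Finset.mem_univ _)]

theorem BS_mul {M N : Matrix V V ℝ} (hM : BS M) (hN : BS N) : BS (M * N) := by
  refine ⟨fun x y => ?_, fun x => ?_, fun y => ?_⟩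
  · rw [Matrix.mul_apply]
    exact Finset.sum_nonneg fun z _ => mul_nonneg (hM.nn _ _) (hN.nn _ _)
  · simp only [Matrix.mul_apply]
    rw [Finset.sum_comm]
    simp only [← Finset.mul_sum]
    calc ∑ z, M x z * ∑ y, N z y ≤ ∑ z, M x z * 1 :=
          Finset.sum_le_sum fun z _ => mul_le_mul_of_nonneg_left (hN.row z) (hM.nn _ _)
      _ ≤ 1 := by simpa using hM.row x
  · simp only [Matrix.mul_apply]
    rw [Finset.sum_comm]
    simp only [← Finset.sum_mul]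
    calc ∑ z, (∑ x, M x z) * N z y ≤ ∑ z, 1 * N z y :=
          Finset.sum_le_sum fun z _ => mul_le_mul_of_nonneg_right (hM.col z) (hN.nn _ _)
      _ ≤ 1 := by simpa using hN.col y

theorem BS_pow {M : Matrix V V ℝ} (hM : BS M) (n : ℕ) : BS (M ^ n) := by
  induction n with
  | zero =>
    rw [pow_zero]
    exact BS_one
  | succ n ih =>
    rw [pow_succ]
    exact BS_mul ih hM

theorem BS_dg (U : Finset V) {T : Matrix V V ℝ} (hT : BS T) : BS (dg U * T) := by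
  have h1 : ∀ x y, (dg U * T) x y = (if x ∈ U then 1 else 0) * T x y := by
    intro x y
    unfold dg
    rw [Matrix.diagonal_mul]
  have h2 : ∀ x y, (dg U * T) x y ≤ T x y := by
    intro x y
    rw [h1]
    have := hT.nn x y
    split_ifs <;> linarith
  refine ⟨fun x y => ?_, fun x => ?_, fun y => ?_⟩
  · rw [h1]
    exact mul_nonneg (by split_ifs <;> norm_num) (hT.nn _ _)
  · exact (sum_le_sum fun y _ => h2 x y).trans (hT.row x)
  · exact (sum_le_sum fun x _ => h2 x y).trans (hT.col y)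

theorem tr_mul (M N : Matrix V V ℝ) : (M * N).trace = ∑ x, ∑ y, M x y * N y x := by
  unfold Matrix.trace
  simp only [Matrix.diag_apply, Matrix.mul_apply]

theorem tr_step (X0 Y0 X1 Y1 H : Matrix V V ℝ) (hY0 : BS Y0)
    (hX1 : BS X1) (hH : BS H) (Δ1 Δ2 : V → V → ℝ) (hΔ1 : ∀ x y, 0 ≤ Δ1 x y)
    (hΔ2 : ∀ x y, 0 ≤ Δ2 x y) (s1 s2 c1 c2 : ℝ) (hs1 : 0 ≤ s1) (hs2 : 0 ≤ s2)
    (h1 : ∀ x y, X0 x y ≤ X1 x y + Δ1 x y) (h1s : ∑ x, ∑ y, Δ1 x y ≤ c1)
    (hW : ∀ x y, (∀ z, Y0 y z ≤ s1) ∨ X0 x y ≤ X1 x y)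
    (h2 : ∀ y x, Y0 y x ≤ Y1 y x + Δ2 y x) (h2s : ∑ y, ∑ x, Δ2 y x ≤ c2)
    (hs : ∀ x y, X1 x y ≤ s2) :
    (X0 * Y0 * H).trace ≤ (X1 * Y1 * H).trace + (s1 * c1 + s2 * c2) := by
  have hYH := BS_mul hY0 hH
  have hHX := BS_mul hH hX1
  have e1 : (X0 * Y0 * H).trace ≤ (X1 * Y0 * H).trace + s1 * c1 := by
    rw [Matrix.mul_assoc, Matrix.mul_assoc, tr_mul, tr_mul]
    have : ∑ x, ∑ y, X0 x y * (Y0 * H) y x ≤
        ∑ x, ∑ y, (X1 x y * (Y0 * H) y x + s1 * Δ1 x y) := by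
      refine sum_le_sum fun x _ => sum_le_sum fun y _ => ?_
      have f1 := hYH.nn y x
      have f2 := hΔ1 x y
      rcases hW x y with h | h
      · have f3 : (Y0 * H) y x ≤ s1 := by
          rw [Matrix.mul_apply]
          calc ∑ z, Y0 y z * H z x ≤ ∑ z, s1 * H z x :=
                sum_le_sum fun z _ => mul_le_mul_of_nonneg_right (h z) (hH.nn _ _)
            _ = s1 * ∑ z, H z x := by rw [mul_sum]
            _ ≤ s1 * 1 := mul_le_mul_of_nonneg_left (hH.col x) hs1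
            _ = s1 := mul_one _
        calc X0 x y * (Y0 * H) y x ≤ (X1 x y + Δ1 x y) * (Y0 * H) y x :=
              mul_le_mul_of_nonneg_right (h1 x y) f1
          _ = X1 x y * (Y0 * H) y x + (Y0 * H) y x * Δ1 x y := by ring
          _ ≤ X1 x y * (Y0 * H) y x + s1 * Δ1 x y :=
              add_le_add le_rfl (mul_le_mul_of_nonneg_right f3 f2)
      · have f4 := mul_le_mul_of_nonneg_right h f1
        have f5 : 0 ≤ s1 * Δ1 x y := mul_nonneg hs1 f2
        linarith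
    refine this.trans ?_
    simp only [sum_add_distrib, ← mul_sum]
    exact add_le_add le_rfl (mul_le_mul_of_nonneg_left h1s hs1)
  have e2 : (X1 * Y0 * H).trace ≤ (X1 * Y1 * H).trace + s2 * c2 := by
    have c1' : (X1 * Y0 * H).trace = (Y0 * (H * X1)).trace := by
      rw [Matrix.mul_assoc, Matrix.trace_mul_comm, Matrix.mul_assoc]
    have c2' : (X1 * Y1 * H).trace = (Y1 * (H * X1)).trace := by
      rw [Matrix.mul_assoc, Matrix.trace_mul_comm, Matrix.mul_assoc]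
    rw [c1', c2', tr_mul, tr_mul]
    have : ∑ y, ∑ x, Y0 y x * (H * X1) x y ≤
        ∑ y, ∑ x, (Y1 y x * (H * X1) x y + s2 * Δ2 y x) := by
      refine sum_le_sum fun y _ => sum_le_sum fun x _ => ?_
      have f1 := hHX.nn x y
      have f2 := hΔ2 y x
      have f3 : (H * X1) x y ≤ s2 := by
        rw [Matrix.mul_apply]
        calc ∑ z, H x z * X1 z y ≤ ∑ z, H x z * s2 :=
              sum_le_sum fun z _ => mul_le_mul_of_nonneg_left (hs z y) (hH.nn _ _)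
          _ = (∑ z, H x z) * s2 := by rw [sum_mul]
          _ ≤ 1 * s2 := mul_le_mul_of_nonneg_right (hH.row x) hs2
          _ = s2 := one_mul _
      calc Y0 y x * (H * X1) x y ≤ (Y1 y x + Δ2 y x) * (H * X1) x y :=
            mul_le_mul_of_nonneg_right (h2 y x) f1
        _ = Y1 y x * (H * X1) x y + (H * X1) x y * Δ2 y x := by ring
        _ ≤ Y1 y x * (H * X1) x y + s2 * Δ2 y x :=
            add_le_add le_rfl (mul_le_mul_of_nonneg_right f3 f2)
    refine this.trans ?_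
    simp only [sum_add_distrib, ← mul_sum]
    exact add_le_add le_rfl (mul_le_mul_of_nonneg_left h2s hs2)
  linarith

theorem tr_pow (X0 Y0 X1 Y1 : Matrix V V ℝ) (hX0 : BS X0) (hY0 : BS Y0)
    (hX1 : BS X1) (hY1 : BS Y1) (Δ1 Δ2 : V → V → ℝ) (hΔ1 : ∀ x y, 0 ≤ Δ1 x y)
    (hΔ2 : ∀ x y, 0 ≤ Δ2 x y) (s1 s2 c1 c2 : ℝ) (hs1 : 0 ≤ s1) (hs2 : 0 ≤ s2)
    (h1 : ∀ x y, X0 x y ≤ X1 x y + Δ1 x y) (h1s : ∑ x, ∑ y, Δ1 x y ≤ c1)
    (hW : ∀ x y, (∀ z, Y0 y z ≤ s1) ∨ X0 x y ≤ X1 x y)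
    (h2 : ∀ y x, Y0 y x ≤ Y1 y x + Δ2 y x) (h2s : ∑ y, ∑ x, Δ2 y x ≤ c2)
    (hs : ∀ x y, X1 x y ≤ s2) (r i : ℕ) :
    ((X0 * Y0) ^ r * (X1 * Y1) ^ i).trace ≤
      ((X1 * Y1) ^ (r + i)).trace + r * (s1 * c1 + s2 * c2) := by
  induction r generalizing i with
  | zero =>
    rw [pow_zero, Matrix.one_mul, Nat.zero_add]
    simp
  | succ r ih =>
    have hM0 := BS_mul hX0 hY0
    have hM1 := BS_mul hX1 hY1
    have e1 : ((X0 * Y0) ^ (r + 1) * (X1 * Y1) ^ i).trace =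
        (X0 * Y0 * ((X0 * Y0) ^ r * (X1 * Y1) ^ i)).trace := by
      rw [pow_succ', Matrix.mul_assoc (X0 * Y0)]
    have e2 : (X1 * Y1 * ((X0 * Y0) ^ r * (X1 * Y1) ^ i)).trace =
        ((X0 * Y0) ^ r * (X1 * Y1) ^ (i + 1)).trace := by
      rw [Matrix.trace_mul_comm, Matrix.mul_assoc, ← pow_succ]
    have e3 := tr_step X0 Y0 X1 Y1 ((X0 * Y0) ^ r * (X1 * Y1) ^ i) hY0 hX1
      (BS_mul (BS_pow hM0 r) (BS_pow hM1 i)) Δ1 Δ2 hΔ1 hΔ2 s1 s2 c1 c2 hs1 hs2 h1 h1s hW h2 h2s hs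
    rw [e2] at e3
    rw [e1]
    have e4 := ih (i + 1)
    have e5 : r + 1 + i = r + (i + 1) := by omega
    rw [e5]
    push_cast
    linarith

/-- the sum of the diagonal entries over a set as a trace -/
theorem tr_dg (T : Matrix V V ℝ) (U : Finset V) (j : ℕ) :
    ∑ x ∈ U, (T * (dg U * T) ^ j) x x = ((dg U * T) ^ (j + 1)).trace := by
  rw [pow_succ', Matrix.mul_assoc]
  unfold Matrix.trace
  simp only [Matrix.diag_apply]
  have h1 : ∀ x, (dg U * (T * (dg U * T) ^ j)) x x =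
      if x ∈ U then (T * (dg U * T) ^ j) x x else 0 := by
    intro x
    unfold dg
    rw [Matrix.diagonal_mul]
    split_ifs <;> ring
  simp only [h1]
  rw [← sum_filter]
  refine sum_congr ?_ fun _ _ => rfl
  ext x
  simp

end Pool.Agent.H961.T2
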