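import Pool.Agent.H961.T2.B1

/-!
# Neumann series for the diagonal entries of the resolvent, and the sum over all points
-/

set_option autoImplicit false
set_option linter.unusedSectionVars false
set_option linter.unusedVariables false

namespace Pool.Agent.H961.T2

open Finset Equiv Matrix Q292.LC Filter Topology
open Pool.Agent.Q68.LC (EE_congr EE_const EE_add EE_smul EE_mono EE_succ SS SS_dg SS_pow SS_le
  det_pos)

variable {V : Type} [Fintype V] [DecidableEq V]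

theorem dgT_apply (U : Finset V) (T : Matrix V V ℝ) (a b : V) :
    (dg U * T) a b = (if a ∈ U then 1 else 0) * T a b := by
  unfold dg
  rw [Matrix.diagonal_mul]

theorem erase_row (w : ℝ) (U : Finset V) (T : Matrix V V ℝ) (x : V) :
    (1 - w • (dg (U.erase x) * T)) = (1 - w • (dg U * T)).updateRow x (Pi.single x 1) := by
  ext a b
  by_cases hax : a = x
  · subst hax
    rw [Matrix.updateRow_self, Matrix.sub_apply, Matrix.smul_apply, dgT_apply,
      if_neg (Finset.notMem_erase a U)]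
    simp only [zero_mul, smul_eq_mul, mul_zero, sub_zero]
    rw [Matrix.one_apply]
    by_cases hab : a = b
    · subst hab
      simp
    · rw [if_neg hab, Pi.single_eq_of_ne (Ne.symm hab)]
  · rw [Matrix.updateRow_ne hax, Matrix.sub_apply, Matrix.sub_apply, Matrix.smul_apply,
      Matrix.smul_apply, dgT_apply, dgT_apply]
    have : a ∈ U.erase x ↔ a ∈ U := by
      rw [Finset.mem_erase]
      exact ⟨fun h => h.2, fun h => ⟨hax, h⟩⟩
    simp only [this]

theorem Gx_inv (w : ℝ) (U : Finset V) (T : Matrix V V ℝ) (x : V) :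
    Gx w U T x = ((1 - w • (dg U * T))⁻¹) x x - 1 := by
  unfold Gx dS
  rw [erase_row, ← Matrix.adjugate_apply, Matrix.inv_def, Matrix.smul_apply, smul_eq_mul,
    Ring.inverse_eq_inv']
  ring

/-- Neumann series -/
theorem Gx_tendsto (w : ℝ) (U : Finset V) (T : Matrix V V ℝ) (x : V) (hT : SS T) (h0 : 0 ≤ w)
    (h1 : w < 1) (hx : x ∈ U) :
    Tendsto (fun N : ℕ => ∑ k ∈ Finset.range N, w ^ (k + 1) * (T * (dg U * T) ^ k) x x) atTop
      (𝓝 (Gx w U T x)) := by
  have hS := SS_dg hT U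
  obtain ⟨S, hSd⟩ : ∃ S, S = dg U * T := ⟨_, rfl⟩
  rw [← hSd] at hS
  have hpos := det_pos hS h0 h1
  obtain ⟨M, hM⟩ : ∃ M, M = 1 - w • S := ⟨_, rfl⟩
  rw [← hM] at hpos
  have hunit : IsUnit M.det := isUnit_iff_ne_zero.2 hpos.ne'
  have hG : Gx w U T x = w * (T * M⁻¹) x x := by
    rw [Gx_inv, ← hSd, ← hM]
    have e1 : M * M⁻¹ = 1 := Matrix.mul_nonsing_inv _ hunit
    have e2 : M⁻¹ = 1 + w • (S * M⁻¹) := by
      have : (1 - w • S) * M⁻¹ = 1 := by rw [← hM]; exact e1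
      rw [Matrix.sub_mul, Matrix.one_mul, Matrix.smul_mul, sub_eq_iff_eq_add] at this
      exact this
    have e3 : M⁻¹ x x = 1 + w * (S * M⁻¹) x x := by
      conv_lhs => rw [e2]
      rw [Matrix.add_apply, Matrix.one_apply_eq, Matrix.smul_apply, smul_eq_mul]
    have e4 : (S * M⁻¹) x x = (T * M⁻¹) x x := by
      rw [hSd, Matrix.mul_assoc, dgT_apply, if_pos hx, one_mul]
    rw [e3, e4]
    ring
  rw [hG]
  simp only [← hSd]
  -- partial sums
  have e1 : ∀ N : ℕ, M * ∑ k ∈ Finset.range N, (w • S) ^ k = 1 - (w • S) ^ N := by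
    intro N
    rw [hM]
    exact mul_neg_geom_sum _ _
  have e2 : ∀ N : ℕ, ∑ k ∈ Finset.range N, (w • S) ^ k = M⁻¹ - w ^ N • (M⁻¹ * S ^ N) := by
    intro N
    have h2 : M⁻¹ * (M * ∑ k ∈ Finset.range N, (w • S) ^ k) = M⁻¹ * (1 - (w • S) ^ N) := by
      rw [e1 N]
    rw [Matrix.nonsing_inv_mul_cancel_left _ _ hunit] at h2
    rw [h2, Matrix.mul_sub, Matrix.mul_one, smul_pow, Matrix.mul_smul]
  have e3 : ∀ N : ℕ, ∑ k ∈ Finset.range N, w ^ (k + 1) * (T * S ^ k) x x =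
      w * (T * M⁻¹) x x - w * (w ^ N * (T * (M⁻¹ * S ^ N)) x x) := by
    intro N
    have h3 : ∑ k ∈ Finset.range N, w ^ (k + 1) * (T * S ^ k) x x =
        w * (T * ∑ k ∈ Finset.range N, (w • S) ^ k) x x := by
      rw [Matrix.mul_sum, Matrix.sum_apply, Finset.mul_sum]
      refine Finset.sum_congr rfl fun k _ => ?_
      rw [smul_pow, Matrix.mul_smul, Matrix.smul_apply, smul_eq_mul, pow_succ]
      ring
    rw [h3, e2, Matrix.mul_sub, Matrix.mul_smul, Matrix.sub_apply, Matrix.smul_apply, smul_eq_mul]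
    ring
  -- the error tends to zero
  have e4 : ∀ N : ℕ, |(T * (M⁻¹ * S ^ N)) x x| ≤ ∑ z, |(T * M⁻¹) x z| := by
    intro N
    rw [← Matrix.mul_assoc, Matrix.mul_apply]
    refine (Finset.abs_sum_le_sum_abs _ _).trans (Finset.sum_le_sum fun z _ => ?_)
    rw [abs_mul]
    have h4 := SS_pow hS N
    rw [abs_of_nonneg (h4.nn z x)]
    exact mul_le_of_le_one_right (abs_nonneg _) (SS_le h4 z x)
  have e5 : Tendsto (fun N : ℕ => w ^ N * (T * (M⁻¹ * S ^ N)) x x) atTop (𝓝 0) := by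
    have h5 : Tendsto (fun N : ℕ => w ^ N * ∑ z, |(T * M⁻¹) x z|) atTop (𝓝 0) := by
      have := (tendsto_pow_atTop_nhds_zero_of_lt_one h0 h1).mul_const (∑ z, |(T * M⁻¹) x z|)
      rwa [zero_mul] at this
    refine squeeze_zero_norm (fun N => ?_) h5
    rw [Real.norm_eq_abs, abs_mul, abs_of_nonneg (pow_nonneg h0 N)]
    exact mul_le_mul_of_nonneg_left (e4 N) (pow_nonneg h0 N)
  have e6 : Tendsto (fun N : ℕ => w * (T * M⁻¹) x x - w * (w ^ N * (T * (M⁻¹ * S ^ N)) x x)) atTop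
      (𝓝 (w * (T * M⁻¹) x x - w * 0)) := tendsto_const_nhds.sub (e5.const_mul w)
  rw [mul_zero, sub_zero] at e6
  exact e6.congr fun N => (e3 N).symm

theorem Gx_sum_le (w : ℝ) (U : Finset V) (T : Matrix V V ℝ) (hT : SS T) (h0 : 0 ≤ w)
    (h1 : w < 1) (Λ : ℝ)
    (h : ∀ N : ℕ, ∑ x ∈ U, ∑ k ∈ Finset.range N, w ^ (k + 1) * (T * (dg U * T) ^ k) x x ≤ Λ) :
    ∑ x ∈ U, Gx w U T x ≤ Λ := by
  refine le_of_tendsto' (tendsto_finsetSum U fun x hx => Gx_tendsto w U T x hT h0 h1 hx) h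

open Classical in
/-- the sum over all points -/
theorem star_sum (e : ℕ → V × V) (n : ℕ) (δ w : ℝ) (B : (ℕ → Bool) → Finset V → Prop)
    (hδ0 : 0 ≤ δ) (hδ1 : δ ≤ 1) (hw0 : 0 ≤ w) (hw1 : w < 1)
    (hB : ∀ A, Rmeas e n A (fun ω => B ω A)) (hher : ∀ ω R R', R' ⊆ R → B ω R → B ω R')
    (α β : ℝ) (hα : 0 ≤ α) (hβ : 0 ≤ β)
    (h : ∀ ω A, B ω A → ∀ N : ℕ, ∑ x ∈ univ \ A, ∑ k ∈ Finset.range N,
      w ^ (k + 1) * (TT e ω A δ n * (dg (univ \ A) * TT e ω A δ n) ^ k) x x ≤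
        α + β * A.card) :
    (1 - β) * ∑ x : V, PW e n δ w (fun ω A => x ∈ A ∧ B ω A) ≤ α := by
  obtain ⟨p1, p2, p3, p4, p5, p6⟩ := Pool.Agent.Q277.LC.peb V e n δ w hδ0 hδ1 hw0 hw1
  have psum : ∀ (S : Finset V) (F : V → (ℕ → Bool) → Finset V → ℝ),
      PE e n δ w (fun ω A => ∑ x ∈ S, F x ω A) = ∑ x ∈ S, PE e n δ w (F x) := by
    intro S F
    induction S using Finset.induction_on with
    | empty =>
      simp only [Finset.sum_empty]
      rw [p1 (fun _ => 0)]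
      exact EE_const n δ 0
    | insert a S ha ih =>
      simp only [Finset.sum_insert ha]
      rw [p2, ih]
  have s1 : ∑ x : V, PW e n δ w (fun ω A => x ∈ A ∧ B ω A) ≤
      PE e n δ w (fun ω A => ∑ x : V,
        (if x ∉ A ∧ B ω A then Gx w (univ \ A) (TT e ω A δ n) x else 0)) := by
    rw [psum]
    exact sum_le_sum fun x _ => star e n δ w B hδ0 hδ1 hw0 hw1 hB hher x
  have s2 : PE e n δ w (fun ω A => ∑ x : V,
        (if x ∉ A ∧ B ω A then Gx w (univ \ A) (TT e ω A δ n) x else 0)) ≤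
      PE e n δ w (fun ω A => α + β * ∑ x : V, (if x ∈ A ∧ B ω A then (1 : ℝ) else 0)) := by
    refine p4 _ _ fun ω A _ => ?_
    by_cases hBA : B ω A
    · have e1 : ∑ x : V, (if x ∉ A ∧ B ω A then Gx w (univ \ A) (TT e ω A δ n) x else 0) =
          ∑ x ∈ univ \ A, Gx w (univ \ A) (TT e ω A δ n) x := by
        rw [← sum_filter]
        refine sum_congr ?_ fun _ _ => rfl
        ext y
        simp [hBA]
      have e2 : ∑ x : V, (if x ∈ A ∧ B ω A then (1 : ℝ) else 0) = A.card := by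
        rw [← sum_filter, sum_const, nsmul_eq_mul, mul_one]
        congr 2
        ext y
        simp [hBA]
      rw [e1, e2]
      obtain ⟨b1, b2, -⟩ := Pool.Agent.Q68.LC.bas2 V e ω A δ hδ0 hδ1
      exact Gx_sum_le w (univ \ A) _ ⟨fun x y => b1 n x y, fun x => (b2 n x).le⟩ hw0 hw1 _
        (h ω A hBA)
    · have e1 : ∑ x : V, (if x ∉ A ∧ B ω A then Gx w (univ \ A) (TT e ω A δ n) x else 0) = 0 :=
        sum_eq_zero fun x _ => by rw [if_neg (fun hh => hBA hh.2)]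
      have e2 : ∑ x : V, (if x ∈ A ∧ B ω A then (1 : ℝ) else 0) = 0 :=
        sum_eq_zero fun x _ => by rw [if_neg (fun hh => hBA hh.2)]
      rw [e1, e2, mul_zero, add_zero]
      exact hα
  have s3 : PE e n δ w (fun ω A => α + β * ∑ x : V, (if x ∈ A ∧ B ω A then (1 : ℝ) else 0)) =
      α + β * ∑ x : V, PW e n δ w (fun ω A => x ∈ A ∧ B ω A) := by
    rw [p2 (fun _ _ => α), p3, psum, p1 (fun _ => α), EE_const]
    congr 2
    refine sum_congr rfl fun x _ => ?_
    rw [← p5 (fun ω A => x ∈ A ∧ B ω A)]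
    congr 1
    funext ω A
    congr 1
  have s4 := s1.trans (s2.trans (le_of_eq s3))
  linarith

end Pool.Agent.H961.T2
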