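import Pool.Graph.R_pool_sql_team_seeded_3997aac3.Q257.LC.KerU

/-!
# The kernel of several laps in a good environment
-/

set_option autoImplicit false
set_option linter.unusedSectionVars false
set_option linter.unusedVariables false

namespace Pool.Agent.H961.T2

open Finset Equiv Matrix Q292.LC
open Pool.Agent.Q257.LC

theorem nat_par (Z ml ρ r K L : ℕ) (hZ3 : 3 ≤ Z) (hr : Z ^ (ml + 2) ≤ r)
    (hL : 8 * Z ^ (ml + 2) ≤ L) (hK : Z ^ (ml + 2) ≤ K) :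
    Z ^ ml ≤ r ∧ 8 * Z ^ ml ≤ L ∧ Z ^ ml ≤ K ∧ Z ^ ml ≤ K / 2 ∧
    Z ^ ml ≤ K - K / 2 ∧ 3 ≤ L ∧ K ≤ 3 * (K / 2) ∧ K ≤ 3 * (K - K / 2) ∧ 1 ≤ K := by
  obtain ⟨n1, n2, n3, n4, n5, n6, hL3, n8, n9, n10⟩ :=
    ker_nat Z ml r 0 K L hZ3 (Nat.zero_le _) hr hL hK
  exact ⟨by omega, n3, n4, n5, n6, hL3, n8, n9, n10⟩

/-- all laps -/
theorem ker2 (d : ℕ) (hd : 3 ≤ d) : ∃ (C m : ℕ) (c : ℝ), 3 ≤ C ∧ 0 < c ∧ ∀ Z : ℕ, C ≤ Z →
    ∀ (L K lam r ρ κ₀ : ℕ) [NeZero L], lam ≤ Z → ρ ≤ Z → κ₀ ≤ Z → (L : ℝ) ^ d ≤ Real.exp Z →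
    Z ^ m ≤ r → 8 * Z ^ m ≤ L → Z ^ m ≤ K → ∃ q₀ : ℕ, ∀ q ≥ q₀,
    ∀ σ : ℕ → (Fin d → ZMod L) × Fin d, Per σ → ∀ δ : ℝ, 1 ≤ δ * q → δ * q ≤ 2 →
    ∀ (ω : ℕ → Bool) (R : Finset (Fin d → ZMod L)), Ev σ q K lam r ρ κ₀ ω R →
    ∀ (U : Finset (Fin d → ZMod L)) (x y : Fin d → ZMod L),
    Disjoint U R → x ∉ R → ∀ k : ℕ,
    (TT (ed ∘ σ) ω R δ (K * (q * ms d L)) *
      (dg U * TT (ed ∘ σ) ω R δ (K * (q * ms d L))) ^ k) x y ≤
      C / (L : ℝ) ^ d + (c * K * ((k : ℝ) + 1)) ^ (-(d / 2 : ℝ)) := by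
  obtain ⟨Cl, ml, c, hCl, hc, hlap⟩ := lap d hd
  have hB1 := Pool.Agent.Q68.LC.bas1
  have hB2 := Pool.Agent.Q68.LC.bas2
  have hSUB := Pool.Agent.Q277.LC.sub
  have hREV := Pool.Agent.Q187.LC.Rev.rev
  have hd1 : 1 ≤ d := by omega
  refine ⟨Cl + 3, ml + 2, c / 3, by omega, by positivity, ?_⟩
  intro Z hZ L K lam r ρ κ₀ _ hlam hρ hκ hLd hr hL hK
  obtain ⟨n1, n3, n4, n5, n6, hL3, n8, n9, n10⟩ :=
    nat_par Z ml ρ r K L (by omega) hr hL hK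
  obtain ⟨q1, hq1⟩ := hlap Z (by omega) L K lam r ρ κ₀ hlam hρ hκ hLd n1 n3 n4
  obtain ⟨q2, hq2⟩ := hlap Z (by omega) L (K / 2) lam r ρ κ₀ hlam hρ hκ hLd n1 n3 n5
  obtain ⟨q3, hq3⟩ := hlap Z (by omega) L (K - K / 2) lam r ρ κ₀ hlam hρ hκ hLd n1
    n3 n6
  refine ⟨q1 + q2 + q3 + 2, ?_⟩
  intro q hq σ hσ δ h1 h2 ω R hEv U x y hUR hxR
  have hqr : (2 : ℝ) ≤ q := by
    have : 2 ≤ q := by omega
    exact_mod_cast this
  have hδ : 0 < δ := by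
    by_contra h
    push Not at h
    nlinarith
  have hδ1 : δ ≤ 1 := by nlinarith
  obtain ⟨hσr, hEvr, hTr⟩ := hREV d L hd1 hL3 σ hσ q K lam r ρ κ₀ ω R δ
  have hB := hB2 _ (ed ∘ σ) ω R δ hδ.le hδ1
  obtain ⟨T, hT⟩ : ∃ T, T = TT (ed ∘ σ) ω R δ (K * (q * ms d L)) := ⟨_, rfl⟩
  obtain ⟨R', hR'⟩ : ∃ R', R' = R.image (gp (ed ∘ σ) ω (K * (q * ms d L))) := ⟨_, rfl⟩
  have hT0 : ∀ x y, 0 ≤ T x y := by
    rw [hT]
    exact hB.1 _
  have hrow : ∀ x, ∑ y, T x y = 1 := by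
    rw [hT]
    exact hB.2.1 _
  have hcol : ∀ y, ∑ x, T x y = 1 := by
    rw [hT]
    exact hB.2.2.1 _
  have hz : ∀ a, a ∉ R → ∀ b ∈ R', T a b = 0 := by
    rw [hT, hR']
    exact hB.2.2.2.2.1 _
  have hL0 : (0 : ℝ) < L := by
    have : 0 < L := by omega
    exact_mod_cast this
  have hK0 : (0 : ℝ) < K := by exact_mod_cast n10
  obtain ⟨m0, hm0⟩ : ∃ m0 : ℝ, m0 = Cl / (L : ℝ) ^ d := ⟨_, rfl⟩
  have hm0n : 0 ≤ m0 := by
    rw [hm0]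
    positivity
  rw [← hT]
  have hfin : ∀ k : ℕ, m0 + (c * K / 3 * ((k : ℝ) + 1)) ^ (-(d / 2 : ℝ)) ≤
      ((Cl + 3 : ℕ) : ℝ) / (L : ℝ) ^ d + (c / 3 * K * ((k : ℝ) + 1)) ^ (-(d / 2 : ℝ)) := by
    intro k
    have e1 : c * K / 3 * ((k : ℝ) + 1) = c / 3 * K * ((k : ℝ) + 1) := by ring
    rw [e1, hm0]
    refine add_le_add ?_ le_rfl
    refine div_le_div_of_nonneg_right ?_ (by positivity)
    push_cast
    linarith
  by_cases hy : y ∈ R'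
  · intro k
    rw [pow_zero_col T R R' U hUR hz k x hxR y hy]
    positivity
  · -- the kernel of all powers
    have hUR2 : Disjoint (U \ R') R := disjoint_of_subset_left sdiff_subset hUR
    have hUR3 : Disjoint (U \ R') R' := sdiff_disjoint
    have hLap1 : ∀ f : (Fin d → ZMod L) → ℝ, (∀ x, 0 ≤ f x) → (∀ x ∈ R, f x = 0) →
        ∑ x, f x ≤ 1 → ∑ x, (vecMul f T x) ^ 2 ≤
        max m0 (((∑ x, (f x) ^ 2) ^ (-(2 / d : ℝ)) + c * K) ^ (-(d / 2 : ℝ))) := by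
      rw [hT, hm0]
      exact hq1 q (by omega) σ hσ δ h1 h2 ω R hEv
    have hLap2 : ∀ f : (Fin d → ZMod L) → ℝ, (∀ x, 0 ≤ f x) → (∀ x ∈ R', f x = 0) →
        ∑ x, f x ≤ 1 → ∑ x, (vecMul f Tᵀ x) ^ 2 ≤
        max m0 (((∑ x, (f x) ^ 2) ^ (-(2 / d : ℝ)) + c * K) ^ (-(d / 2 : ℝ))) := by
      rw [hT, hR', hm0, ← hTr]
      exact hq1 q (by omega) (rvs σ) hσr δ h1 h2 _ _ (hEvr hEv)
    have hpow : ∀ k : ℕ, (T * (dg U * T) ^ k) x y ≤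
        m0 + (c * K / 3 * ((k : ℝ) + 1)) ^ (-(d / 2 : ℝ)) := by
      intro k
      rcases Nat.eq_zero_or_pos k with hk | hk
      · subst hk
        rw [pow_zero, Matrix.mul_one]
        -- two halves
        obtain ⟨K1, hK1⟩ : ∃ K1, K1 = K / 2 := ⟨_, rfl⟩
        obtain ⟨K2, hK2⟩ : ∃ K2, K2 = K - K / 2 := ⟨_, rfl⟩
        have hKK : K = K1 + K2 := by omega
        obtain ⟨T1, hT1⟩ : ∃ T1, T1 = TT (ed ∘ σ) ω R δ (K1 * (q * ms d L)) := ⟨_, rfl⟩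
        obtain ⟨ω1, hω1⟩ : ∃ ω1 : ℕ → Bool, ω1 = sh (K1 * (q * ms d L)) ω := ⟨_, rfl⟩
        obtain ⟨R1, hR1⟩ : ∃ R1, R1 = R.image (gp (ed ∘ σ) ω (K1 * (q * ms d L))) := ⟨_, rfl⟩
        obtain ⟨T2, hT2⟩ : ∃ T2, T2 = TT (ed ∘ σ) ω1 R1 δ (K2 * (q * ms d L)) := ⟨_, rfl⟩
        have hTT : T = T1 * T2 := by
          rw [hT, hT1, hT2, hω1, hR1, hKK]
          exact TT_units hB2 hσ ω R hδ.le hδ1 q K1 K2
        have hE1 : Ev σ q K1 lam r ρ κ₀ ω R := by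
          have h4 := (hSUB d L hL3 σ hσ q K lam r ρ κ₀ ω R hEv 0 K1 (by omega)).2
          have h5 : sh (0 * (q * ms d L)) ω = ω := by
            funext k
            simp [sh]
          have h6 : R.image (gp (ed ∘ σ) ω (0 * (q * ms d L))) = R := by
            rw [Nat.zero_mul]
            simp [gp]
          rw [h5, h6] at h4
          exact h4
        have hE2 : Ev σ q K2 lam r ρ κ₀ ω1 R1 := by
          rw [hω1, hR1]
          exact (hSUB d L hL3 σ hσ q K lam r ρ κ₀ ω R hEv K1 K2 (by omega)).2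
        obtain ⟨-, hEvr2, hTr2⟩ := hREV d L hd1 hL3 σ hσ q K2 lam r ρ κ₀ ω1 R1 δ
        have hB1' := hB2 _ (ed ∘ σ) ω R δ hδ.le hδ1
        have hB2' := hB2 _ (ed ∘ σ) ω1 R1 δ hδ.le hδ1
        have hy2 : y ∉ R1.image (gp (ed ∘ σ) ω1 (K2 * (q * ms d L))) := by
          intro h7
          apply hy
          rw [hR1, image_image] at h7
          rw [hR', hKK, add_mul, (hB1 _ (ed ∘ σ) ω).1, sh_ed hσ, ← hω1]
          obtain ⟨a, ha, hay⟩ := mem_image.1 h7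
          exact mem_image.2 ⟨a, ha, hay⟩
        rw [hTT]
        refine one_bound T1 T2 ?_ ?_ ?_ ?_ ?_ ?_ R
          (R1.image (gp (ed ∘ σ) ω1 (K2 * (q * ms d L)))) d hd1 m0 c K K1 K2 hc hK0 ?_ ?_ hm0n
          ?_ ?_ x y hxR hy2
        · rw [hT1]
          exact hB1'.1 _
        · rw [hT1]
          exact hB1'.2.1 _
        · rw [hT1]
          exact hB1'.2.2.1 _
        · rw [hT2]
          exact hB2'.1 _
        · rw [hT2]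
          exact hB2'.2.1 _
        · rw [hT2]
          exact hB2'.2.2.1 _
        · rw [hK1]
          exact_mod_cast n8
        · rw [hK2]
          exact_mod_cast n9
        · rw [hT1, hm0, hK1]
          rw [hK1] at hE1
          exact hq2 q (by omega) σ hσ δ h1 h2 ω R hE1
        · rw [hT2, hm0, ← hTr2]
          have hE3 := hEvr2 hE2
          subst hK2
          exact hq3 q (by omega) (rvs σ) hσr δ h1 h2 _ _ hE3
      · rw [pow_eq_sdiff T R R' U hUR hz k x hxR y]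
        exact pow_bound T hT0 hrow hcol R R' (U \ R') hUR2 hUR3 d hd1 m0 c K hc hK0 hm0n
          hLap1 hLap2 x y hxR hy k hk
    exact fun k => (hpow k).trans (hfin k)

end Pool.Agent.H961.T2
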