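import Pool.Agent.H961.T2.B5
import Pool.Agent.H961.T2.B2

/-!
# The weighted sum over the number of laps
-/

set_option autoImplicit false
set_option linter.unusedSectionVars false
set_option linter.unusedVariables false

namespace Pool.Agent.H961.T2

open Finset Equiv Matrix Q292.LC

/-- the tail of the zeta series -/
noncomputable def rr (d k : ℕ) : ℝ := ∑' i : ℕ, ((i : ℝ) + k + 1) ^ (-(d / 2 : ℝ))

theorem rr_summable (d k : ℕ) (hd : 3 ≤ d) :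
    Summable (fun i : ℕ => ((i : ℝ) + k + 1) ^ (-(d / 2 : ℝ))) := by
  have hd3 : (3 : ℝ) ≤ d := by exact_mod_cast hd
  have h1 : Summable (fun k : ℕ => (k : ℝ) ^ (-(d / 2 : ℝ))) :=
    Real.summable_nat_rpow.2 (by linarith)
  have h2 := (summable_nat_add_iff (k + 1)).2 h1
  refine h2.congr fun i => ?_
  push_cast
  rw [add_assoc]

theorem rr_nonneg (d k : ℕ) : 0 ≤ rr d k := tsum_nonneg fun i => by positivity

/-- abstract weighted sum -/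
theorem weighted_sum (b p : ℕ → ℝ) (w E m0 c X : ℝ) (d k0 : ℕ) (hd : 3 ≤ d) (hw0 : 0 ≤ w)
    (hw1 : w < 1) (hE : 0 ≤ E) (hm0 : 0 ≤ m0) (hc : 0 ≤ c) (hX : 0 ≤ X) (hb0 : ∀ k, 0 ≤ b k)
    (hb1 : ∀ k, b k ≤ p k + ((k : ℝ) + 1) * E)
    (hb2 : ∀ k, b k ≤ m0 + (c * X * ((k : ℝ) + 1)) ^ (-(d / 2 : ℝ))) (N : ℕ) :
    ∑ k ∈ range N, w ^ (k + 1) * b k ≤ ∑ k ∈ range k0, w ^ (k + 1) * p k +
      ((k0 : ℝ) ^ 2 * E + (m0 / (1 - w) + (c ^ (-(d / 2 : ℝ)) * X ^ (-(d / 2 : ℝ))) * rr d k0)) := by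
  have h1 : ∑ k ∈ range N, w ^ (k + 1) * b k ≤ ∑ k ∈ range (k0 + N), w ^ (k + 1) * b k :=
    sum_le_sum_of_subset_of_nonneg (range_subset_range.2 (by omega)) fun k _ _ =>
      mul_nonneg (pow_nonneg hw0 _) (hb0 k)
  rw [sum_range_add] at h1
  refine h1.trans ?_
  have h2 : ∑ k ∈ range k0, w ^ (k + 1) * b k ≤
      ∑ k ∈ range k0, w ^ (k + 1) * p k + (k0 : ℝ) ^ 2 * E := by
    have e1 : ∀ k ∈ range k0, w ^ (k + 1) * b k ≤ w ^ (k + 1) * p k + k0 * E := by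
      intro k hk
      have f1 : w ^ (k + 1) ≤ 1 := pow_le_one₀ hw0 hw1.le
      have f2 : 0 ≤ w ^ (k + 1) := pow_nonneg hw0 _
      have f3 : (k : ℝ) + 1 ≤ k0 := by
        have := mem_range.1 hk
        exact_mod_cast this
      have f4 : ((k : ℝ) + 1) * E ≤ k0 * E := mul_le_mul_of_nonneg_right f3 hE
      have f5 : 0 ≤ (k0 : ℝ) * E := by positivity
      calc w ^ (k + 1) * b k ≤ w ^ (k + 1) * (p k + k0 * E) :=
            mul_le_mul_of_nonneg_left ((hb1 k).trans (add_le_add le_rfl f4)) f2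
        _ = w ^ (k + 1) * p k + w ^ (k + 1) * (k0 * E) := by ring
        _ ≤ w ^ (k + 1) * p k + 1 * (k0 * E) :=
            add_le_add le_rfl (mul_le_mul_of_nonneg_right f1 f5)
        _ = _ := by ring
    refine (sum_le_sum e1).trans (le_of_eq ?_)
    rw [sum_add_distrib, sum_const, card_range, nsmul_eq_mul]
    ring
  have h3 : ∑ i ∈ range N, w ^ (k0 + i + 1) * b (k0 + i) ≤
      m0 / (1 - w) + (c ^ (-(d / 2 : ℝ)) * X ^ (-(d / 2 : ℝ))) * rr d k0 := by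
    have e1 : ∀ i ∈ range N, w ^ (k0 + i + 1) * b (k0 + i) ≤ m0 * w ^ i +
        (c ^ (-(d / 2 : ℝ)) * X ^ (-(d / 2 : ℝ))) * ((i : ℝ) + k0 + 1) ^ (-(d / 2 : ℝ)) := by
      intro i _
      have f1 : w ^ (k0 + i + 1) ≤ w ^ i := pow_le_pow_of_le_one hw0 hw1.le (by omega)
      have f1' : w ^ (k0 + i + 1) ≤ 1 := pow_le_one₀ hw0 hw1.le
      have f2 : 0 ≤ w ^ (k0 + i + 1) := pow_nonneg hw0 _
      have f3 : (c * X * (((k0 + i : ℕ) : ℝ) + 1)) ^ (-(d / 2 : ℝ)) =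
          (c ^ (-(d / 2 : ℝ)) * X ^ (-(d / 2 : ℝ))) * ((i : ℝ) + k0 + 1) ^ (-(d / 2 : ℝ)) := by
        rw [← Real.mul_rpow hc hX, ← Real.mul_rpow (mul_nonneg hc hX) (by positivity)]
        congr 1
        push_cast
        ring
      have f4 := hb2 (k0 + i)
      rw [f3] at f4
      have f5 : 0 ≤ (c ^ (-(d / 2 : ℝ)) * X ^ (-(d / 2 : ℝ))) *
          ((i : ℝ) + k0 + 1) ^ (-(d / 2 : ℝ)) := by positivity
      calc w ^ (k0 + i + 1) * b (k0 + i) ≤ w ^ (k0 + i + 1) * (m0 +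
            (c ^ (-(d / 2 : ℝ)) * X ^ (-(d / 2 : ℝ))) * ((i : ℝ) + k0 + 1) ^ (-(d / 2 : ℝ))) :=
            mul_le_mul_of_nonneg_left f4 f2
        _ = w ^ (k0 + i + 1) * m0 + w ^ (k0 + i + 1) *
            ((c ^ (-(d / 2 : ℝ)) * X ^ (-(d / 2 : ℝ))) * ((i : ℝ) + k0 + 1) ^ (-(d / 2 : ℝ))) := by
            ring
        _ ≤ w ^ i * m0 + 1 * ((c ^ (-(d / 2 : ℝ)) * X ^ (-(d / 2 : ℝ))) *
            ((i : ℝ) + k0 + 1) ^ (-(d / 2 : ℝ))) :=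
            add_le_add (mul_le_mul_of_nonneg_right f1 hm0) (mul_le_mul_of_nonneg_right f1' f5)
        _ = _ := by ring
    refine (sum_le_sum e1).trans ?_
    rw [sum_add_distrib, ← mul_sum, ← mul_sum]
    have e2 : ∑ i ∈ range N, w ^ i ≤ (1 - w)⁻¹ :=
      sum_le_hasSum _ (fun k _ => pow_nonneg hw0 k) (hasSum_geometric_of_lt_one hw0 hw1)
    have e3 : ∑ i ∈ range N, ((i : ℝ) + k0 + 1) ^ (-(d / 2 : ℝ)) ≤ rr d k0 :=
      (rr_summable d k0 hd).sum_le_tsum _ (fun k _ => by positivity)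
    rw [div_eq_mul_inv]
    exact add_le_add (mul_le_mul_of_nonneg_left e2 hm0)
      (mul_le_mul_of_nonneg_left e3 (by positivity))
  linarith

/-- the weighted sum in a good environment -/
theorem env_sum (d : ℕ) (hd : 3 ≤ d) : ∃ (C m : ℕ), 3 ≤ C ∧ ∀ Z : ℕ, C ≤ Z →
    ∀ (L K lam r ρ κ₀ : ℕ) [NeZero L], lam ≤ Z → ρ ≤ Z → κ₀ ≤ Z → (L : ℝ) ^ d ≤ Real.exp Z →
    Z ^ m ≤ r → 8 * Z ^ m ≤ L → Z ^ m ≤ K → ∃ q₀ : ℕ, ∀ q ≥ q₀,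
    ∀ σ : ℕ → (Fin d → ZMod L) × Fin d, Per σ → ∀ δ : ℝ, 1 ≤ δ * q → δ * q ≤ 2 →
    ∀ w : ℝ, 0 ≤ w → w < 1 → ∀ k0 : ℕ,
    ∀ (ω : ℕ → Bool) (A : Finset (Fin d → ZMod L)), Ev σ q K lam r ρ κ₀ ω A → ∀ N : ℕ,
    ∑ x ∈ univ \ A, ∑ k ∈ range N, w ^ (k + 1) * (TT (ed ∘ σ) ω A δ (K * (q * ms d L)) *
      (dg (univ \ A) * TT (ed ∘ σ) ω A δ (K * (q * ms d L))) ^ k) x x ≤
      (∑ k ∈ range k0, w ^ (k + 1) * (PP (ed ∘ σ) δ (K * (q * ms d L)) ^ (k + 1)).trace +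
        C * (1 / (1 - w) + (L : ℝ) ^ d * (K : ℝ) ^ (-(d / 2 : ℝ)) * rr d k0)) +
      ((k0 : ℝ) ^ 2 * (C * ((K : ℝ) ^ (-(d / 2 : ℝ)) + 1 / (L : ℝ) ^ d) * (Z * K))) *
        A.card := by
  obtain ⟨C1, m1, c, hC1, hc, hker⟩ := ker2 d hd
  obtain ⟨C2, m2, hC2, htr⟩ := env_trace d hd
  refine ⟨C1 + C2 + ⌈c ^ (-(d / 2 : ℝ))⌉₊, m1 + m2, by omega, ?_⟩
  intro Z hZ L K lam r ρ κ₀ _ hlam hρ hκ hLd hr hL hK
  have hZ1 : 1 ≤ Z := by omega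
  have p1 : Z ^ m1 ≤ Z ^ (m1 + m2) := Nat.pow_le_pow_right hZ1 (by omega)
  have p2 : Z ^ m2 ≤ Z ^ (m1 + m2) := Nat.pow_le_pow_right hZ1 (by omega)
  obtain ⟨q1, hq1⟩ := hker Z (by omega) L K lam r ρ κ₀ hlam hρ hκ hLd (by omega) (by omega)
    (by omega)
  obtain ⟨q2, hq2⟩ := htr Z (by omega) L K lam r ρ κ₀ hlam hρ hκ hLd (by omega) (by omega)
    (by omega)
  refine ⟨q1 + q2 + 2, ?_⟩
  intro q hq σ hσ δ h1 h2 w hw0 hw1 k0 ω A hEv N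
  have hqr : (2 : ℝ) ≤ q := by
    have : 2 ≤ q := by omega
    exact_mod_cast this
  have hδ : 0 < δ := by
    by_contra h
    push Not at h
    nlinarith
  have hδ1 : δ ≤ 1 := by nlinarith
  have hLp : 0 < L := Nat.pos_of_ne_zero (NeZero.ne L)
  have hL0 : (0 : ℝ) < L := by exact_mod_cast hLp
  have hLd0 : (0 : ℝ) < (L : ℝ) ^ d := pow_pos hL0 d
  have hk1 := hq1 q (by omega) σ hσ δ h1 h2 ω A hEv (univ \ A)
  have hk2 := hq2 q (by omega) σ hσ δ h1 h2 ω A hEv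
  have hT0 : ∀ x y, 0 ≤ TT (ed ∘ σ) ω A δ (K * (q * ms d L)) x y :=
    (Pool.Agent.Q68.LC.bas2 _ (ed ∘ σ) ω A δ hδ.le hδ1).1 _
  have hTB : BS (TT (ed ∘ σ) ω A δ (K * (q * ms d L))) := by
    have h := Pool.Agent.Q68.LC.bas2 _ (ed ∘ σ) ω A δ hδ.le hδ1
    exact ⟨h.1 _, fun x => (h.2.1 _ x).le, fun y => (h.2.2.1 _ y).le⟩
  obtain ⟨P, hP⟩ : ∃ P, P = PP (ed ∘ σ) δ (K * (q * ms d L)) := ⟨_, rfl⟩
  rw [← hP] at hk2 ⊢
  obtain ⟨T, hT⟩ : ∃ T, T = TT (ed ∘ σ) ω A δ (K * (q * ms d L)) := ⟨_, rfl⟩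
  rw [← hT] at hk1 hk2 hTB ⊢
  obtain ⟨U, hU⟩ : ∃ U, U = univ \ A := ⟨_, rfl⟩
  rw [← hU] at hk1 hk2 ⊢
  have hUA : Disjoint U A := by rw [hU]; exact sdiff_disjoint
  obtain ⟨b, hb⟩ : ∃ b : ℕ → ℝ, b = fun k => ∑ x ∈ U, (T * (dg U * T) ^ k) x x := ⟨_, rfl⟩
  have hsum : ∑ x ∈ U, ∑ k ∈ range N, w ^ (k + 1) * (T * (dg U * T) ^ k) x x =
      ∑ k ∈ range N, w ^ (k + 1) * b k := by
    rw [sum_comm]
    refine sum_congr rfl fun k _ => ?_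
    rw [hb, mul_sum]
  rw [hsum]
  obtain ⟨X, hX⟩ : ∃ X : ℝ, X = (K : ℝ) ^ (-(d / 2 : ℝ)) := ⟨_, rfl⟩
  obtain ⟨E, hE⟩ : ∃ E : ℝ, E = C2 * (X + 1 / (L : ℝ) ^ d) * (Z * K * A.card) := ⟨_, rfl⟩
  have hX0 : 0 ≤ X := by rw [hX]; exact Real.rpow_nonneg (Nat.cast_nonneg _) _
  have hXL : 0 ≤ X + 1 / (L : ℝ) ^ d := add_nonneg hX0 (div_nonneg zero_le_one hLd0.le)
  have hZK : 0 ≤ (Z : ℝ) * K * A.card :=
    mul_nonneg (mul_nonneg (Nat.cast_nonneg _) (Nat.cast_nonneg _)) (Nat.cast_nonneg _)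
  have hE0 : 0 ≤ E := by
    rw [hE]
    exact mul_nonneg (mul_nonneg (Nat.cast_nonneg _) hXL) hZK
  have hb0 : ∀ k, 0 ≤ b k := by
    intro k
    rw [hb]
    exact sum_nonneg fun x _ => (BS_mul hTB (BS_pow (BS_dg U hTB) k)).nn x x
  have hb1 : ∀ k, b k ≤ (P ^ (k + 1)).trace + ((k : ℝ) + 1) * E := by
    intro k
    rw [hb, hE, hX]
    exact hk2 k
  have hcardU : (U.card : ℝ) ≤ (L : ℝ) ^ d := by
    have e1 : U.card ≤ (univ : Finset (Fin d → ZMod L)).card := card_le_card (subset_univ _)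
    rw [card_univ, Fintype.card_fun, ZMod.card, Fintype.card_fin] at e1
    exact_mod_cast e1
  -- per site
  have hb2 : ∀ k, b k / (L : ℝ) ^ d ≤ C1 / (L : ℝ) ^ d +
      (c * K * ((k : ℝ) + 1)) ^ (-(d / 2 : ℝ)) := by
    intro k
    rw [div_le_iff₀ hLd0, hb]
    have e0 : 0 ≤ C1 / (L : ℝ) ^ d + (c * K * ((k : ℝ) + 1)) ^ (-(d / 2 : ℝ)) := by positivity
    calc ∑ x ∈ U, (T * (dg U * T) ^ k) x x ≤
          ∑ x ∈ U, (C1 / (L : ℝ) ^ d + (c * K * ((k : ℝ) + 1)) ^ (-(d / 2 : ℝ))) := by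
          refine sum_le_sum fun x hx => ?_
          exact hk1 x x hUA (disjoint_left.1 hUA hx) k
      _ = U.card * (C1 / (L : ℝ) ^ d + (c * K * ((k : ℝ) + 1)) ^ (-(d / 2 : ℝ))) := by
          rw [sum_const, nsmul_eq_mul]
      _ ≤ (L : ℝ) ^ d * (C1 / (L : ℝ) ^ d + (c * K * ((k : ℝ) + 1)) ^ (-(d / 2 : ℝ))) :=
          mul_le_mul_of_nonneg_right hcardU e0
      _ = _ := by ring
  have hb1' : ∀ k, b k / (L : ℝ) ^ d ≤ (P ^ (k + 1)).trace / (L : ℝ) ^ d +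
      ((k : ℝ) + 1) * (E / (L : ℝ) ^ d) := by
    intro k
    have := div_le_div_of_nonneg_right (hb1 k) hLd0.le
    refine this.trans (le_of_eq ?_)
    rw [add_div, mul_div_assoc]
  have key := weighted_sum (fun k => b k / (L : ℝ) ^ d) (fun k => (P ^ (k + 1)).trace /
    (L : ℝ) ^ d) w (E / (L : ℝ) ^ d) (C1 / (L : ℝ) ^ d) c K d k0 hd hw0 hw1
    (div_nonneg hE0 hLd0.le) (div_nonneg (Nat.cast_nonneg _) hLd0.le) hc.le (Nat.cast_nonneg _)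
    (fun k => div_nonneg (hb0 k) hLd0.le) hb1' hb2 N
  have key2 := mul_le_mul_of_nonneg_left key hLd0.le
  rw [mul_sum, mul_add, mul_sum] at key2
  have e1 : ∀ k ∈ range N, (L : ℝ) ^ d * (w ^ (k + 1) * (b k / (L : ℝ) ^ d)) =
      w ^ (k + 1) * b k := by
    intro k _
    field_simp
  have e2 : ∀ k ∈ range k0, (L : ℝ) ^ d * (w ^ (k + 1) * ((P ^ (k + 1)).trace / (L : ℝ) ^ d)) =
      w ^ (k + 1) * (P ^ (k + 1)).trace := by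
    intro k _
    field_simp
  rw [sum_congr rfl e1, sum_congr rfl e2] at key2
  refine key2.trans ?_
  rw [add_assoc]
  refine add_le_add le_rfl ?_
  rw [← hX]
  obtain ⟨c5, hc5⟩ : ∃ c5 : ℝ, c5 = c ^ (-(d / 2 : ℝ)) := ⟨_, rfl⟩
  rw [← hc5]
  have hc50 : 0 ≤ c5 := by rw [hc5]; exact Real.rpow_nonneg hc.le _
  have hrr := rr_nonneg d k0
  have h1w : 0 < 1 - w := by linarith
  have e3 : (L : ℝ) ^ d * ((k0 : ℝ) ^ 2 * (E / (L : ℝ) ^ d) +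
      (C1 / (L : ℝ) ^ d / (1 - w) + c5 * X * rr d k0)) =
      (C1 * (1 / (1 - w)) + c5 * ((L : ℝ) ^ d * X * rr d k0)) + (k0 : ℝ) ^ 2 * E := by
    field_simp
    ring
  rw [e3]
  have hCc : c5 ≤ ((C1 + C2 + ⌈c5⌉₊ : ℕ) : ℝ) := by
    push_cast
    have := Nat.le_ceil c5
    have h1 : (0 : ℝ) ≤ C1 := Nat.cast_nonneg _
    have h2 : (0 : ℝ) ≤ C2 := Nat.cast_nonneg _
    linarith
  have hCC1 : (C1 : ℝ) ≤ ((C1 + C2 + ⌈c5⌉₊ : ℕ) : ℝ) := by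
    have : C1 ≤ C1 + C2 + ⌈c5⌉₊ := by omega
    exact_mod_cast this
  have hCC2 : (C2 : ℝ) ≤ ((C1 + C2 + ⌈c5⌉₊ : ℕ) : ℝ) := by
    have : C2 ≤ C1 + C2 + ⌈c5⌉₊ := by omega
    exact_mod_cast this
  obtain ⟨CC, hCC⟩ : ∃ CC : ℝ, CC = ((C1 + C2 + ⌈c5⌉₊ : ℕ) : ℝ) := ⟨_, rfl⟩
  rw [← hCC] at hCc hCC1 hCC2 ⊢
  have i1 : 0 ≤ 1 / (1 - w) := div_nonneg zero_le_one h1w.le
  have i2 : 0 ≤ (L : ℝ) ^ d * X * rr d k0 := mul_nonneg (mul_nonneg hLd0.le hX0) hrr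
  have i3 : C1 * (1 / (1 - w)) ≤ CC * (1 / (1 - w)) := mul_le_mul_of_nonneg_right hCC1 i1
  have i4 : c5 * ((L : ℝ) ^ d * X * rr d k0) ≤ CC * ((L : ℝ) ^ d * X * rr d k0) :=
    mul_le_mul_of_nonneg_right hCc i2
  have i5 : (k0 : ℝ) ^ 2 * E ≤
      ((k0 : ℝ) ^ 2 * (CC * (X + 1 / (L : ℝ) ^ d) * (Z * K))) * A.card := by
    rw [hE]
    have j1 : C2 * (X + 1 / (L : ℝ) ^ d) * (Z * K * A.card) ≤
        CC * (X + 1 / (L : ℝ) ^ d) * (Z * K * A.card) :=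
      mul_le_mul_of_nonneg_right (mul_le_mul_of_nonneg_right hCC2 hXL) hZK
    calc (k0 : ℝ) ^ 2 * (C2 * (X + 1 / (L : ℝ) ^ d) * (Z * K * A.card)) ≤
          (k0 : ℝ) ^ 2 * (CC * (X + 1 / (L : ℝ) ^ d) * (Z * K * A.card)) :=
          mul_le_mul_of_nonneg_left j1 (sq_nonneg _)
      _ = _ := by ring
  have i6 : CC * (1 / (1 - w) + (L : ℝ) ^ d * X * rr d k0) =
      CC * (1 / (1 - w)) + CC * ((L : ℝ) ^ d * X * rr d k0) := by ring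
  rw [i6]
  exact add_le_add (add_le_add i3 i4) i5

end Pool.Agent.H961.T2
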