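import Pool.Agent.H961.T2.B8
import Pool.Graph.R_pool_sql_team_seeded_1e53cb71.Helper47K9.SC.All
import Pool.Graph.R_pool_sql_team_seeded_1e53cb71.Helper47K9.SC.Asy

/-!
# The generating function of the cycle length, for stirring
-/

set_option autoImplicit false
set_option linter.unusedSectionVars false
set_option linter.unusedVariables false

namespace Pool.Agent.H961.T2

open Finset Equiv Matrix Q292.LC
open Pool.Agent.Y998.ST (stirExp nnRate qq stirLaw totalRate hop cycleLen)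
open Pool.Agent.Q297.LC (exists_Per tro card_cyc)
open Pool.Agent.Helper47K9.SC (hop_diag)

theorem cyc_trans2 {d L : ℕ} [NeZero L] (t : ℝ) (f : ℕ → ℝ) (x : Fin d → ZMod L) :
    stirExp (nnRate d L) t (fun g => f (cyc g x).card) =
      stirExp (nnRate d L) t (fun g => f (cyc g 0).card) := by
  unfold stirExp
  rw [← Equiv.sum_comp (MulAut.conj (Equiv.addRight x)).toEquiv]
  refine Finset.sum_congr rfl fun g _ => ?_
  have e1 : (MulAut.conj (Equiv.addRight x)).toEquiv g =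
    Equiv.addRight x * g * (Equiv.addRight x)⁻¹ := rfl
  rw [e1, Pool.Agent.Y998.CN.law_conj (Equiv.addRight x)
    (fun a b => Pool.Agent.Y998.CN.nn_trans a b x)]
  have e2 : (cyc (Equiv.addRight x * g * (Equiv.addRight x)⁻¹) x).card = (cyc g 0).card := by
    have e3 : Equiv.addRight x (0 : Fin d → ZMod L) = x := by
      rw [Equiv.coe_addRight]; simp
    rw [card_cyc, card_cyc]
    have := Pool.Agent.Y998.CN.len_conj (Equiv.addRight x) g (0 : Fin d → ZMod L)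
    rw [e3] at this
    exact this
  beta_reduce
  rw [e2]

theorem PP_pow {d L : ℕ} [NeZero L] {σ : ℕ → (Fin d → ZMod L) × Fin d} (hσ : Per σ)
    {δ : ℝ} (hδ0 : 0 ≤ δ) (hδ1 : δ ≤ 1) (q K k : ℕ) :
    PP (ed ∘ σ) δ (K * (q * ms d L)) ^ (k + 1) = PP (ed ∘ σ) δ ((k + 1) * K * (q * ms d L)) := by
  induction k with
  | zero =>
    rw [Nat.zero_add, pow_one, one_mul]
  | succ k ih =>
    rw [pow_succ, ih]
    have : (k + 1 + 1) * K = (k + 1) * K + K := by ring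
    rw [this, PP_units hσ hδ0 hδ1]

theorem lim_aux (X Y D : ℝ) (q₀ : ℕ) (h : ∀ q : ℕ, q₀ ≤ q → 2 ≤ q → X ≤ Y + D / q) : X ≤ Y := by
  refine le_of_forall_pos_le_add fun ε hε => ?_
  obtain ⟨q₁, hq₁⟩ := exists_nat_gt (|D| / ε)
  obtain ⟨q, hq⟩ : ∃ q, q = max (max q₀ 2) (q₁ + 1) := ⟨_, rfl⟩
  have h1 := h q (by omega) (by omega)
  refine h1.trans (add_le_add le_rfl ?_)
  have hq' : (q₁ : ℝ) < q := by
    have : q₁ < q := by omega
    exact_mod_cast this
  have hqp : (0 : ℝ) < q := by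
    have : 0 < q := by omega
    exact_mod_cast this
  rw [div_le_iff₀ hqp]
  have h2 : |D| < q * ε := by
    have := hq₁.trans hq'
    rwa [div_lt_iff₀ hε] at this
  linarith [le_abs_self D]

/-- the limit of many sweeps per unit -/
theorem stir_lim (d : ℕ) (hd : 3 ≤ d) : ∃ (C : ℝ) (m : ℕ), 1 ≤ C ∧ ∀ (L K : ℕ) [NeZero L]
    (w t : ℝ), m ≤ K → K ≤ L ^ 2 → (Real.log L) ^ m ≤ K → 0 ≤ w → w < 1 →
    1 / ((L : ℝ) ^ d * (1 - w)) ≤ 2 / K → (K : ℝ) ≤ t → t ≤ 2 * K → 3 ≤ L → ∀ k0 : ℕ,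
    C * (k0 : ℝ) ^ 2 * (K : ℝ) ^ (-(1 / 4) : ℝ) ≤ 1 / 2 →
    (1 - C * (k0 : ℝ) ^ 2 * (K : ℝ) ^ (-(1 / 4) : ℝ)) *
      ((∑ x, stirExp (nnRate d L) t (fun g => w ^ (cyc g x).card)) - C) ≤
      ∑ k ∈ range k0, w ^ (k + 1) * ∑ x, hop (nnRate d L) (((k : ℝ) + 1) * t) x x +
        C * (1 / (1 - w) + (L : ℝ) ^ d * (K : ℝ) ^ (-(d / 2 : ℝ)) * rr d k0) := by
  obtain ⟨C, m, hC, h⟩ := tlc2 d hd
  refine ⟨C, m + 1, hC, ?_⟩
  intro L K _ w t hmK hKL hlog hw0 hw1 hwK hKt ht2K hL3 k0 hk0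
  have hK1 : 1 ≤ K := by omega
  have hK1r : (1 : ℝ) ≤ K := by exact_mod_cast hK1
  have hlog' : (Real.log L) ^ m ≤ K := by
    rcases le_total (Real.log L) 1 with h | h
    · exact (pow_le_one₀ (Real.log_natCast_nonneg L) h).trans hK1r
    · exact (pow_le_pow_right₀ h (by omega)).trans hlog
  obtain ⟨q₀, hq₀⟩ := h L K w (by omega) hKL hlog' hw0 hw1 hwK k0 hk0
  obtain ⟨σ, hσ⟩ := exists_Per d L (by omega)
  obtain ⟨C1, hC1⟩ := tro d L (by omega) hL3 (k0 * K + K)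
  obtain ⟨N, hN⟩ : ∃ N : ℝ, N = (Fintype.card (Fin d → ZMod L) : ℝ) := ⟨_, rfl⟩
  have hN0 : 0 ≤ N := by rw [hN]; exact Nat.cast_nonneg _
  obtain ⟨b, hb⟩ : ∃ b : ℝ, b = 1 - C * (k0 : ℝ) ^ 2 * (K : ℝ) ^ (-(1 / 4) : ℝ) := ⟨_, rfl⟩
  have hb0 : 0 ≤ b := by rw [hb]; linarith
  rw [← hb]
  refine lim_aux _ _ (b * (N * |C1|) + k0 * (N * |C1|)) q₀ fun q hq hq2 => ?_
  have hq' : (0 : ℝ) < q := by
    have : 0 < q := by omega
    exact_mod_cast this
  have hq2' : (2 : ℝ) ≤ q := by exact_mod_cast hq2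
  have hK' : (0 : ℝ) < K := by linarith
  obtain ⟨δ, hδ⟩ : ∃ δ : ℝ, δ = t / (K * q) := ⟨_, rfl⟩
  have hδq : δ * q = t / K := by rw [hδ]; field_simp
  have h1 : 1 ≤ δ * q := by
    rw [hδq, le_div_iff₀ hK']; linarith
  have h2 : δ * q ≤ 2 := by
    rw [hδq, div_le_iff₀ hK']; linarith
  have h0 : 0 ≤ δ := by
    have : 0 ≤ t := hK'.le.trans hKt
    rw [hδ]
    positivity
  have h3 : δ ≤ 1 := by nlinarith
  have key := hq₀ q hq σ hσ δ h1 h2
  rw [← hb] at key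
  have hKδ : ((K : ℝ) * q) * δ = t := by rw [hδ]; field_simp
  -- expectations
  have e1 : ∀ x : Fin d → ZMod L, stirExp (nnRate d L) t (fun g => w ^ (cyc g x).card) ≤
      EE (K * (q * ms d L)) δ (fun ω => w ^ (cyc (gp (ed ∘ σ) ω (K * (q * ms d L))) x).card) +
        |C1| / q := by
    intro x
    have f1 := (hC1 q (by omega) σ hσ δ h0 h3 h2 (K * q)
      (Nat.mul_le_mul_right _ (by omega))).1 (fun g => w ^ (cyc g x).card) (fun g => by
        rw [abs_of_nonneg (pow_nonneg hw0 _)]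
        exact pow_le_one₀ hw0 hw1.le)
    have f2 : ((K * q : ℕ) : ℝ) * δ = t := by
      push_cast
      exact hKδ
    rw [f2, Nat.mul_assoc] at f1
    have f3 := (abs_le.1 f1).1
    have f4 : C1 / q ≤ |C1| / q := div_le_div_of_nonneg_right (le_abs_self _) hq'.le
    linarith
  have e2 : ∀ k ∈ range k0, (PP (ed ∘ σ) δ (K * (q * ms d L)) ^ (k + 1)).trace ≤
      ∑ x, hop (nnRate d L) (((k : ℝ) + 1) * t) x x + N * (|C1| / q) := by
    intro k hk
    rw [PP_pow hσ h0 h3]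
    unfold Matrix.trace
    have f0 : ∀ x : Fin d → ZMod L, (PP (ed ∘ σ) δ ((k + 1) * K * (q * ms d L))).diag x ≤
        hop (nnRate d L) (((k : ℝ) + 1) * t) x x + |C1| / q := by
      intro x
      have hk' : k + 1 ≤ k0 := mem_range.1 hk
      have g1 : (k + 1) * K * q ≤ (k0 * K + K) * q :=
        Nat.mul_le_mul_right _ ((Nat.mul_le_mul_right _ hk').trans (Nat.le_add_right _ _))
      have f1 := (hC1 q (by omega) σ hσ δ h0 h3 h2 ((k + 1) * K * q) g1).2 x x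
      have f2 : (((k + 1) * K * q : ℕ) : ℝ) * δ = ((k : ℝ) + 1) * t := by
        push_cast
        rw [← hKδ]
        ring
      rw [f2, Nat.mul_assoc ((k + 1) * K)] at f1
      have f3 := (abs_le.1 f1).2
      have f4 : C1 / q ≤ |C1| / q := div_le_div_of_nonneg_right (le_abs_self _) hq'.le
      have f5 : qq (nnRate d L) (((k : ℝ) + 1) * t) x x =
        hop (nnRate d L) (((k : ℝ) + 1) * t) x x := rfl
      rw [f5] at f3
      rw [Matrix.diag_apply]
      linarith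
    refine (sum_le_sum fun x _ => f0 x).trans (le_of_eq ?_)
    rw [sum_add_distrib, sum_const, card_univ, nsmul_eq_mul, hN]
  have e3 : ∑ x, stirExp (nnRate d L) t (fun g => w ^ (cyc g x).card) ≤
      ∑ x, EE (K * (q * ms d L)) δ (fun ω =>
        w ^ (cyc (gp (ed ∘ σ) ω (K * (q * ms d L))) x).card) + N * (|C1| / q) := by
    refine (sum_le_sum fun x _ => e1 x).trans (le_of_eq ?_)
    rw [sum_add_distrib, sum_const, card_univ, nsmul_eq_mul, hN]
  have hc0 : 0 ≤ |C1| / q := div_nonneg (abs_nonneg _) hq'.le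
  have e4 : ∑ k ∈ range k0, w ^ (k + 1) * (PP (ed ∘ σ) δ (K * (q * ms d L)) ^ (k + 1)).trace ≤
      ∑ k ∈ range k0, w ^ (k + 1) * ∑ x, hop (nnRate d L) (((k : ℝ) + 1) * t) x x +
        k0 * (N * (|C1| / q)) := by
    have f1 : ∀ k ∈ range k0, w ^ (k + 1) * (PP (ed ∘ σ) δ (K * (q * ms d L)) ^ (k + 1)).trace ≤
        w ^ (k + 1) * ∑ x, hop (nnRate d L) (((k : ℝ) + 1) * t) x x + N * (|C1| / q) := by
      intro k hk
      have g1 : w ^ (k + 1) ≤ 1 := pow_le_one₀ hw0 hw1.le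
      have g2 : 0 ≤ w ^ (k + 1) := pow_nonneg hw0 _
      have g3 := mul_le_mul_of_nonneg_left (e2 k hk) g2
      have g4 : w ^ (k + 1) * (N * (|C1| / q)) ≤ 1 * (N * (|C1| / q)) :=
        mul_le_mul_of_nonneg_right g1 (mul_nonneg hN0 hc0)
      rw [mul_add] at g3
      linarith
    refine (sum_le_sum f1).trans (le_of_eq ?_)
    rw [sum_add_distrib, sum_const, card_range, nsmul_eq_mul]
  have e5 := mul_le_mul_of_nonneg_left (sub_le_sub_right e3 C) hb0
  have e6 : (b * (N * |C1|) + k0 * (N * |C1|)) / q =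
      b * (N * (|C1| / q)) + k0 * (N * (|C1| / q)) := by
    field_simp
  rw [e6]
  generalize (∑ x, stirExp (nnRate d L) t (fun g => w ^ (cyc g x).card)) = S1 at *
  generalize ∑ x, EE (K * (q * ms d L)) δ (fun ω =>
        w ^ (cyc (gp (ed ∘ σ) ω (K * (q * ms d L))) x).card) = S2 at *
  generalize N * (|C1| / q) = S3 at *
  have e7 : b * (S2 + S3 - C) = b * (S2 - C) + b * S3 := by ring
  rw [e7] at e5
  linarith

end Pool.Agent.H961.T2
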