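import Pool.Graph.R_pool_sql_team_seeded_3997aac3.Q297.LC.Par

/-!
# Choice of the parameters
-/

set_option autoImplicit false
set_option linter.unusedSectionVars false
set_option linter.unusedVariables false

namespace Pool.Agent.H961.T2

open Finset Equiv Matrix Q292.LC
open Pool.Agent.Q297.LC (exists_root pow_exp fail_bound)

theorem params (d C₁ C₃ m₁ : ℕ) (hd : 3 ≤ d) (hC₁ : 1 ≤ C₁) : ∃ m : ℕ,
    ∀ (L K : ℕ) [NeZero L] (w : ℝ), m ≤ K → K ≤ L ^ d → (Real.log L) ^ m ≤ K → 0 ≤ w → w < 1 →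
    1 / ((L : ℝ) ^ d * (1 - w)) ≤ 2 / K → ∃ Z : ℕ, C₁ + C₃ ≤ Z ∧ 1 ≤ Z ∧
      (L : ℝ) ^ d ≤ Real.exp Z ∧ 8 * Z ^ m₁ ≤ L ∧ Z ^ m₁ ≤ K ∧ Z ^ 4 ≤ K ∧ 3 ≤ L ∧
      ∀ κ : ℝ, κ = C₁ * ((K : ℝ) ^ (-(d / 2 : ℝ)) + 1 / ((L : ℝ) ^ d * (1 - w))) →
      ((Z : ℝ) + 2) * κ ≤ 1 ∧
      C₁ * ((L : ℝ) ^ (2 * d) * Real.exp (-(Z : ℝ)) +
        (L : ℝ) ^ (2 * d) * (1 / 2) ^ ((Z - 1) / 2 / C₁)) +
      K * (L : ℝ) ^ (2 * d) * (Z + 1) * ((2 * Z ^ m₁ + 1 : ℕ) : ℝ) ^ d *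
        (((2 * Z ^ m₁ + 1 : ℕ) : ℝ) ^ d * ((Z + 2) * κ)) ^ Z ≤
        (5 * C₁ + 1) * (1 / (L : ℝ) ^ d) := by
  set Z₀ : ℕ := 18 * 3 ^ d * C₁ + C₁ + C₃ with hZ₀
  set m₂ : ℕ := 2 * d * m₁ + m₁ + 4 with hm₂
  set C₂ : ℕ := 100 * d * C₁ with hC₂
  set M : ℕ := ⌈Real.exp (d * (C₂ + 1))⌉₊ with hM
  refine ⟨2 * m₂ + (Z₀ + 1) ^ m₂ + M, ?_⟩
  intro L K _ w hmK hKL hlogK hw0 hw1 hwK
  have hLpos : 1 ≤ L := Nat.pos_of_ne_zero (NeZero.ne L)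
  have hLr : (0 : ℝ) < L := by exact_mod_cast hLpos
  have hC₁' : (1 : ℝ) ≤ C₁ := by exact_mod_cast hC₁
  have hd' : (3 : ℝ) ≤ d := by exact_mod_cast hd
  have p3d : 27 ≤ 3 ^ d := by
    calc 27 = 3 ^ 3 := by norm_num
      _ ≤ 3 ^ d := Nat.pow_le_pow_right (by norm_num) hd
  have hZ₀C : C₁ + C₃ ≤ Z₀ := by
    rw [hZ₀]; omega
  have hZ₀3 : 18 * 3 ^ d ≤ Z₀ := by
    have : 18 * 3 ^ d ≤ 18 * 3 ^ d * C₁ := Nat.le_mul_of_pos_right _ hC₁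
    omega
  -- the logarithm
  set ℓ := Real.log L with hℓ
  have hKpos : 1 ≤ K := by
    have : 1 ≤ (Z₀ + 1) ^ m₂ := Nat.one_le_pow _ _ (by omega)
    omega
  have hKr : (1 : ℝ) ≤ K := by exact_mod_cast hKpos
  have hℓC : (C₂ : ℝ) + 1 ≤ ℓ := by
    have h1 : Real.exp (d * (C₂ + 1)) ≤ (L : ℝ) ^ d := by
      have h2 : Real.exp (d * (C₂ + 1)) ≤ M := Nat.le_ceil _
      have h3 : (M : ℝ) ≤ K := by exact_mod_cast (by omega : M ≤ K)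
      have h4 : (K : ℝ) ≤ (L : ℝ) ^ d := by exact_mod_cast hKL
      linarith
    rw [pow_exp hLpos, Real.exp_le_exp] at h1
    have : (0 : ℝ) < d := by linarith
    exact le_of_mul_le_mul_left h1 this
  have hC₂r : (300 : ℝ) ≤ C₂ := by
    rw [hC₂]; push_cast
    nlinarith
  have hℓ1 : 1 ≤ ℓ := by linarith
  have hL64 : 64 ≤ L := by
    have h1 : ℓ + 1 ≤ Real.exp ℓ := Real.add_one_le_exp ℓ
    rw [hℓ, Real.exp_log hLr, ← hℓ] at h1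
    have h2 : (64 : ℝ) ≤ L := by linarith
    exact_mod_cast h2
  -- the number Z
  obtain ⟨Z, hZ1, hZ2⟩ := exists_root m₂ K (by omega)
  have hZZ₀ : Z₀ ≤ Z := by
    have h1 : (Z₀ + 1) ^ m₂ < (Z + 1) ^ m₂ := by omega
    have h2 := lt_of_pow_lt_pow_left₀ m₂ (Nat.zero_le _) h1
    omega
  have hZℓ : (C₂ : ℝ) * ℓ ≤ Z := by
    have h1 : (ℓ ^ 2) ^ m₂ < ((Z : ℝ) + 1) ^ m₂ := by
      have h2 : (ℓ ^ 2) ^ m₂ ≤ ℓ ^ (2 * m₂ + (Z₀ + 1) ^ m₂ + M) := by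
        rw [← pow_mul]
        exact pow_le_pow_right₀ hℓ1 (by omega)
      have h3 : (K : ℝ) < ((Z : ℝ) + 1) ^ m₂ := by exact_mod_cast hZ2
      linarith
    have h4 : ℓ ^ 2 < (Z : ℝ) + 1 := lt_of_pow_lt_pow_left₀ m₂ (by positivity) h1
    nlinarith
  have hZpos : 1 ≤ Z := by omega
  have hZr : (1 : ℝ) ≤ Z := by exact_mod_cast hZpos
  -- powers of Z
  have hroot : Z ^ (2 * m₁) ≤ L := by
    have h1 : (Z ^ (2 * m₁)) ^ d ≤ L ^ d := by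
      rw [← pow_mul]
      refine le_trans ?_ (hZ1.trans hKL)
      refine Nat.pow_le_pow_right hZpos ?_
      rw [hm₂]
      have : 2 * m₁ * d = 2 * d * m₁ := by ring
      omega
    exact le_of_pow_le_pow_left₀ (by omega) (Nat.zero_le _) h1
  have hZL : 8 * Z ^ m₁ ≤ L := by
    have h1 : (Z ^ m₁) ^ 2 ≤ L := by rw [← pow_mul, Nat.mul_comm]; exact hroot
    by_contra hcon
    push Not at hcon
    have h2 : L * L < (8 * Z ^ m₁) * (8 * Z ^ m₁) := Nat.mul_lt_mul'' hcon hcon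
    nlinarith
  have hZK : Z ^ m₁ ≤ K := (Nat.pow_le_pow_right hZpos (by omega)).trans hZ1
  have hZ4K : Z ^ 4 ≤ K := (Nat.pow_le_pow_right hZpos (by omega)).trans hZ1
  set r := Z ^ m₁ with hr
  have hr1 : 1 ≤ r := Nat.one_le_pow _ _ hZpos
  have hLZ : (L : ℝ) ^ d ≤ Real.exp Z := by
    rw [pow_exp hLpos, Real.exp_le_exp, ← hℓ]
    refine le_trans ?_ hZℓ
    refine mul_le_mul_of_nonneg_right ?_ (by linarith)
    rw [hC₂]; push_cast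
    nlinarith
  refine ⟨Z, hZ₀C.trans hZZ₀, hZpos, hLZ, hZL, hZK, hZ4K, by omega, ?_⟩
  intro κ hκ
  -- kappa
  have h1w : 0 < 1 - w := by linarith
  have hLd : (0 : ℝ) < (L : ℝ) ^ d := by positivity
  have hκ0 : 0 ≤ κ := by
    rw [hκ]
    have : 0 ≤ (K : ℝ) ^ (-(d / 2 : ℝ)) := Real.rpow_nonneg (by linarith) _
    positivity
  have hKd : (K : ℝ) ^ (-(d / 2 : ℝ)) ≤ 1 / K := by
    rw [one_div, ← Real.rpow_neg_one]
    refine Real.rpow_le_rpow_of_exponent_le hKr ?_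
    linarith
  have hκK : κ * K ≤ 3 * C₁ := by
    have h1 : κ ≤ C₁ * (1 / K + 2 / K) := by
      rw [hκ]
      exact mul_le_mul_of_nonneg_left (add_le_add hKd hwK) (by linarith)
    have h2 : C₁ * (1 / (K : ℝ) + 2 / K) * K = 3 * C₁ := by field_simp; ring
    calc κ * K ≤ C₁ * (1 / K + 2 / K) * K := mul_le_mul_of_nonneg_right h1 (by linarith)
      _ = 3 * C₁ := h2
  have hZ4 : (Z : ℝ) ^ (d * m₁ + 4) ≤ K := by
    have : Z ^ (d * m₁ + 4) ≤ K := by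
      refine (Nat.pow_le_pow_right hZpos ?_).trans hZ1
      rw [hm₂]
      nlinarith
    exact_mod_cast this
  have hκ1 : κ * ((Z : ℝ) ^ (d * m₁) * Z ^ 4) ≤ 3 * C₁ := by
    rw [← pow_add]
    exact (mul_le_mul_of_nonneg_left hZ4 hκ0).trans hκK
  have hZbig : 18 * (3 : ℝ) ^ d * C₁ ≤ Z := by
    have : ((18 * 3 ^ d * C₁ : ℕ) : ℝ) ≤ Z := by
      have : 18 * 3 ^ d * C₁ ≤ Z := by omega
      exact_mod_cast this
    push_cast at this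
    exact this
  have p3d' : (27 : ℝ) ≤ 3 ^ d := by exact_mod_cast p3d
  have hr2 : ((2 * r + 1 : ℕ) : ℝ) ^ d ≤ 3 ^ d * (Z : ℝ) ^ (d * m₁) := by
    have h1 : ((2 * r + 1 : ℕ) : ℝ) ≤ 3 * (Z : ℝ) ^ m₁ := by
      have h2 : 2 * r + 1 ≤ 3 * Z ^ m₁ := by rw [← hr]; omega
      exact_mod_cast h2
    calc ((2 * r + 1 : ℕ) : ℝ) ^ d ≤ (3 * (Z : ℝ) ^ m₁) ^ d := pow_le_pow_left₀ (by positivity) h1 d
      _ = 3 ^ d * (Z : ℝ) ^ (d * m₁) := by rw [mul_pow, ← pow_mul, Nat.mul_comm]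
  have hZP : (0 : ℝ) < (Z : ℝ) ^ (d * m₁) := by positivity
  have hkey : ((2 * r + 1 : ℕ) : ℝ) ^ d * ((Z + 2) * κ) ≤ Real.exp (-1) := by
    have h1 : ((2 * r + 1 : ℕ) : ℝ) ^ d * ((Z + 2) * κ) ≤
        3 ^ d * (Z : ℝ) ^ (d * m₁) * ((3 * Z) * κ) := by
      refine mul_le_mul hr2 (mul_le_mul_of_nonneg_right (by linarith) hκ0) (by positivity)
        (by positivity)
    have h2 : 3 ^ d * (Z : ℝ) ^ (d * m₁) * ((3 * Z) * κ) * Z ^ 3 ≤ 9 * 3 ^ d * C₁ := by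
      have e1 : 3 ^ d * (Z : ℝ) ^ (d * m₁) * ((3 * Z) * κ) * Z ^ 3 =
          3 * 3 ^ d * (κ * ((Z : ℝ) ^ (d * m₁) * Z ^ 4)) := by ring
      rw [e1]
      have := mul_le_mul_of_nonneg_left hκ1 (by positivity : (0 : ℝ) ≤ 3 * 3 ^ d)
      linarith
    have h3 : Real.exp (-1) ≥ 1 / 3 := by
      rw [Real.exp_neg, ge_iff_le, one_div]
      refine inv_anti₀ (Real.exp_pos 1) ?_
      have := Real.exp_one_lt_d9
      linarith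
    have h4 : 2 * (Z : ℝ) ≤ Z ^ 3 := by
      have : (2 : ℝ) ≤ Z := by nlinarith
      nlinarith [mul_le_mul this this (by norm_num) (by linarith)]
    have h5 : 3 ^ d * (Z : ℝ) ^ (d * m₁) * ((3 * Z) * κ) * (2 * Z) ≤ 9 * 3 ^ d * C₁ := by
      refine le_trans ?_ h2
      exact mul_le_mul_of_nonneg_left h4 (by positivity)
    have h6 : 3 ^ d * (Z : ℝ) ^ (d * m₁) * ((3 * Z) * κ) ≤ 1 / 4 := by
      by_contra hcon
      push Not at hcon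
      have h7 : 1 / 4 * (2 * (Z : ℝ)) < 3 ^ d * (Z : ℝ) ^ (d * m₁) * ((3 * Z) * κ) * (2 * Z) :=
        mul_lt_mul_of_pos_right hcon (by linarith)
      linarith
    linarith
  have hκZ : ((Z : ℝ) + 2) * κ ≤ 1 := by
    have h1 : 1 ≤ ((2 * r + 1 : ℕ) : ℝ) ^ d := one_le_pow₀ (by
      have : 1 ≤ 2 * r + 1 := by omega
      exact_mod_cast this)
    have h2 : Real.exp (-1) ≤ 1 := Real.exp_le_one_iff.2 (by norm_num)
    have h3 : 0 ≤ ((Z : ℝ) + 2) * κ := by positivity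
    nlinarith
  have hrL : (Z + 1) * (2 * r + 1) ^ d ≤ L ^ d := by
    have h1 : 2 * r + 1 ≤ 3 * Z ^ m₁ := by rw [← hr]; omega
    have h2 : (2 * r + 1) ^ d ≤ 3 ^ d * Z ^ (m₁ * d) := by
      rw [pow_mul, ← mul_pow]
      exact Nat.pow_le_pow_left h1 d
    have h3 : 2 * 3 ^ d ≤ Z := by omega
    calc (Z + 1) * (2 * r + 1) ^ d ≤ (2 * Z) * (3 ^ d * Z ^ (m₁ * d)) :=
          Nat.mul_le_mul (by omega) h2
      _ = (2 * 3 ^ d) * (Z * Z ^ (m₁ * d)) := by ring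
      _ ≤ Z * (Z * Z ^ (m₁ * d)) := Nat.mul_le_mul_right _ h3
      _ = Z ^ (m₁ * d + 2) := by ring
      _ ≤ Z ^ m₂ := by
          refine Nat.pow_le_pow_right hZpos ?_
          rw [hm₂]
          nlinarith
      _ ≤ K := hZ1
      _ ≤ L ^ d := hKL
  exact ⟨hκZ, fail_bound (d := d) (C₁ := C₁) (L := L) (K := K) (Z := Z) (r := r) (κ := κ)
    (by omega) hC₁ hLpos (by rw [hC₂] at hZℓ; push_cast at hZℓ; exact hZℓ) hKL hrL hκ0 hkey⟩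

end Pool.Agent.H961.T2
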