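import Pool.Agent.H961.T2.B6
import Pool.Agent.H961.T2.B7
import Pool.Graph.R_pool_sql_team_seeded_3997aac3.Q292.LC.FinT
import Pool.Graph.R_pool_sql_team_seeded_3997aac3.Q154.LC.Gdm

/-!
# The generating function of the cycle length, for circuits
-/

set_option autoImplicit false
set_option linter.unusedSectionVars false
set_option linter.unusedVariables false

namespace Pool.Agent.H961.T2

open Finset Equiv Matrix Q292.LC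

theorem beta_bound (d L K Z : ℕ) (hd : 3 ≤ d) (hK1 : 1 ≤ K) (hL1 : 1 ≤ L) (hKL : K ≤ L ^ 2)
    (hZ : Z ^ 4 ≤ K) :
    ((K : ℝ) ^ (-(d / 2 : ℝ)) + 1 / (L : ℝ) ^ d) * (Z * K) ≤ 2 * (K : ℝ) ^ (-(1 / 4) : ℝ) := by
  have hK : (1 : ℝ) ≤ K := by exact_mod_cast hK1
  have hK0 : (0 : ℝ) < K := by linarith
  have hL0 : (0 : ℝ) < L := by exact_mod_cast hL1
  have hd3 : (3 : ℝ) ≤ d := by exact_mod_cast hd
  have h1 : 1 / (L : ℝ) ^ d ≤ (K : ℝ) ^ (-(d / 2 : ℝ)) := by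
    rw [Real.rpow_neg hK0.le, one_div]
    refine inv_anti₀ (Real.rpow_pos_of_pos hK0 _) ?_
    have e1 : (K : ℝ) ≤ (L : ℝ) ^ 2 := by exact_mod_cast hKL
    calc (K : ℝ) ^ (d / 2 : ℝ) ≤ ((L : ℝ) ^ 2) ^ (d / 2 : ℝ) :=
          Real.rpow_le_rpow hK0.le e1 (by positivity)
      _ = (L : ℝ) ^ d := by
          rw [← Real.rpow_natCast, ← Real.rpow_mul hL0.le, ← Real.rpow_natCast]
          congr 1
          push_cast
          ring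
  have h2 : (Z : ℝ) ≤ (K : ℝ) ^ (1 / 4 : ℝ) := by
    have e1 : ((Z : ℝ) ^ 4) ≤ K := by exact_mod_cast hZ
    have e2 : (Z : ℝ) = ((Z : ℝ) ^ 4) ^ (1 / 4 : ℝ) := by
      rw [← Real.rpow_natCast, ← Real.rpow_mul (Nat.cast_nonneg _)]
      norm_num
    rw [e2]
    exact Real.rpow_le_rpow (by positivity) e1 (by norm_num)
  have h3 : (K : ℝ) ^ (-(d / 2 : ℝ)) ≤ (K : ℝ) ^ (-(3 / 2) : ℝ) :=
    Real.rpow_le_rpow_of_exponent_le hK (by linarith)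
  have h4 : (K : ℝ) ^ (-(d / 2 : ℝ)) + 1 / (L : ℝ) ^ d ≤ 2 * (K : ℝ) ^ (-(3 / 2) : ℝ) := by
    linarith
  have h5 : (Z : ℝ) * K ≤ (K : ℝ) ^ (1 / 4 : ℝ) * K := mul_le_mul_of_nonneg_right h2 hK0.le
  have h6 : 0 ≤ (Z : ℝ) * K := by positivity
  calc ((K : ℝ) ^ (-(d / 2 : ℝ)) + 1 / (L : ℝ) ^ d) * (Z * K) ≤
        (2 * (K : ℝ) ^ (-(3 / 2) : ℝ)) * ((K : ℝ) ^ (1 / 4 : ℝ) * K) :=
        mul_le_mul h4 h5 h6 (by positivity)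
    _ = 2 * ((K : ℝ) ^ (-(3 / 2) : ℝ) * (K : ℝ) ^ (1 / 4 : ℝ) * (K : ℝ) ^ (1 : ℝ)) := by
        rw [Real.rpow_one]
        ring
    _ = 2 * (K : ℝ) ^ (-(1 / 4) : ℝ) := by
        rw [← Real.rpow_add hK0, ← Real.rpow_add hK0]
        norm_num

theorem comb (S S' α β β' C1 C2 : ℝ) (h1 : S ≤ S' + C1) (hS' : 0 ≤ S') (h2 : (1 - β) * S' ≤ α)
    (hβ : β ≤ β') (hβ' : β' ≤ 1 / 2) (hC : C1 ≤ C2) : (1 - β') * (S - C2) ≤ α := by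
  have e1 : (1 - β') * S' ≤ (1 - β) * S' := mul_le_mul_of_nonneg_right (by linarith) hS'
  have e2 : (1 - β') * (S - C2) ≤ (1 - β') * S' :=
    mul_le_mul_of_nonneg_left (by linarith) (by linarith)
  linarith

open Classical in
theorem tlc2 (d : ℕ) (hd : 3 ≤ d) : ∃ (C : ℝ) (m : ℕ), 1 ≤ C ∧ ∀ (L K : ℕ) [NeZero L] (w : ℝ),
    m ≤ K → K ≤ L ^ 2 → (Real.log L) ^ m ≤ K → 0 ≤ w → w < 1 →
    1 / ((L : ℝ) ^ d * (1 - w)) ≤ 2 / K → ∀ k0 : ℕ,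
    C * (k0 : ℝ) ^ 2 * (K : ℝ) ^ (-(1 / 4) : ℝ) ≤ 1 / 2 →
    ∃ q₀ : ℕ, ∀ q ≥ q₀, ∀ σ : ℕ → (Fin d → ZMod L) × Fin d, Per σ → ∀ δ : ℝ,
    1 ≤ δ * q → δ * q ≤ 2 →
    (1 - C * (k0 : ℝ) ^ 2 * (K : ℝ) ^ (-(1 / 4) : ℝ)) *
      ((∑ x, EE (K * (q * ms d L)) δ (fun ω =>
        w ^ (cyc (gp (ed ∘ σ) ω (K * (q * ms d L))) x).card)) - C) ≤
      ∑ k ∈ range k0, w ^ (k + 1) * (PP (ed ∘ σ) δ (K * (q * ms d L)) ^ (k + 1)).trace +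
        C * (1 / (1 - w) + (L : ℝ) ^ d * (K : ℝ) ^ (-(d / 2 : ℝ)) * rr d k0) := by
  obtain ⟨C₁, m₁, hC₁, hB⟩ := all_btl d hd
  obtain ⟨C₂, m₂, hC₂, hE⟩ := env_sum d hd
  obtain ⟨mm, hmm⟩ : ∃ mm : ℕ, mm = m₁ + m₂ + 2 := ⟨_, rfl⟩
  obtain ⟨m, hpar⟩ := params d C₁ C₂ mm hd hC₁
  refine ⟨2 * C₂ + 5 * C₁ + 1, m + 1, ?_, ?_⟩
  · have h1 : (1 : ℝ) ≤ C₁ := by exact_mod_cast hC₁
    have h2 : (0 : ℝ) ≤ C₂ := Nat.cast_nonneg _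
    linarith
  intro L K _ w hmK hKL hlog hw0 hw1 hwK k0 hk0
  have hLpos : 1 ≤ L := Nat.pos_of_ne_zero (NeZero.ne L)
  have hKLd : K ≤ L ^ d := hKL.trans (Nat.pow_le_pow_right hLpos (by omega))
  have hK1 : 1 ≤ K := by omega
  have hK1r : (1 : ℝ) ≤ K := by exact_mod_cast hK1
  have hlog' : (Real.log L) ^ m ≤ K := by
    rcases le_total (Real.log L) 1 with h | h
    · exact (pow_le_one₀ (Real.log_natCast_nonneg L) h).trans hK1r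
    · exact (pow_le_pow_right₀ h (by omega)).trans hlog
  obtain ⟨Z, z1, z2, z3, z4, z5, z6, z7, z8⟩ := hpar L K w (by omega) hKLd hlog' hw0 hw1 hwK
  obtain ⟨κ, hκ⟩ : ∃ κ : ℝ, κ = C₁ * ((K : ℝ) ^ (-(d / 2 : ℝ)) +
    1 / ((L : ℝ) ^ d * (1 - w))) := ⟨_, rfl⟩
  obtain ⟨z9, z10⟩ := z8 κ hκ
  have w1 : Z ^ m₁ ≤ Z ^ mm := Nat.pow_le_pow_right z2 (by omega)
  have w2 : Z ^ m₂ + Z ≤ Z ^ mm := by
    have hZ3 : 3 ≤ Z := by omega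
    have e1 : 1 ≤ Z ^ m₂ := Nat.one_le_pow _ _ z2
    have e2 : Z ^ (m₂ + 2) ≤ Z ^ mm := Nat.pow_le_pow_right z2 (by omega)
    have e3 : Z ^ (m₂ + 2) = Z * (Z * Z ^ m₂) := by ring
    have e4 : Z ^ m₂ ≤ Z * Z ^ m₂ := Nat.le_mul_of_pos_left _ (by omega)
    have e5 : Z ≤ Z * Z ^ m₂ := Nat.le_mul_of_pos_right _ (by omega)
    have e6 : 2 * (Z * Z ^ m₂) ≤ Z * (Z * Z ^ m₂) := Nat.mul_le_mul_right _ (by omega)
    omega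
  obtain ⟨q1, hq1⟩ := hB Z (by omega) L K Z (Z ^ mm) Z ((Z - 1) / 2) le_rfl le_rfl (by omega) z3
    w1 (by omega) (by omega) hKLd
  obtain ⟨q2, hq2⟩ := hE Z (by omega) L K Z (Z ^ mm - Z) Z (2 * ((Z - 1) / 2) + 1) le_rfl le_rfl
    (by omega) z3 (by omega) (by omega) (by omega)
  refine ⟨q1 + q2 + 2, fun q hq σ hσ δ h1 h2 => ?_⟩
  have hq' : (2 : ℝ) ≤ q := by
    have : 2 ≤ q := by omega
    exact_mod_cast this
  have hδ0 : 0 ≤ δ := by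
    by_contra hcon
    push Not at hcon
    nlinarith
  have hδ1 : δ ≤ 1 := by nlinarith
  obtain ⟨b1, -⟩ := hq1 q (by omega) σ hσ δ h1 h2 w hw0 hw1 κ hκ z9
  have hfail := b1.trans z10
  -- the good environments
  obtain ⟨G, hG⟩ : ∃ G : (ℕ → Bool) → Finset (Fin d → ZMod L) → Prop, G = fun ω A =>
    Gd σ q K Z (Z ^ mm) Z (2 * ((Z - 1) / 2)) ω A := ⟨_, rfl⟩
  obtain ⟨g1, g2⟩ := Pool.Agent.Q154.LC.gdm d L σ q K Z (Z ^ mm) Z (2 * ((Z - 1) / 2))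
  have hGE : ∀ ω A, G ω A → Ev σ q K Z (Z ^ mm - Z) Z (2 * ((Z - 1) / 2) + 1) ω A := by
    intro ω A h
    rw [hG] at h
    refine Pool.Agent.Q277.LC.ge d L z7 σ hσ q K Z (Z ^ mm - Z) Z (2 * ((Z - 1) / 2)) ω A
      (by omega) hK1 ?_
    have : Z ^ mm - Z + Z = Z ^ mm := by omega
    rw [this]
    exact h
  obtain ⟨X, hX⟩ : ∃ X : ℝ, X = (K : ℝ) ^ (-(d / 2 : ℝ)) := ⟨_, rfl⟩
  obtain ⟨α, hα⟩ : ∃ α : ℝ, α = ∑ k ∈ range k0, w ^ (k + 1) *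
      (PP (ed ∘ σ) δ (K * (q * ms d L)) ^ (k + 1)).trace +
        C₂ * (1 / (1 - w) + (L : ℝ) ^ d * X * rr d k0) := ⟨_, rfl⟩
  obtain ⟨β, hβ⟩ : ∃ β : ℝ, β = (k0 : ℝ) ^ 2 * (C₂ * (X + 1 / (L : ℝ) ^ d) * (Z * K)) :=
    ⟨_, rfl⟩
  have hL0 : (0 : ℝ) < L := by exact_mod_cast hLpos
  have hLd0 : (0 : ℝ) < (L : ℝ) ^ d := pow_pos hL0 d
  have hX0 : 0 ≤ X := by rw [hX]; exact Real.rpow_nonneg (Nat.cast_nonneg _) _
  have h1w : 0 < 1 - w := by linarith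
  have hPB : BS (PP (ed ∘ σ) δ (K * (q * ms d L))) := by
    unfold PP
    have h := Pool.Agent.Q68.LC.bas2 _ (ed ∘ σ) (fun _ => false) ∅ δ hδ0 hδ1
    exact ⟨h.1 _, fun x => (h.2.1 _ x).le, fun y => (h.2.2.1 _ y).le⟩
  have hrest0 : 0 ≤ 1 / (1 - w) + (L : ℝ) ^ d * X * rr d k0 :=
    add_nonneg (div_nonneg zero_le_one h1w.le)
      (mul_nonneg (mul_nonneg hLd0.le hX0) (rr_nonneg d k0))
  have hα0 : 0 ≤ α := by
    rw [hα]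
    refine add_nonneg (sum_nonneg fun k _ => mul_nonneg (pow_nonneg hw0 _) ?_)
      (mul_nonneg (Nat.cast_nonneg _) hrest0)
    unfold Matrix.trace
    exact sum_nonneg fun x _ => (BS_pow hPB (k + 1)).nn x x
  have hβ0 : 0 ≤ β := by
    rw [hβ]
    refine mul_nonneg (sq_nonneg _) (mul_nonneg (mul_nonneg (Nat.cast_nonneg _) ?_) ?_)
    · exact add_nonneg hX0 (div_nonneg zero_le_one hLd0.le)
    · exact mul_nonneg (Nat.cast_nonneg _) (Nat.cast_nonneg _)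
  have hstar := star_sum (ed ∘ σ) (K * (q * ms d L)) δ w G hδ0 hδ1 hw0 hw1
    (by rw [hG]; exact g1) (by rw [hG]; exact g2) α β hα0 hβ0 (by
      intro ω A hGA N
      have := hq2 q (by omega) σ hσ δ h1 h2 w hw0 hw1 k0 ω A (hGE ω A hGA) N
      rw [hα, hβ, hX]
      exact this)
  -- all environments
  have hpw : ∀ x : Fin d → ZMod L, EE (K * (q * ms d L)) δ (fun ω =>
      w ^ (cyc (gp (ed ∘ σ) ω (K * (q * ms d L))) x).card) ≤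
      PW (ed ∘ σ) (K * (q * ms d L)) δ w (fun ω A => x ∈ A ∧ G ω A) +
        (5 * C₁ + 1) * (1 / (L : ℝ) ^ d) := by
    intro x
    have b5 := (Pool.Agent.Q277.LC.peb _ (ed ∘ σ) (K * (q * ms d L)) δ w hδ0 hδ1 hw0
      hw1).2.2.2.2.2 x
    have b6 := Pool.Agent.Q297.LC.PW_split Pool.Agent.Q277.LC.peb (ed ∘ σ) (K * (q * ms d L)) δ w
      hδ0 hδ1 hw0 hw1 (fun _ A => x ∈ A) G
    rw [b5] at b6
    refine b6.trans (add_le_add le_rfl ?_)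
    rw [hG]
    exact hfail
  have hsum : ∑ x : Fin d → ZMod L, EE (K * (q * ms d L)) δ (fun ω =>
      w ^ (cyc (gp (ed ∘ σ) ω (K * (q * ms d L))) x).card) ≤
      ∑ x : Fin d → ZMod L, PW (ed ∘ σ) (K * (q * ms d L)) δ w (fun ω A => x ∈ A ∧ G ω A) +
        (5 * C₁ + 1) := by
    refine (sum_le_sum fun x _ => hpw x).trans (le_of_eq ?_)
    rw [sum_add_distrib, sum_const, card_univ, Fintype.card_fun, ZMod.card, Fintype.card_fin,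
      nsmul_eq_mul]
    push_cast
    field_simp
  have hpos : 0 ≤ ∑ x : Fin d → ZMod L,
      PW (ed ∘ σ) (K * (q * ms d L)) δ w (fun ω A => x ∈ A ∧ G ω A) := by
    refine sum_nonneg fun x _ => ?_
    have hp := Pool.Agent.Q277.LC.peb _ (ed ∘ σ) (K * (q * ms d L)) δ w hδ0 hδ1 hw0 hw1
    have e1 := hp.2.2.2.1 (fun _ _ => 0) (fun ω A => if x ∈ A ∧ G ω A then 1 else 0)
      (fun ω A _ => by
        show (0 : ℝ) ≤ if x ∈ A ∧ G ω A then 1 else 0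
        split_ifs <;> norm_num)
    have e2 := hp.1 (fun _ => 0)
    rw [Pool.Agent.Q68.LC.EE_const] at e2
    have e3 := hp.2.2.2.2.1 (fun ω A => x ∈ A ∧ G ω A)
    rw [e2] at e1
    rw [← e3]
    refine e1.trans (le_of_eq ?_)
    congr 1
    funext ω A
    congr 1
  have hbb := beta_bound d L K Z hd hK1 hLpos hKL z6
  rw [← hX] at hbb ⊢
  have hββ : β ≤ (2 * C₂ + 5 * C₁ + 1) * (k0 : ℝ) ^ 2 * (K : ℝ) ^ (-(1 / 4) : ℝ) := by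
    obtain ⟨Y, hY⟩ : ∃ Y : ℝ, Y = (K : ℝ) ^ (-(1 / 4) : ℝ) := ⟨_, rfl⟩
    rw [← hY] at hbb ⊢
    have hY0 : 0 ≤ Y := by rw [hY]; exact Real.rpow_nonneg (Nat.cast_nonneg _) _
    have hc2 : (0 : ℝ) ≤ C₂ := Nat.cast_nonneg _
    have hc1 : (0 : ℝ) ≤ C₁ := Nat.cast_nonneg _
    have e1 : β = (k0 : ℝ) ^ 2 * C₂ * ((X + 1 / (L : ℝ) ^ d) * (Z * K)) := by
      rw [hβ]
      ring
    have e2 : β ≤ (k0 : ℝ) ^ 2 * C₂ * (2 * Y) := by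
      rw [e1]
      exact mul_le_mul_of_nonneg_left hbb (mul_nonneg (sq_nonneg _) hc2)
    have e3 : 0 ≤ (5 * (C₁ : ℝ) + 1) * ((k0 : ℝ) ^ 2 * Y) :=
      mul_nonneg (by linarith) (mul_nonneg (sq_nonneg _) hY0)
    have e4 : (2 * C₂ + 5 * C₁ + 1) * (k0 : ℝ) ^ 2 * Y =
        (k0 : ℝ) ^ 2 * C₂ * (2 * Y) + (5 * (C₁ : ℝ) + 1) * ((k0 : ℝ) ^ 2 * Y) := by ring
    rw [e4]
    linarith
  have hc2 : (0 : ℝ) ≤ C₂ := Nat.cast_nonneg _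
  have hc1 : (0 : ℝ) ≤ C₁ := Nat.cast_nonneg _
  have hfin := comb _ _ α β _ (5 * C₁ + 1) (2 * C₂ + 5 * C₁ + 1) hsum hpos hstar hββ hk0
    (by linarith)
  refine hfin.trans ?_
  rw [hα]
  refine add_le_add le_rfl ?_
  exact mul_le_mul_of_nonneg_right (by linarith) hrest0

end Pool.Agent.H961.T2
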