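import Pool.Agent.H961.T2.B12

/-!
# The empirical law of the lengths of the short cycles
-/

set_option autoImplicit false
set_option linter.unusedSectionVars false
set_option linter.unusedVariables false

namespace Pool.Agent.H961.T2

open Finset Equiv Matrix Q292.LC
open Pool.Agent.Y998.ST (stirExp nnRate qq stirLaw totalRate hop cycleLen gk)
open Pool.Agent.Helper47K9.SC (hop_diag ret_asy as1 lln fmA tup vl exp_aff)
open Pool.Agent.Q297.LC (stir_smul card_cyc)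

/-- fraction of the sites in cycles of length `ℓ` -/
noncomputable def frac {d L : ℕ} [NeZero L] (g : Perm (Fin d → ZMod L)) (ℓ : ℕ) : ℝ :=
  ((univ.filter fun x => cycleLen g x = ℓ).card : ℝ) / (L : ℝ) ^ d

section gen

variable {V : Type} [Fintype V] [DecidableEq V]

theorem abs_of_sq {J : V → V → ℝ} (hJ : ∀ x y, 0 ≤ J x y) {t : ℝ} (ht : 0 ≤ t)
    (F : Perm V → ℝ) (e : ℝ) (he : 0 < e) (h : stirExp J t (fun g => F g ^ 2) ≤ e ^ 2) :
    stirExp J t (fun g => |F g|) ≤ e := by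
  have h1 : ∀ g, |F g| ≤ 1 / (2 * e) * F g ^ 2 + e / 2 := by
    intro g
    rw [← sq_abs (F g)]
    have h0 := abs_nonneg (F g)
    have h2 : 0 ≤ (|F g| - e) ^ 2 := sq_nonneg _
    have h3 : 1 / (2 * e) * |F g| ^ 2 + e / 2 = (|F g| ^ 2 + e ^ 2) / (2 * e) := by
      field_simp
    rw [h3, le_div_iff₀ (by linarith)]
    nlinarith
  have h2 := Pool.Agent.Y998.ST.exp_mono hJ ht h1
  rw [exp_aff] at h2
  have h3 : 1 / (2 * e) * stirExp J t (fun g => F g ^ 2) ≤ 1 / (2 * e) * e ^ 2 :=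
    mul_le_mul_of_nonneg_left h (by positivity)
  have h4 : 1 / (2 * e) * e ^ 2 = e / 2 := by field_simp
  linarith

theorem exp_add2 (J : V → V → ℝ) (t : ℝ) (F G : Perm V → ℝ) :
    stirExp J t (fun g => F g + G g) = stirExp J t F + stirExp J t G := by
  unfold stirExp
  rw [← sum_add_distrib]
  exact sum_congr rfl fun g _ => by ring

end gen

section torus

variable {d L : ℕ} [NeZero L]

theorem frac_nonneg (g : Perm (Fin d → ZMod L)) (ℓ : ℕ) : 0 ≤ frac g ℓ := by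
  unfold frac
  positivity

theorem frac_num (g : Perm (Fin d → ZMod L)) (ℓ : ℕ) (hℓ : 1 ≤ ℓ) :
    frac g ℓ = ℓ * (g.partition.parts.count ℓ : ℝ) / (L : ℝ) ^ d := by
  have h := vl (Fin d → ZMod L) g ℓ hℓ
  unfold frac
  have h5 : (univ.filter fun w : Fin d → ZMod L => cycleLen g w = ℓ).card =
      ℓ * g.partition.parts.count ℓ := by
    convert h
    rfl
  rw [h5]
  push_cast
  rfl

theorem sum_frac (g : Perm (Fin d → ZMod L)) (n : ℕ) :
    ∑ ℓ ∈ Icc 1 n, frac g ℓ =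
      ((univ.filter fun x => cycleLen g x ≤ n).card : ℝ) / (L : ℝ) ^ d := by
  unfold frac
  rw [← sum_div]
  congr 1
  have h1 : (univ.filter fun x : Fin d → ZMod L => cycleLen g x ≤ n).card =
      ∑ ℓ ∈ Icc 1 n, (univ.filter fun x : Fin d → ZMod L => cycleLen g x = ℓ).card := by
    rw [card_eq_sum_card_fiberwise (f := fun x => cycleLen g x) (t := Icc 1 n)]
    · refine sum_congr rfl fun ℓ hℓ => ?_
      congr 1
      ext x
      simp only [mem_filter, mem_univ, true_and]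
      constructor
      · rintro ⟨_, h⟩
        exact h
      · intro h
        rw [h]
        exact ⟨(mem_Icc.1 hℓ).2, rfl⟩
    · intro x hx
      simp only [coe_filter, mem_univ, true_and, Set.mem_ofPred_eq] at hx
      rw [coe_Icc, Set.mem_Icc]
      refine ⟨?_, hx⟩
      show 1 ≤ cycleLen g x
      rw [← card_cyc]
      exact card_pos.2 ⟨x, Pool.Agent.Q153.LC.self_mem_cyc g x⟩
  rw [h1]
  push_cast
  rfl

theorem exp_frac_le (t : ℝ) (n : ℕ) (x : Fin d → ZMod L) :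
    stirExp (nnRate d L) t (fun g =>
      ((univ.filter fun y => cycleLen g y ≤ n).card : ℝ) / (L : ℝ) ^ d) =
    stirExp (nnRate d L) t (fun g => if (cyc g x).card ≤ n then 1 else 0) := by
  have hL0 : (0 : ℝ) < L := by exact_mod_cast Nat.pos_of_ne_zero (NeZero.ne L)
  have hN0 : (0 : ℝ) < (L : ℝ) ^ d := pow_pos hL0 d
  have h1 : ∀ g : Perm (Fin d → ZMod L), ((univ.filter fun y => cycleLen g y ≤ n).card : ℝ) /
      (L : ℝ) ^ d = 1 / (L : ℝ) ^ d * ∑ y, (if (cyc g y).card ≤ n then (1 : ℝ) else 0) := by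
    intro g
    rw [Finset.sum_boole, one_div, mul_comm, div_eq_mul_inv]
    simp only [card_cyc]
  simp only [h1]
  rw [stir_smul, ← Pool.Agent.Y998.ST.exp_sum]
  have h2 : ∀ y ∈ (univ : Finset (Fin d → ZMod L)),
      stirExp (nnRate d L) t (fun g => if (cyc g y).card ≤ n then (1 : ℝ) else 0) =
      stirExp (nnRate d L) t (fun g => if (cyc g x).card ≤ n then 1 else 0) := fun y _ => by
    rw [cyc_trans2 t (fun k => if k ≤ n then 1 else 0) y,
      cyc_trans2 t (fun k => if k ≤ n then 1 else 0) x]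
  rw [sum_congr rfl h2, sum_const, card_univ, Fintype.card_fun, ZMod.card, Fintype.card_fin,
    nsmul_eq_mul]
  push_cast
  field_simp

end torus

theorem len_one (d : ℕ) (hd : 1 ≤ d) (ℓ : ℕ) (hℓ : 1 ≤ ℓ) (e : ℝ) (he : 0 < e) :
    ∃ T : ℝ, 0 < T ∧ ∀ (L : ℕ) [NeZero L], 3 ≤ L → ∀ t : ℝ, T ≤ t → T * t ≤ (L : ℝ) ^ 2 →
    stirExp (nnRate d L) t (fun g => |(4 * Real.pi * t) ^ (d / 2 : ℝ) * frac g ℓ -
      (ℓ : ℝ) ^ (-(d / 2 : ℝ))|) ≤ e := by
  obtain ⟨T, hT, h⟩ := lln fmA tup vl as1 d hd ℓ hℓ (e ^ 2) (by positivity)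
  refine ⟨T, by linarith, ?_⟩
  intro L _ hL t ht htL
  have ht0 : 0 < t := by linarith
  have hℓ0 : (0 : ℝ) < ℓ := by exact_mod_cast hℓ
  have hℓ1 : (1 : ℝ) ≤ ℓ := by exact_mod_cast hℓ
  have hpi := Real.pi_pos
  have h2 := (h L hL t ht htL 0).2
  have hs : Real.sqrt (4 * Real.pi * (ℓ * t)) ^ d =
      (ℓ : ℝ) ^ (d / 2 : ℝ) * (4 * Real.pi * t) ^ (d / 2 : ℝ) := by
    rw [sqrt_pow_rpow d _ (by positivity), ← Real.mul_rpow hℓ0.le (by positivity)]
    congr 1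
    ring
  obtain ⟨Q, hQ⟩ : ∃ Q : ℝ, Q = (4 * Real.pi * t) ^ (d / 2 : ℝ) := ⟨_, rfl⟩
  obtain ⟨a, ha⟩ : ∃ a : ℝ, a = (ℓ : ℝ) ^ (d / 2 : ℝ) := ⟨_, rfl⟩
  have ha1 : 1 ≤ a := by
    rw [ha]
    exact Real.one_le_rpow hℓ1 (by positivity)
  have ha0 : 0 < a := by linarith
  have hb : (ℓ : ℝ) ^ (-(d / 2 : ℝ)) = a⁻¹ := by rw [ha, Real.rpow_neg hℓ0.le]
  rw [← hQ, ← ha] at hs
  rw [← hQ, hb]
  have h3 : ∀ g : Perm (Fin d → ZMod L), (ℓ * Real.sqrt (4 * Real.pi * (ℓ * t)) ^ d /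
      (L : ℝ) ^ d * (g.partition.parts.count ℓ : ℝ) - 1) ^ 2 = (a * (Q * frac g ℓ) - 1) ^ 2 := by
    intro g
    rw [hs, frac_num g ℓ hℓ]
    congr 1
    ring
  have h4 : stirExp (nnRate d L) t (fun g => (a * (Q * frac g ℓ) - 1) ^ 2) ≤ e ^ 2 := by
    refine le_trans (le_of_eq ?_) h2
    congr 1
    funext g
    rw [← h3 g]
    rfl
  have h5 := abs_of_sq (J := nnRate d L) Pool.Agent.Y998.ST.nn_nonneg ht0.le _ e he h4
  refine le_trans (Pool.Agent.Y998.ST.exp_mono (J := nnRate d L) Pool.Agent.Y998.ST.nn_nonneg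
    ht0.le fun g => ?_) h5
  have h6 : Q * frac g ℓ - a⁻¹ = a⁻¹ * (a * (Q * frac g ℓ) - 1) := by
    field_simp
  rw [h6, abs_mul, abs_of_pos (inv_pos.2 ha0)]
  exact mul_le_of_le_one_left (abs_nonneg _) (inv_le_one_of_one_le₀ ha1)

theorem len_all (d : ℕ) (hd : 1 ≤ d) (k0 : ℕ) (e : ℝ) (he : 0 < e) :
    ∃ T : ℝ, 0 < T ∧ ∀ (L : ℕ) [NeZero L], 3 ≤ L → ∀ t : ℝ, T ≤ t → T * t ≤ (L : ℝ) ^ 2 →
    ∀ ℓ, 1 ≤ ℓ → ℓ ≤ k0 →
    stirExp (nnRate d L) t (fun g => |(4 * Real.pi * t) ^ (d / 2 : ℝ) * frac g ℓ -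
      (ℓ : ℝ) ^ (-(d / 2 : ℝ))|) ≤ e := by
  induction k0 with
  | zero => exact ⟨1, one_pos, fun L _ _ t _ _ ℓ h1 h2 => by omega⟩
  | succ k0 ih =>
    obtain ⟨T, hT, h⟩ := ih
    obtain ⟨T', hT', h'⟩ := len_one d hd (k0 + 1) (by omega) e he
    refine ⟨max T T', lt_max_of_lt_left hT, ?_⟩
    intro L _ hL t ht htL ℓ h1 h2
    have ht0 : 0 < t := hT.trans_le ((le_max_left _ _).trans ht)
    have e1 : T * t ≤ (L : ℝ) ^ 2 :=
      (mul_le_mul_of_nonneg_right (le_max_left _ _) ht0.le).trans htL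
    have e2 : T' * t ≤ (L : ℝ) ^ 2 :=
      (mul_le_mul_of_nonneg_right (le_max_right _ _) ht0.le).trans htL
    rcases Nat.lt_or_ge k0 ℓ with hk | hk
    · have : ℓ = k0 + 1 := by omega
      subst this
      exact h' L hL t ((le_max_right _ _).trans ht) e2
    · exact h L hL t ((le_max_left _ _).trans ht) e1 ℓ h1 hk

/-- partial sums of the zeta series -/
theorem rr_split (d : ℕ) (hd : 3 ≤ d) (k : ℕ) :
    rr d 0 = ∑ ℓ ∈ Icc 1 k, (ℓ : ℝ) ^ (-(d / 2 : ℝ)) + rr d k := by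
  have h1 := (rr_summable d 0 hd).sum_add_tsum_nat_add k
  have h2 : ∑ ℓ ∈ Icc 1 k, (ℓ : ℝ) ^ (-(d / 2 : ℝ)) =
      ∑ i ∈ range k, ((i : ℝ) + ((0 : ℕ) : ℝ) + 1) ^ (-(d / 2 : ℝ)) := by
    rw [range_eq_Ico, Finset.sum_Ico_eq_sum_range]
    rw [show Icc 1 k = Ico 1 (k + 1) by ext; simp, Finset.sum_Ico_eq_sum_range]
    simp only [Nat.add_sub_cancel, Nat.sub_zero, Nat.zero_add]
    refine sum_congr rfl fun i _ => ?_
    push_cast
    congr 1
    ring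
  unfold rr at *
  rw [h2, ← h1]
  congr 1
  refine tsum_congr fun i => ?_
  push_cast
  congr 1
  ring

end Pool.Agent.H961.T2
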