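import Pool.Graph.R_pool_sql_team_seeded_3997aac3.Q277.LC.Res
import Pool.Graph.R_pool_sql_team_seeded_3997aac3.Q68.LC.Grn

/-!
# Marked cycles: the exact comparison with the walk in the environment of the marked particles
-/

set_option autoImplicit false
set_option linter.unusedSectionVars false
set_option linter.unusedVariables false

namespace Pool.Agent.H961.T2

open Finset Equiv Matrix Q292.LC
open Pool.Agent.Q68.LC (EE_congr EE_const EE_add EE_smul EE_mono EE_succ)

variable {V : Type} [Fintype V] [DecidableEq V]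

/-- diagonal entry of the resolvent, minus one -/
noncomputable def Gx (w : ℝ) (U : Finset V) (T : Matrix V V ℝ) (x : V) : ℝ :=
  dS w (U.erase x) T / dS w U T - 1

theorem disj_cyc (g : Perm V) (A : Finset V) (hA : Inv g A) (x : V) (hx : x ∉ A) :
    Disjoint A (cyc g x) := by
  rw [disjoint_left]
  intro y hy hyc
  exact hx (Pool.Agent.Q153.LC.inv_same g A hA y x hy
    ((Pool.Agent.Q153.LC.mem_cyc g x y).1 hyc).symm)

/-- adding the cycle of a point to an invariant set -/
theorem perm_pair (g : Perm V) (w : ℝ) (A : Finset V) (hA : Inv g A) (x : V) (hx : x ∉ A) :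
    w ^ (A ∪ cyc g x).card * dS w (univ \ (A ∪ cyc g x)) (pm g) =
      w ^ A.card * (dS w ((univ \ A).erase x) (pm g) - dS w (univ \ A) (pm g)) := by
  have hd := disj_cyc g A hA x hx
  have hself : x ∈ cyc g x := Pool.Agent.Q153.LC.self_mem_cyc g x
  rw [card_union_of_disjoint hd, pow_add]
  have h1 : univ \ (A ∪ cyc g x) = (univ \ A) \ cyc g x := by
    ext y
    simp only [mem_sdiff, mem_union, mem_univ, true_and]
    tauto
  have h2 : ((univ \ A).erase x) \ cyc g x = (univ \ A) \ cyc g x := by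
    ext y
    simp only [mem_sdiff, mem_erase, mem_univ, true_and]
    constructor
    · rintro ⟨⟨-, h⟩, h'⟩
      exact ⟨h, h'⟩
    · rintro ⟨h, h'⟩
      exact ⟨⟨fun hyx => h' (hyx ▸ hself), h⟩, h'⟩
  have h3 : dS w ((univ \ A).erase x) (pm g) = dS w ((univ \ A) \ cyc g x) (pm g) := by
    rw [← h2]
    exact Pool.Agent.Q153.LC.dS_sdiff w _ g x (notMem_erase x _) _ subset_rfl
  have h4 : dS w (univ \ A) (pm g) =
      (1 - w ^ (cyc g x).card) * dS w ((univ \ A) \ cyc g x) (pm g) := by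
    refine Pool.Agent.Q153.LC.p4d w _ g x (mem_sdiff.2 ⟨mem_univ _, hx⟩) ?_
    intro y hy
    exact mem_sdiff.2 ⟨mem_univ _, fun h => (disjoint_left.1 hd) h hy⟩
  rw [h1, h3, h4]
  ring

theorem inv_sdiff_cyc (g : Perm V) (A : Finset V) (hA : Inv g A) (x : V) :
    Inv g (A \ cyc g x) := by
  intro a ha
  rw [mem_sdiff] at ha ⊢
  refine ⟨hA a ha.1, fun h => ha.2 ?_⟩
  rw [Pool.Agent.Q153.LC.mem_cyc] at h ⊢
  exact Perm.sameCycle_apply_right.1 h

theorem cyc_sub (g : Perm V) (A : Finset V) (hA : Inv g A) (x : V) (hx : x ∈ A) :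
    cyc g x ⊆ A := by
  intro y hy
  exact Pool.Agent.Q153.LC.inv_same g A hA x y hx ((Pool.Agent.Q153.LC.mem_cyc g x y).1 hy)

theorem TT_meas (e : ℕ → V × V) (n : ℕ) (A : Finset V) (δ : ℝ) :
    Rmeas e n A (fun ω => TT e ω A δ n) := by
  intro ω ω' h
  obtain ⟨a1, a2⟩ := Pool.Agent.Q68.LC.agree h
  have key : ∀ k ≤ n, TT e ω A δ k = TT e ω' A δ k := by
    intro k
    induction k with
    | zero =>
      intro _
      rfl
    | succ k ih =>
      intro hk
      have hk' : k < n := by omega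
      show TT e ω A δ k * Mx e ω A δ k = TT e ω' A δ k * Mx e ω' A δ k
      rw [ih (by omega)]
      congr 1
      unfold Mx
      by_cases ht : tch e ω A k
      · have ht' := (a2 k hk').1 ht
        rw [if_pos ht, if_pos ht', h k hk' ht]
      · have ht' : ¬ tch e ω' A k := fun hh => ht ((a2 k hk').2 hh)
        rw [if_neg ht, if_neg ht']
  exact key n le_rfl

/-- the sum over all invariant sets which contain `x` -/
theorem perm_sum (g : Perm V) (w : ℝ) (h0 : 0 ≤ w) (h1 : w < 1) (B : Finset V → Prop)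
    [DecidablePred B] (hher : ∀ R R', R' ⊆ R → B R → B R') (x : V) :
    ∑ A : Finset V, (if Inv g A ∧ (x ∈ A ∧ B A) then w ^ A.card * dS w (univ \ A) (pm g) else 0) ≤
      ∑ A : Finset V, (if Inv g A ∧ (x ∉ A ∧ B A) then
        w ^ A.card * (dS w ((univ \ A).erase x) (pm g) - dS w (univ \ A) (pm g)) else 0) := by
  rw [← sum_filter, ← sum_filter]
  have hinj : Set.InjOn (fun A : Finset V => A \ cyc g x)
      ((univ : Finset (Finset V)).filter fun A => Inv g A ∧ (x ∈ A ∧ B A) : Set (Finset V)) := by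
    intro A hA A' hA' hh
    simp only [coe_filter, mem_univ, true_and, Set.mem_ofPred_eq] at hA hA'
    have e1 := sdiff_union_of_subset (cyc_sub g A hA.1 x hA.2.1)
    have e2 := sdiff_union_of_subset (cyc_sub g A' hA'.1 x hA'.2.1)
    simp only at hh
    rw [← e1, ← e2, hh]
  have hval : ∀ A ∈ (univ : Finset (Finset V)).filter fun A => Inv g A ∧ (x ∈ A ∧ B A),
      w ^ A.card * dS w (univ \ A) (pm g) =
      (fun A' : Finset V => w ^ A'.card *
        (dS w ((univ \ A').erase x) (pm g) - dS w (univ \ A') (pm g))) (A \ cyc g x) := by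
    intro A hA
    simp only [mem_filter, mem_univ, true_and] at hA
    have e1 := sdiff_union_of_subset (cyc_sub g A hA.1 x hA.2.1)
    have e2 : x ∉ A \ cyc g x := fun h =>
      (mem_sdiff.1 h).2 (Pool.Agent.Q153.LC.self_mem_cyc g x)
    have e3 := perm_pair g w (A \ cyc g x) (inv_sdiff_cyc g A hA.1 x) x e2
    rw [e1] at e3
    exact e3
  rw [sum_congr rfl hval, ← sum_image (f := fun A' : Finset V => w ^ A'.card *
        (dS w ((univ \ A').erase x) (pm g) - dS w (univ \ A') (pm g)))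
        (g := fun A => A \ cyc g x) (fun a ha b hb hab => hinj ha hb hab)]
  refine sum_le_sum_of_subset_of_nonneg ?_ ?_
  · intro A' hA'
    obtain ⟨A, hA, rfl⟩ := mem_image.1 hA'
    simp only [mem_filter, mem_univ, true_and] at hA ⊢
    exact ⟨inv_sdiff_cyc g A hA.1 x, fun h =>
      (mem_sdiff.1 h).2 (Pool.Agent.Q153.LC.self_mem_cyc g x), hher A _ sdiff_subset hA.2.2⟩
  · intro A hA _
    simp only [mem_filter, mem_univ, true_and] at hA
    rw [← perm_pair g w A hA.1 x hA.2.1]
    exact Pool.Agent.Q277.LC.wt_nonneg g w h0 h1 _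

open Classical in
theorem star (e : ℕ → V × V) (n : ℕ) (δ w : ℝ) (B : (ℕ → Bool) → Finset V → Prop)
    (hδ0 : 0 ≤ δ) (hδ1 : δ ≤ 1) (hw0 : 0 ≤ w) (hw1 : w < 1)
    (hB : ∀ A, Rmeas e n A (fun ω => B ω A)) (hher : ∀ ω R R', R' ⊆ R → B ω R → B ω R')
    (x : V) :
    PW e n δ w (fun ω A => x ∈ A ∧ B ω A) ≤
      PE e n δ w (fun ω A => if x ∉ A ∧ B ω A then Gx w (univ \ A) (TT e ω A δ n) x else 0) := by
  -- one fixed set
  have key : ∀ A : Finset V, x ∉ A →
      EE n δ (fun ω => (if Inv (gp e ω n) A ∧ B ω A then w ^ A.card else 0) *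
        (dS w ((univ \ A).erase x) (pm (gp e ω n)) - dS w (univ \ A) (pm (gp e ω n)))) =
      EE n δ (fun ω => ((if Inv (gp e ω n) A ∧ B ω A then w ^ A.card else 0) *
        Gx w (univ \ A) (TT e ω A δ n) x) * dS w (univ \ A) (pm (gp e ω n))) := by
    intro A hxA
    have hΘ : Rmeas e n A (fun ω => if Inv (gp e ω n) A ∧ B ω A then w ^ A.card else (0 : ℝ)) := by
      intro ω ω' h
      obtain ⟨a1, -⟩ := Pool.Agent.Q68.LC.agree h
      have e1 : Inv (gp e ω n) A ↔ Inv (gp e ω' n) A := by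
        unfold Q292.LC.Inv
        refine forall₂_congr fun a ha => ?_
        rw [a1 n le_rfl a ha]
      have e2 : B ω A ↔ B ω' A := by
        have := hB A ω ω' h
        simp only [eq_iff_iff] at this
        exact this
      simp only [e1, e2]
    have hT := TT_meas e n A δ
    have hΘ2 : Rmeas e n A (fun ω => (if Inv (gp e ω n) A ∧ B ω A then w ^ A.card else (0 : ℝ)) *
        Gx w (univ \ A) (TT e ω A δ n) x) := by
      intro ω ω' h
      have h1 := hΘ ω ω' h
      have h2 := hT ω ω' h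
      simp only at h1 h2
      show (if Inv (gp e ω n) A ∧ B ω A then w ^ A.card else (0 : ℝ)) *
        Gx w (univ \ A) (TT e ω A δ n) x = (if Inv (gp e ω' n) A ∧ B ω' A then w ^ A.card
          else (0 : ℝ)) * Gx w (univ \ A) (TT e ω' A δ n) x
      rw [h1, h2]
    have hX0 : Rmeas e n A (fun _ => (1 : Matrix V V ℝ)) := fun _ _ _ => rfl
    have hY : ∀ U : Finset V, Rmeas e n A (fun _ => -(w • dg U)) := fun U _ _ _ => rfl
    have d0 : ∀ (U : Finset V) (P : Matrix V V ℝ), (1 + -(w • dg U) * P).det = dS w U P := by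
      intro U P
      unfold dS
      congr 1
      rw [Matrix.neg_mul, Matrix.smul_mul, sub_eq_add_neg]
    have L : ∀ (Θ : (ℕ → Bool) → ℝ), Rmeas e n A Θ → ∀ U : Finset V,
        EE n δ (fun ω => Θ ω * dS w U (pm (gp e ω n))) =
        EE n δ (fun ω => Θ ω * dS w U (TT e ω A δ n)) := by
      intro Θ hΘ' U
      have l := Pool.Agent.Q257.LC.l1 V e n δ A Θ _ _ hδ0 hδ1 hΘ' hX0 (hY U)
      simp only [d0] at l
      exact l
    have hTpos : ∀ ω, 0 < dS w (univ \ A) (TT e ω A δ n) := by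
      intro ω
      obtain ⟨b1, b2, -⟩ := Pool.Agent.Q68.LC.bas2 V e ω A δ hδ0 hδ1
      exact Pool.Agent.Q68.LC.det_pos (Pool.Agent.Q68.LC.SS_dg
        ⟨fun x y => b1 n x y, fun x => (b2 n x).le⟩ (univ \ A)) hw0 hw1
    have s1 : EE n δ (fun ω => (if Inv (gp e ω n) A ∧ B ω A then w ^ A.card else 0) *
        (dS w ((univ \ A).erase x) (pm (gp e ω n)) - dS w (univ \ A) (pm (gp e ω n)))) =
        EE n δ (fun ω => (if Inv (gp e ω n) A ∧ B ω A then w ^ A.card else 0) *
          dS w ((univ \ A).erase x) (pm (gp e ω n))) + (-1) *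
        EE n δ (fun ω => (if Inv (gp e ω n) A ∧ B ω A then w ^ A.card else 0) *
          dS w (univ \ A) (pm (gp e ω n))) := by
      rw [← EE_smul, ← EE_add]
      congr 1
      funext ω
      ring
    have s2 : EE n δ (fun ω => ((if Inv (gp e ω n) A ∧ B ω A then w ^ A.card else 0) *
        Gx w (univ \ A) (TT e ω A δ n) x) * dS w (univ \ A) (TT e ω A δ n)) =
        EE n δ (fun ω => (if Inv (gp e ω n) A ∧ B ω A then w ^ A.card else 0) *
          dS w ((univ \ A).erase x) (TT e ω A δ n)) + (-1) *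
        EE n δ (fun ω => (if Inv (gp e ω n) A ∧ B ω A then w ^ A.card else 0) *
          dS w (univ \ A) (TT e ω A δ n)) := by
      rw [← EE_smul, ← EE_add]
      congr 1
      funext ω
      unfold Gx
      have := (hTpos ω).ne'
      field_simp
      ring
    rw [s1, L _ hΘ, L _ hΘ, ← s2, ← L _ hΘ2]
  -- all sets
  have step1 : PW e n δ w (fun ω A => x ∈ A ∧ B ω A) ≤
      EE n δ (fun ω => ∑ A : Finset V, (if Inv (gp e ω n) A ∧ (x ∉ A ∧ B ω A) then
        w ^ A.card * (dS w ((univ \ A).erase x) (pm (gp e ω n)) -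
          dS w (univ \ A) (pm (gp e ω n))) else 0)) := by
    unfold PW
    refine EE_mono hδ0 hδ1 fun ω => ?_
    refine le_trans (le_of_eq ?_) (perm_sum (gp e ω n) w hw0 hw1 (fun A => B ω A) (hher ω) x)
    refine sum_congr rfl fun A _ => ?_
    congr 1
  refine step1.trans (le_of_eq ?_)
  unfold PE
  rw [Pool.Agent.Q277.LC.EE_sum, Pool.Agent.Q277.LC.EE_sum]
  refine sum_congr rfl fun A _ => ?_
  by_cases hxA : x ∈ A
  · congr 1
    funext ω
    beta_reduce
    have : ¬ (Inv (gp e ω n) A ∧ (x ∉ A ∧ B ω A)) := fun h => h.2.1 hxA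
    rw [if_neg this]
    have h2 : ¬ (x ∉ A ∧ B ω A) := fun h => h.1 hxA
    rw [if_neg h2, mul_zero, ite_self]
  · have h1 : (fun ω => (if Inv (gp e ω n) A ∧ (x ∉ A ∧ B ω A) then
        w ^ A.card * (dS w ((univ \ A).erase x) (pm (gp e ω n)) -
          dS w (univ \ A) (pm (gp e ω n))) else 0)) =
        (fun ω => (if Inv (gp e ω n) A ∧ B ω A then w ^ A.card else 0) *
        (dS w ((univ \ A).erase x) (pm (gp e ω n)) - dS w (univ \ A) (pm (gp e ω n)))) := by
      funext ω
      by_cases h : Inv (gp e ω n) A ∧ B ω A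
      · rw [if_pos h, if_pos ⟨h.1, hxA, h.2⟩]
      · rw [if_neg h, if_neg (fun hh => h ⟨hh.1, hh.2.2⟩), zero_mul]
    have h2 : (fun ω => (if Inv (gp e ω n) A then w ^ A.card * dS w (univ \ A) (pm (gp e ω n)) *
        (if x ∉ A ∧ B ω A then Gx w (univ \ A) (TT e ω A δ n) x else 0) else 0)) =
        (fun ω => ((if Inv (gp e ω n) A ∧ B ω A then w ^ A.card else 0) *
        Gx w (univ \ A) (TT e ω A δ n) x) * dS w (univ \ A) (pm (gp e ω n))) := by
      funext ω
      by_cases h3 : Inv (gp e ω n) A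
      · by_cases h4 : B ω A
        · rw [if_pos h3, if_pos ⟨hxA, h4⟩, if_pos ⟨h3, h4⟩]
          ring
        · rw [if_pos h3, if_neg (fun hh => h4 hh.2), if_neg (fun hh => h4 hh.2)]
          ring
      · rw [if_neg h3, if_neg (fun hh => h3 hh.1)]
        ring
    rw [h1, h2]
    exact key A hxA

end Pool.Agent.H961.T2
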