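import Pool.Agent.H961.T2.B9

/-!
# The generating function of the cycle length of one point
-/

set_option autoImplicit false
set_option linter.unusedSectionVars false
set_option linter.unusedVariables false

namespace Pool.Agent.H961.T2

open Finset Equiv Matrix Q292.LC
open Pool.Agent.Y998.ST (stirExp nnRate qq stirLaw totalRate hop cycleLen gk)
open Pool.Agent.Helper47K9.SC (hop_diag)

theorem pow_half (K t a : ℝ) (hK : 0 < K) (ht : 0 < t) (h : t ≤ 2 * K) (ha : 0 ≤ a) :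
    K ^ (-a) ≤ 2 ^ a * t ^ (-a) := by
  have e1 : (t / 2) ^ (-a) = 2 ^ a * t ^ (-a) := by
    rw [Real.div_rpow ht.le (by norm_num), Real.rpow_neg (by norm_num : (0 : ℝ) ≤ 2),
      div_inv_eq_mul]
    ring
  rw [← e1]
  exact Real.rpow_le_rpow_of_nonpos (by linarith) (by linarith) (by linarith)

theorem comb2 (s A B b b' C1 C2 : ℝ) (h : (1 - b) * (s - C1) ≤ A) (hbb : b ≤ b')
    (hb' : b' ≤ 1 / 2) (hC : C1 ≤ C2) (hAB : A ≤ B) (hB : 0 ≤ B) :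
    (1 - b') * (s - C2) ≤ B := by
  rcases le_total (s - C2) 0 with h1 | h1
  · have : (1 - b') * (s - C2) ≤ 0 := mul_nonpos_of_nonneg_of_nonpos (by linarith) h1
    linarith
  · have e1 : (1 - b') * (s - C2) ≤ (1 - b) * (s - C2) :=
      mul_le_mul_of_nonneg_right (by linarith) h1
    have e2 : (1 - b) * (s - C2) ≤ (1 - b) * (s - C1) :=
      mul_le_mul_of_nonneg_left (by linarith) (by linarith)
    linarith

theorem stir_main (d : ℕ) (hd : 3 ≤ d) : ∃ (C : ℝ) (m : ℕ), 1 ≤ C ∧ ∀ (L : ℕ) [NeZero L]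
    (t w : ℝ) (k0 : ℕ), 3 ≤ L → m ≤ t → t ≤ (L : ℝ) ^ 2 → (Real.log L) ^ m ≤ t → 0 ≤ w → w < 1 →
    1 / ((L : ℝ) ^ d * (1 - w)) ≤ 1 / t → C * (k0 : ℝ) ^ 2 * t ^ (-(1 / 4) : ℝ) ≤ 1 / 2 →
    ∀ x : Fin d → ZMod L,
    (1 - C * (k0 : ℝ) ^ 2 * t ^ (-(1 / 4) : ℝ)) *
      (stirExp (nnRate d L) t (fun g => w ^ (cyc g x).card) - C / (L : ℝ) ^ d) ≤
      ∑ k ∈ range k0, w ^ (k + 1) * gk L (((k : ℝ) + 1) * t) 0 ^ d +
        C * (1 / ((L : ℝ) ^ d * (1 - w)) + t ^ (-(d / 2 : ℝ)) * rr d k0) := by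
  obtain ⟨C, m, hC, h⟩ := stir_lim d hd
  obtain ⟨D, hD⟩ : ∃ D : ℝ, D = C * 2 ^ (d / 2 : ℝ) := ⟨_, rfl⟩
  have hD0 : 0 ≤ D := by rw [hD]; positivity
  refine ⟨2 * C + D, 2 ^ (m + 1) + m + 2, by linarith, ?_⟩
  intro L _ t w k0 hL3 hmt htL hlog hw0 hw1 hwt hk0 x
  have pw1 : 0 < 2 ^ (m + 1) := by positivity
  obtain ⟨mm, hmm⟩ : ∃ mm : ℕ, mm = 2 ^ (m + 1) + m + 2 := ⟨_, rfl⟩
  rw [← hmm] at hmt hlog
  have hm1 : (1 : ℝ) ≤ mm := by exact_mod_cast (by omega : 1 ≤ mm)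
  have ht1 : 1 ≤ t := hm1.trans hmt
  have ht0 : 0 < t := by linarith
  obtain ⟨K, hK⟩ : ∃ K, K = ⌊t⌋₊ := ⟨_, rfl⟩
  have hKt : (K : ℝ) ≤ t := by rw [hK]; exact Nat.floor_le (by linarith)
  have hK1 : 1 ≤ K := by
    rw [hK]
    exact Nat.le_floor (by rw [Nat.cast_one]; exact ht1)
  have hK1' : (1 : ℝ) ≤ K := by exact_mod_cast hK1
  have htK : t < K + 1 := by rw [hK]; exact Nat.lt_floor_add_one t
  have ht2K : t ≤ 2 * K := by linarith
  have hKL : K ≤ L ^ 2 := by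
    have : (K : ℝ) ≤ ((L ^ 2 : ℕ) : ℝ) := by push_cast; linarith
    exact_mod_cast this
  have hmK : m ≤ K := by
    have h1 : (m : ℝ) + 1 ≤ t := by
      have : m + 1 ≤ mm := by omega
      have h2 : ((m + 1 : ℕ) : ℝ) ≤ mm := by exact_mod_cast this
      push_cast at h2
      linarith
    have h3 : (m : ℝ) < (K : ℝ) + 1 := by linarith
    have h4 : m < K + 1 := by exact_mod_cast h3
    omega
  have hlogK : (Real.log L) ^ m ≤ K := by
    have hℓ : 0 ≤ Real.log L := Real.log_natCast_nonneg L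
    have hK2 : t / 2 ≤ K := by linarith
    refine le_trans ?_ hK2
    rcases le_total (Real.log L) 2 with h | h
    · have h1 : (Real.log L) ^ m ≤ 2 ^ m := pow_le_pow_left₀ hℓ h _
      have h2 : ((2 ^ (m + 1) : ℕ) : ℝ) ≤ mm := by
        have : 2 ^ (m + 1) ≤ mm := by omega
        exact_mod_cast this
      push_cast at h2
      rw [pow_succ] at h2
      linarith
    · have h1 : (Real.log L) ^ (m + 1) ≤ (Real.log L) ^ mm :=
        pow_le_pow_right₀ (by linarith) (by omega)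
      have h2 : (Real.log L) ^ m * 2 ≤ (Real.log L) ^ (m + 1) := by
        rw [pow_succ]
        exact mul_le_mul_of_nonneg_left h (by positivity)
      linarith
  have hLp : 0 < L := by omega
  have hL0 : (0 : ℝ) < L := by exact_mod_cast hLp
  have hN0 : (0 : ℝ) < (L : ℝ) ^ d := pow_pos hL0 d
  have h1w : 0 < 1 - w := by linarith
  have hwK : 1 / ((L : ℝ) ^ d * (1 - w)) ≤ 2 / K := by
    refine hwt.trans ?_
    rw [div_le_div_iff₀ ht0 (by linarith)]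
    linarith
  -- powers
  have q1 : (K : ℝ) ^ (-(1 / 4) : ℝ) ≤ 2 * t ^ (-(1 / 4) : ℝ) := by
    have e1 := pow_half K t (1 / 4) (by linarith) ht0 ht2K (by norm_num)
    have e2 : (2 : ℝ) ^ (1 / 4 : ℝ) ≤ 2 := by
      calc (2 : ℝ) ^ (1 / 4 : ℝ) ≤ 2 ^ (1 : ℝ) :=
            Real.rpow_le_rpow_of_exponent_le (by norm_num) (by norm_num)
        _ = 2 := Real.rpow_one 2
    have e3 : 0 ≤ t ^ (-(1 / 4) : ℝ) := Real.rpow_nonneg ht0.le _
    calc (K : ℝ) ^ (-(1 / 4) : ℝ) ≤ 2 ^ (1 / 4 : ℝ) * t ^ (-(1 / 4) : ℝ) := e1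
      _ ≤ 2 * t ^ (-(1 / 4) : ℝ) := mul_le_mul_of_nonneg_right e2 e3
  have q2 : (K : ℝ) ^ (-(d / 2 : ℝ)) ≤ 2 ^ (d / 2 : ℝ) * t ^ (-(d / 2 : ℝ)) :=
    pow_half K t (d / 2) (by linarith) ht0 ht2K (by positivity)
  have hbb : C * (k0 : ℝ) ^ 2 * (K : ℝ) ^ (-(1 / 4) : ℝ) ≤
      (2 * C + D) * (k0 : ℝ) ^ 2 * t ^ (-(1 / 4) : ℝ) := by
    have e3 : 0 ≤ t ^ (-(1 / 4) : ℝ) := Real.rpow_nonneg ht0.le _
    have e4 : 0 ≤ D * ((k0 : ℝ) ^ 2 * t ^ (-(1 / 4) : ℝ)) := by positivity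
    calc C * (k0 : ℝ) ^ 2 * (K : ℝ) ^ (-(1 / 4) : ℝ) ≤
          C * (k0 : ℝ) ^ 2 * (2 * t ^ (-(1 / 4) : ℝ)) :=
          mul_le_mul_of_nonneg_left q1 (by positivity)
      _ = 2 * C * (k0 : ℝ) ^ 2 * t ^ (-(1 / 4) : ℝ) := by ring
      _ ≤ _ := by
        have e5 : (2 * C + D) * (k0 : ℝ) ^ 2 * t ^ (-(1 / 4) : ℝ) =
          2 * C * (k0 : ℝ) ^ 2 * t ^ (-(1 / 4) : ℝ) +
            D * ((k0 : ℝ) ^ 2 * t ^ (-(1 / 4) : ℝ)) := by ring
        rw [e5]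
        linarith
  have key := h L K w t hmK hKL hlogK hw0 hw1 hwK hKt ht2K hL3 k0 (hbb.trans hk0)
  -- translation invariance
  have s1 : ∑ y, stirExp (nnRate d L) t (fun g => w ^ (cyc g y).card) =
      (L : ℝ) ^ d * stirExp (nnRate d L) t (fun g => w ^ (cyc g x).card) := by
    have : ∀ y ∈ (univ : Finset (Fin d → ZMod L)),
        stirExp (nnRate d L) t (fun g => w ^ (cyc g y).card) =
        stirExp (nnRate d L) t (fun g => w ^ (cyc g x).card) := fun y _ => by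
      rw [cyc_trans2 t (fun n => w ^ n) y, cyc_trans2 t (fun n => w ^ n) x]
    rw [sum_congr rfl this, sum_const, card_univ, Fintype.card_fun, ZMod.card, Fintype.card_fin,
      nsmul_eq_mul]
    push_cast
    rfl
  have s2 : ∀ k ∈ range k0, w ^ (k + 1) * ∑ y, hop (nnRate d L) (((k : ℝ) + 1) * t) y y =
      (L : ℝ) ^ d * (w ^ (k + 1) * gk L (((k : ℝ) + 1) * t) 0 ^ d) := by
    intro k _
    have : ∀ y ∈ (univ : Finset (Fin d → ZMod L)),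
        hop (nnRate d L) (((k : ℝ) + 1) * t) y y = gk L (((k : ℝ) + 1) * t) 0 ^ d := fun y _ =>
      hop_diag hL3 _ y
    rw [sum_congr rfl this, sum_const, card_univ, Fintype.card_fun, ZMod.card, Fintype.card_fin,
      nsmul_eq_mul]
    push_cast
    ring
  rw [s1, sum_congr rfl s2, ← mul_sum] at key
  have hG0 : 0 ≤ ∑ k ∈ range k0, w ^ (k + 1) * gk L (((k : ℝ) + 1) * t) 0 ^ d := by
    refine sum_nonneg fun k _ => mul_nonneg (pow_nonneg hw0 _) ?_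
    rw [← hop_diag hL3 _ x]
    exact Pool.Agent.Y998.ST.exp_nonneg (J := nnRate d L) Pool.Agent.Y998.ST.nn_nonneg
      (by positivity) fun g => by split_ifs <;> norm_num
  obtain ⟨G, hG⟩ : ∃ G : ℝ, G = ∑ k ∈ range k0, w ^ (k + 1) * gk L (((k : ℝ) + 1) * t) 0 ^ d :=
    ⟨_, rfl⟩
  obtain ⟨s, hs⟩ : ∃ s : ℝ, s = stirExp (nnRate d L) t (fun g => w ^ (cyc g x).card) := ⟨_, rfl⟩
  obtain ⟨N, hN⟩ : ∃ N : ℝ, N = (L : ℝ) ^ d := ⟨_, rfl⟩
  obtain ⟨b, hb⟩ : ∃ b : ℝ, b = C * (k0 : ℝ) ^ 2 * (K : ℝ) ^ (-(1 / 4) : ℝ) := ⟨_, rfl⟩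
  obtain ⟨X, hX⟩ : ∃ X : ℝ, X = (K : ℝ) ^ (-(d / 2 : ℝ)) := ⟨_, rfl⟩
  rw [← hG, ← hs, ← hN, ← hb, ← hX] at key
  rw [← hG] at hG0
  rw [← hN] at hN0
  rw [← hX] at q2
  rw [← hb] at hbb
  rw [← hG, ← hs, ← hN]
  have hr := rr_nonneg d k0
  have key2 : (1 - b) * (s - C / N) ≤ G + C * (1 / (N * (1 - w)) + X * rr d k0) := by
    have e1 : (1 - b) * (s - C / N) = ((1 - b) * (N * s - C)) / N := by field_simp
    have e2 : G + C * (1 / (N * (1 - w)) + X * rr d k0) =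
        (N * G + C * (1 / (1 - w) + N * X * rr d k0)) / N := by field_simp
    rw [e1, e2]
    exact div_le_div_of_nonneg_right key hN0.le
  have i1 : 0 ≤ 1 / (N * (1 - w)) := div_nonneg zero_le_one (mul_nonneg hN0.le h1w.le)
  have i2 : 0 ≤ t ^ (-(d / 2 : ℝ)) := Real.rpow_nonneg ht0.le _
  have i3 : 0 ≤ t ^ (-(d / 2 : ℝ)) * rr d k0 := mul_nonneg i2 hr
  have hAB : G + C * (1 / (N * (1 - w)) + X * rr d k0) ≤
      G + (2 * C + D) * (1 / (N * (1 - w)) + t ^ (-(d / 2 : ℝ)) * rr d k0) := by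
    have j1 : C * (X * rr d k0) ≤ D * (t ^ (-(d / 2 : ℝ)) * rr d k0) := by
      have := mul_le_mul_of_nonneg_right q2 hr
      calc C * (X * rr d k0) ≤ C * (2 ^ (d / 2 : ℝ) * t ^ (-(d / 2 : ℝ)) * rr d k0) :=
            mul_le_mul_of_nonneg_left this (by linarith)
        _ = D * (t ^ (-(d / 2 : ℝ)) * rr d k0) := by rw [hD]; ring
    have j2 : 0 ≤ D * (1 / (N * (1 - w))) := mul_nonneg hD0 i1
    have j3 : 0 ≤ C * (t ^ (-(d / 2 : ℝ)) * rr d k0) := mul_nonneg (by linarith) i3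
    have j4 : 0 ≤ C * (1 / (N * (1 - w))) := mul_nonneg (by linarith) i1
    have j5 : (2 * C + D) * (1 / (N * (1 - w)) + t ^ (-(d / 2 : ℝ)) * rr d k0) =
        2 * (C * (1 / (N * (1 - w)))) + D * (1 / (N * (1 - w))) +
        2 * (C * (t ^ (-(d / 2 : ℝ)) * rr d k0)) + D * (t ^ (-(d / 2 : ℝ)) * rr d k0) := by ring
    rw [j5, mul_add]
    linarith
  refine comb2 s _ _ b _ (C / N) _ key2 hbb hk0 ?_ hAB ?_
  · refine div_le_div_of_nonneg_right (by linarith) hN0.le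
  · exact add_nonneg hG0 (mul_nonneg (by linarith) (add_nonneg i1 i3))

end Pool.Agent.H961.T2
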