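import Pool.Agent.H961.T2.B10

/-!
# The upper bound for the probability of a short cycle, with the exact constant
-/

set_option autoImplicit false
set_option linter.unusedSectionVars false
set_option linter.unusedVariables false

namespace Pool.Agent.H961.T2

open Finset Equiv Matrix Q292.LC
open Pool.Agent.Y998.ST (stirExp nnRate qq stirLaw totalRate hop cycleLen gk)
open Pool.Agent.Helper47K9.SC (hop_diag ret_asy as1)

theorem rr_tendsto (d : ℕ) (hd : 3 ≤ d) : ∀ e : ℝ, 0 < e → ∃ k0 : ℕ, rr d k0 ≤ e := by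
  intro e he
  have h := tendsto_sum_nat_add (fun i : ℕ => ((i : ℝ) + 1) ^ (-(d / 2 : ℝ)))
  have h2 := h.eventually_lt_const he
  obtain ⟨k0, hk0⟩ := h2.exists
  refine ⟨k0, ?_⟩
  unfold rr
  refine le_trans (le_of_eq ?_) hk0.le
  refine tsum_congr fun i => ?_
  push_cast
  rfl

theorem ret_all (d : ℕ) (hd : 1 ≤ d) (k0 : ℕ) (e : ℝ) (he : 0 < e) :
    ∃ T : ℝ, 0 < T ∧ ∀ (L : ℕ) [NeZero L], 3 ≤ L → ∀ t : ℝ, T ≤ t → T * t ≤ (L : ℝ) ^ 2 →
    ∀ k < k0, |gk L (((k : ℝ) + 1) * t) 0 ^ d *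
      Real.sqrt (4 * Real.pi * (((k : ℝ) + 1) * t)) ^ d - 1| ≤ e := by
  induction k0 with
  | zero => exact ⟨1, one_pos, fun L _ _ t _ _ k hk => absurd hk (Nat.not_lt_zero _)⟩
  | succ k0 ih =>
    obtain ⟨T, hT, h⟩ := ih
    obtain ⟨T', hT', h'⟩ := ret_asy as1 d hd (k0 + 1) (by omega) e he
    refine ⟨max T T', lt_max_of_lt_left hT, ?_⟩
    intro L _ hL t ht htL k hk
    have ht0 : 0 < t := hT.trans_le ((le_max_left _ _).trans ht)
    have e1 : T * t ≤ (L : ℝ) ^ 2 :=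
      (mul_le_mul_of_nonneg_right (le_max_left _ _) ht0.le).trans htL
    have e2 : T' * t ≤ (L : ℝ) ^ 2 :=
      (mul_le_mul_of_nonneg_right (le_max_right _ _) ht0.le).trans htL
    rcases Nat.lt_succ_iff_lt_or_eq.1 hk with hk' | hk'
    · exact h L hL t ((le_max_left _ _).trans ht) e1 k hk'
    · subst hk'
      have := h' L hL t ((le_max_right _ _).trans ht) e2
      push_cast at this
      exact this

/-- the arithmetic of the small parameter -/
theorem small_par (Z e P s b A : ℝ) (hZ : 0 ≤ Z) (he : 0 < e) (he4 : e ≤ 1 / 4) (hs : 0 ≤ s)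
    (hP : (1 - e) * P ≤ s) (h : (1 - b) * (s - e) ≤ A) (hb : b ≤ e)
    (hA : A ≤ (1 + e) * Z + 2 * e) : P ≤ Z + e * (8 * Z + 6) := by
  have h1 : s ≤ (1 + 4 * e) * Z + 4 * e := by
    by_contra hcon
    push Not at hcon
    have h2 : 0 ≤ s - e := by nlinarith
    have h3 : (1 - e) * (s - e) ≤ (1 - b) * (s - e) :=
      mul_le_mul_of_nonneg_right (by linarith) h2
    have h4 : (1 - e) * (s - e) ≤ (1 + e) * Z + 2 * e := by linarith
    have h5 : (1 - e) * ((1 + 4 * e) * Z + 4 * e - e) < (1 - e) * (s - e) :=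
      mul_lt_mul_of_pos_left (by linarith) (by linarith)
    have h6 : (1 + e) * Z + 2 * e ≤ (1 - e) * ((1 + 4 * e) * Z + 4 * e - e) := by
      have : (1 - e) * ((1 + 4 * e) * Z + 4 * e - e) - ((1 + e) * Z + 2 * e) =
          Z * (e * (2 - 4 * e)) + e * (1 - 3 * e) := by ring
      have h7 : 0 ≤ Z * (e * (2 - 4 * e)) :=
        mul_nonneg hZ (mul_nonneg he.le (by linarith))
      have h8 : 0 ≤ e * (1 - 3 * e) := mul_nonneg he.le (by linarith)
      linarith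
    linarith
  by_contra hcon
  push Not at hcon
  have h2 : (1 - e) * (Z + e * (8 * Z + 6)) < (1 - e) * P :=
    mul_lt_mul_of_pos_left hcon (by linarith)
  have h3 : (1 + 4 * e) * Z + 4 * e ≤ (1 - e) * (Z + e * (8 * Z + 6)) := by
    have : (1 - e) * (Z + e * (8 * Z + 6)) - ((1 + 4 * e) * Z + 4 * e) =
        Z * (e * (3 - 8 * e)) + e * (2 - 6 * e) := by ring
    have h7 : 0 ≤ Z * (e * (3 - 8 * e)) := mul_nonneg hZ (mul_nonneg he.le (by linarith))
    have h8 : 0 ≤ e * (2 - 6 * e) := mul_nonneg he.le (by linarith)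
    linarith
  linarith

theorem w_inv (N n e w : ℝ) (hN : N ≠ 0) (hn : n ≠ 0) (he : e ≠ 0) (hw : w = 1 - e / n) :
    1 / (N * (1 - w)) = n / (e * N) := by
  have h1 : 1 - w = e / n := by rw [hw]; ring
  rw [h1]
  field_simp

theorem sqrt_pow_rpow (d : ℕ) (y : ℝ) (hy : 0 ≤ y) : Real.sqrt y ^ d = y ^ (d / 2 : ℝ) := by
  rw [Real.sqrt_eq_rpow, ← Real.rpow_natCast, ← Real.rpow_mul hy]
  congr 1
  ring

theorem ub (d : ℕ) (hd : 3 ≤ d) : ∃ m : ℕ, ∀ ε : ℝ, 0 < ε → ∃ T : ℝ, 3 ≤ T ∧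
    ∀ (L : ℕ) [NeZero L] (t : ℝ) (n : ℕ), T ≤ t → T * t ≤ (L : ℝ) ^ 2 → (Real.log L) ^ m ≤ t →
    1 ≤ n → T * (n * t ^ (d / 2 : ℝ)) ≤ (L : ℝ) ^ d → ∀ x : Fin d → ZMod L,
    Real.sqrt (4 * Real.pi * t) ^ d *
      stirExp (nnRate d L) t (fun g => if (cyc g x).card ≤ n then 1 else 0) ≤ rr d 0 + ε := by
  obtain ⟨C, m, hC, hmain⟩ := stir_main d hd
  refine ⟨m, fun ε hε => ?_⟩
  obtain ⟨Z, hZ⟩ : ∃ Z : ℝ, Z = rr d 0 := ⟨_, rfl⟩
  have hZ0 : 0 ≤ Z := by rw [hZ]; exact rr_nonneg d 0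
  obtain ⟨e, he⟩ : ∃ e : ℝ, e = min (1 / 4) (ε / (8 * Z + 6)) := ⟨_, rfl⟩
  have he0 : 0 < e := by
    rw [he]
    exact lt_min (by norm_num) (by positivity)
  have he4 : e ≤ 1 / 4 := by rw [he]; exact min_le_left _ _
  have heε : e * (8 * Z + 6) ≤ ε := by
    have h1 : e ≤ ε / (8 * Z + 6) := by rw [he]; exact min_le_right _ _
    rwa [le_div_iff₀ (by linarith)] at h1
  -- the constant
  obtain ⟨p, hp⟩ : ∃ p : ℝ, p = (4 * Real.pi) ^ (d / 2 : ℝ) := ⟨_, rfl⟩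
  have hpi := Real.pi_pos
  have hp0 : 0 < p := by rw [hp]; positivity
  obtain ⟨k0, hk0⟩ := rr_tendsto d hd (e / (C * p)) (by positivity)
  obtain ⟨T₁, hT₁, hret⟩ := ret_all d (by omega) k0 e he0
  obtain ⟨B, hB⟩ : ∃ B : ℝ, B = C * (k0 : ℝ) ^ 2 / e + 1 := ⟨_, rfl⟩
  have hB1 : 1 ≤ B := by
    rw [hB]
    have : 0 ≤ C * (k0 : ℝ) ^ 2 / e := by positivity
    linarith
  obtain ⟨T, hT⟩ : ∃ T : ℝ, T = T₁ + 3 + m + 1 / e + B ^ 4 + C * p / e ^ 2 + C * p / e :=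
    ⟨_, rfl⟩
  have hm0 : (0 : ℝ) ≤ m := Nat.cast_nonneg _
  have t1 : 0 ≤ 1 / e := by positivity
  have t2 : 0 ≤ B ^ 4 := by positivity
  have t3 : 0 ≤ C * p / e ^ 2 := by positivity
  have t4 : 0 ≤ C * p / e := by positivity
  have hT3 : 3 ≤ T := by rw [hT]; linarith
  refine ⟨T, hT3, ?_⟩
  intro L _ t n htT htL hlog hn hnL x
  have ht3 : 3 ≤ t := hT3.trans htT
  have ht0 : 0 < t := by linarith
  have hT0 : 0 < T := by linarith
  have hL0 : (0 : ℝ) < L := by exact_mod_cast Nat.pos_of_ne_zero (NeZero.ne L)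
  have hL3 : 3 ≤ L := by
    have h1 : (3 : ℝ) ^ 2 ≤ (L : ℝ) ^ 2 := by nlinarith
    have h2 : (3 : ℝ) ≤ L := (pow_le_pow_iff_left₀ (by norm_num) hL0.le two_ne_zero).1 h1
    exact_mod_cast h2
  have htL2 : t ≤ (L : ℝ) ^ 2 := by nlinarith
  have hN0 : (0 : ℝ) < (L : ℝ) ^ d := pow_pos hL0 d
  have hn0 : (0 : ℝ) < n := by exact_mod_cast hn
  have hn1 : (1 : ℝ) ≤ n := by exact_mod_cast hn
  have htd : 0 < t ^ (d / 2 : ℝ) := Real.rpow_pos_of_pos ht0 _
  have htt : t ≤ t ^ (d / 2 : ℝ) := by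
    have hd3 : (3 : ℝ) ≤ d := by exact_mod_cast hd
    calc t = t ^ (1 : ℝ) := (Real.rpow_one t).symm
      _ ≤ t ^ (d / 2 : ℝ) := Real.rpow_le_rpow_of_exponent_le (by linarith) (by linarith)
  -- the marking parameter
  obtain ⟨w, hw⟩ : ∃ w : ℝ, w = 1 - e / n := ⟨_, rfl⟩
  have hen : e / n ≤ 1 / 4 := (div_le_self he0.le hn1).trans he4
  have hen0 : 0 < e / n := by positivity
  have hw0 : 0 ≤ w := by rw [hw]; linarith
  have hw1 : w < 1 := by rw [hw]; linarith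
  have hNw : 1 / ((L : ℝ) ^ d * (1 - w)) = n / (e * (L : ℝ) ^ d) :=
    w_inv _ n e w hN0.ne' hn0.ne' he0.ne' hw
  -- T n t^(d/2) ≤ N
  have hkey : (n : ℝ) * t ^ (d / 2 : ℝ) / (L : ℝ) ^ d ≤ 1 / T := by
    rw [div_le_div_iff₀ hN0 hT0]
    linarith
  have hTe : 1 / e ≤ T := by rw [hT]; linarith
  have hwt : 1 / ((L : ℝ) ^ d * (1 - w)) ≤ 1 / t := by
    rw [hNw, div_le_div_iff₀ (by positivity) ht0]
    have h1 : (n : ℝ) * t ≤ n * t ^ (d / 2 : ℝ) := mul_le_mul_of_nonneg_left htt hn0.le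
    have h2 : (n : ℝ) * t ^ (d / 2 : ℝ) ≤ (L : ℝ) ^ d / T := by
      rw [le_div_iff₀ hT0]
      linarith
    have h3 : (L : ℝ) ^ d / T ≤ e * (L : ℝ) ^ d := by
      rw [div_le_iff₀ hT0]
      have h4 : 1 ≤ e * T := by
        rw [div_le_iff₀ he0] at hTe
        linarith
      nlinarith
    linarith
  have hbt : C * (k0 : ℝ) ^ 2 * t ^ (-(1 / 4) : ℝ) ≤ e := by
    have h1 : B ^ 4 ≤ t := by
      refine le_trans ?_ htT
      rw [hT]
      linarith
    have h2 : t ^ (-(1 / 4) : ℝ) ≤ 1 / B := by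
      calc t ^ (-(1 / 4) : ℝ) ≤ (B ^ 4) ^ (-(1 / 4) : ℝ) :=
            Real.rpow_le_rpow_of_nonpos (by positivity) h1 (by norm_num)
        _ = 1 / B := by
            rw [← Real.rpow_natCast, ← Real.rpow_mul (by linarith)]
            norm_num
            rw [Real.rpow_neg_one]
    have h3 : C * (k0 : ℝ) ^ 2 ≤ e * B := by
      rw [hB, mul_add, mul_div_cancel₀ _ he0.ne']
      linarith
    have h4 : 0 ≤ C * (k0 : ℝ) ^ 2 := by positivity
    calc C * (k0 : ℝ) ^ 2 * t ^ (-(1 / 4) : ℝ) ≤ C * (k0 : ℝ) ^ 2 * (1 / B) :=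
          mul_le_mul_of_nonneg_left h2 h4
      _ ≤ (e * B) * (1 / B) := mul_le_mul_of_nonneg_right h3 (by positivity)
      _ = e := by field_simp
  have hmt : (m : ℝ) ≤ t := by
    refine le_trans ?_ htT
    rw [hT]
    linarith
  have hm := hmain L t w k0 hL3 hmt htL2 hlog hw0 hw1 hwt (by linarith) x
  -- scaling
  obtain ⟨Q, hQ⟩ : ∃ Q : ℝ, Q = Real.sqrt (4 * Real.pi * t) ^ d := ⟨_, rfl⟩
  have hQ2 : Q = p * t ^ (d / 2 : ℝ) := by
    rw [hQ, sqrt_pow_rpow d _ (by positivity), Real.mul_rpow (by positivity) ht0.le, hp]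
  have hQ0 : 0 < Q := by rw [hQ2]; positivity
  rw [← hQ]
  obtain ⟨s, hs⟩ : ∃ s : ℝ, s = stirExp (nnRate d L) t (fun g => w ^ (cyc g x).card) := ⟨_, rfl⟩
  rw [← hs] at hm
  have hs0 : 0 ≤ s := by
    rw [hs]
    exact Pool.Agent.Y998.ST.exp_nonneg (J := nnRate d L) Pool.Agent.Y998.ST.nn_nonneg ht0.le
      fun g => pow_nonneg hw0 _
  -- Bernoulli
  have hP : (1 - e) * stirExp (nnRate d L) t (fun g => if (cyc g x).card ≤ n then 1 else 0) ≤
      s := by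
    rw [← Pool.Agent.Q297.LC.stir_smul, hs]
    refine Pool.Agent.Y998.ST.exp_mono (J := nnRate d L) Pool.Agent.Y998.ST.nn_nonneg ht0.le
      fun g => ?_
    split_ifs with h
    · have h3 : w ^ n ≤ w ^ (cyc g x).card := pow_le_pow_of_le_one hw0 hw1.le h
      have h4 : 1 + (n : ℝ) * (-(e / n)) ≤ (1 + -(e / (n : ℝ))) ^ n :=
        one_add_mul_le_pow (by linarith) n
      have h5 : 1 + (n : ℝ) * (-(e / n)) = 1 - e := by field_simp; ring
      have h6 : (1 + -(e / (n : ℝ))) = w := by rw [hw]; ring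
      rw [h5, h6] at h4
      linarith
    · rw [mul_zero]
      exact pow_nonneg hw0 _
  -- the main term
  have hG : Q * ∑ k ∈ range k0, w ^ (k + 1) * gk L (((k : ℝ) + 1) * t) 0 ^ d ≤ (1 + e) * Z := by
    rw [mul_sum]
    have h1 : ∀ k ∈ range k0, Q * (w ^ (k + 1) * gk L (((k : ℝ) + 1) * t) 0 ^ d) ≤
        (1 + e) * ((k : ℝ) + 1) ^ (-(d / 2 : ℝ)) := by
      intro k hk
      have hT1 : T₁ ≤ T := by rw [hT]; linarith
      have f1 := hret L hL3 t (hT1.trans htT)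
        ((mul_le_mul_of_nonneg_right hT1 ht0.le).trans htL) k (mem_range.1 hk)
      have f2 := (abs_le.1 f1).2
      have hk1 : (0 : ℝ) < (k : ℝ) + 1 := by positivity
      have f3 : Real.sqrt (4 * Real.pi * (((k : ℝ) + 1) * t)) ^ d =
          ((k : ℝ) + 1) ^ (d / 2 : ℝ) * Q := by
        rw [sqrt_pow_rpow d _ (by positivity), hQ, sqrt_pow_rpow d _ (by positivity),
          ← Real.mul_rpow hk1.le (by positivity)]
        congr 1
        ring
      rw [f3] at f2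
      have f4 : (0 : ℝ) < ((k : ℝ) + 1) ^ (d / 2 : ℝ) := Real.rpow_pos_of_pos hk1 _
      have f5 : ((k : ℝ) + 1) ^ (-(d / 2 : ℝ)) = (((k : ℝ) + 1) ^ (d / 2 : ℝ))⁻¹ :=
        Real.rpow_neg hk1.le _
      have f6 : 0 ≤ gk L (((k : ℝ) + 1) * t) 0 ^ d := by
        rw [← hop_diag hL3 _ x]
        exact Pool.Agent.Y998.ST.exp_nonneg (J := nnRate d L) Pool.Agent.Y998.ST.nn_nonneg
          (by positivity) fun g => by split_ifs <;> norm_num
      have f7 : w ^ (k + 1) ≤ 1 := pow_le_one₀ hw0 hw1.le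
      have f8 : Q * (w ^ (k + 1) * gk L (((k : ℝ) + 1) * t) 0 ^ d) ≤
          Q * gk L (((k : ℝ) + 1) * t) 0 ^ d := by
        refine mul_le_mul_of_nonneg_left ?_ hQ0.le
        exact mul_le_of_le_one_left f6 f7
      refine f8.trans ?_
      rw [f5, ← div_eq_mul_inv, le_div_iff₀ f4]
      linarith
    refine (sum_le_sum h1).trans ?_
    rw [← mul_sum]
    refine mul_le_mul_of_nonneg_left ?_ (by linarith)
    rw [hZ]
    unfold rr
    have h2 := (rr_summable d 0 hd).sum_le_tsum (range k0) (fun k _ => by positivity)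
    refine le_trans (le_of_eq ?_) h2
    refine sum_congr rfl fun k _ => ?_
    push_cast
    rw [add_zero]
  -- the rest
  have hR1 : Q * (C / (L : ℝ) ^ d) ≤ e := by
    have h1 : Q * (C / (L : ℝ) ^ d) = C * p * (t ^ (d / 2 : ℝ) / (L : ℝ) ^ d) := by
      rw [hQ2]
      ring
    have h2 : t ^ (d / 2 : ℝ) / (L : ℝ) ^ d ≤ 1 / T := by
      refine le_trans ?_ hkey
      refine div_le_div_of_nonneg_right ?_ hN0.le
      nlinarith
    rw [h1]
    have h3 : C * p / e ≤ T := by rw [hT]; linarith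
    calc C * p * (t ^ (d / 2 : ℝ) / (L : ℝ) ^ d) ≤ C * p * (1 / T) :=
          mul_le_mul_of_nonneg_left h2 (by positivity)
      _ ≤ e := by
          rw [mul_one_div, div_le_iff₀ hT0]
          rw [div_le_iff₀ he0] at h3
          linarith
  have hR2 : Q * (C * (1 / ((L : ℝ) ^ d * (1 - w)))) ≤ e := by
    have h1 : Q * (C * (1 / ((L : ℝ) ^ d * (1 - w)))) =
        C * p / e * (n * t ^ (d / 2 : ℝ) / (L : ℝ) ^ d) := by
      rw [hNw, hQ2]
      field_simp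
    rw [h1]
    have h3 : C * p / e ^ 2 ≤ T := by rw [hT]; linarith
    calc C * p / e * (n * t ^ (d / 2 : ℝ) / (L : ℝ) ^ d) ≤ C * p / e * (1 / T) :=
          mul_le_mul_of_nonneg_left hkey (by positivity)
      _ ≤ e := by
          rw [mul_one_div, div_div, div_le_iff₀ (by positivity)]
          rw [div_le_iff₀ (by positivity)] at h3
          nlinarith
  have hR3 : Q * (C * (t ^ (-(d / 2 : ℝ)) * rr d k0)) ≤ e := by
    have h1 : Q * (C * (t ^ (-(d / 2 : ℝ)) * rr d k0)) = C * p * rr d k0 := by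
      rw [hQ2, Real.rpow_neg ht0.le]
      field_simp
    rw [h1]
    have h2 := hk0
    rw [le_div_iff₀ (by positivity)] at h2
    linarith
  have hfin : (1 - C * (k0 : ℝ) ^ 2 * t ^ (-(1 / 4) : ℝ)) * (Q * s - e) ≤
      Q * (∑ k ∈ range k0, w ^ (k + 1) * gk L (((k : ℝ) + 1) * t) 0 ^ d +
        C * (1 / ((L : ℝ) ^ d * (1 - w)) + t ^ (-(d / 2 : ℝ)) * rr d k0)) := by
    have h1 := mul_le_mul_of_nonneg_left hm hQ0.le
    refine le_trans ?_ h1
    have h2 : Q * ((1 - C * (k0 : ℝ) ^ 2 * t ^ (-(1 / 4) : ℝ)) * (s - C / (L : ℝ) ^ d)) =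
        (1 - C * (k0 : ℝ) ^ 2 * t ^ (-(1 / 4) : ℝ)) * (Q * s - Q * (C / (L : ℝ) ^ d)) := by ring
    rw [h2]
    exact mul_le_mul_of_nonneg_left (by linarith) (by linarith)
  have hA : Q * (∑ k ∈ range k0, w ^ (k + 1) * gk L (((k : ℝ) + 1) * t) 0 ^ d +
        C * (1 / ((L : ℝ) ^ d * (1 - w)) + t ^ (-(d / 2 : ℝ)) * rr d k0)) ≤
      (1 + e) * Z + 2 * e := by
    rw [mul_add, mul_add C, mul_add Q]
    linarith
  have hres := small_par Z e (Q * stirExp (nnRate d L) t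
    (fun g => if (cyc g x).card ≤ n then 1 else 0)) (Q * s) _ _ hZ0 he0 he4
    (mul_nonneg hQ0.le hs0) (by
      have := mul_le_mul_of_nonneg_left hP hQ0.le
      linarith) hfin hbt hA
  rw [← hZ]
  linarith

end Pool.Agent.H961.T2
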