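import Pool.Agent.H961.T2.B11

/-!
# The upper bound for all times
-/

set_option autoImplicit false
set_option linter.unusedSectionVars false
set_option linter.unusedVariables false

namespace Pool.Agent.H961.T2

open Finset Equiv Matrix Q292.LC
open Pool.Agent.Y998.ST (stirExp nnRate qq stirLaw totalRate hop cycleLen gk)

theorem err_scale (p C K ε y X : ℝ) (hp : 0 < p) (hK : K = 2 * p / ε + 1) (hε : 0 < ε)
    (hy : 0 < y) (hX : 0 ≤ X) (h : C * K * X ≤ y⁻¹) : p * y * (C * X) ≤ ε / 2 := by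
  have hK0 : 0 < K := by rw [hK]; positivity
  have h1 : K * (y * (C * X)) ≤ 1 := by
    have := mul_le_mul_of_nonneg_left h hy.le
    rw [mul_inv_cancel₀ hy.ne'] at this
    linarith
  have h2 : y * (C * X) ≤ 1 / K := by
    rw [le_div_iff₀ hK0]
    linarith
  have h3 : p * (1 / K) ≤ ε / 2 := by
    rw [mul_one_div, div_le_iff₀ hK0, hK]
    have : ε / 2 * (2 * p / ε + 1) = p + ε / 2 := by field_simp
    rw [this]
    linarith
  calc p * y * (C * X) = p * (y * (C * X)) := by ring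
    _ ≤ p * (1 / K) := mul_le_mul_of_nonneg_left h2 hp.le
    _ ≤ ε / 2 := h3

theorem ub2 (d : ℕ) (hd : 3 ≤ d) : ∃ (c : ℝ) (m : ℕ), 0 < c ∧ ∀ ε : ℝ, 0 < ε → ∃ T : ℝ, 3 ≤ T ∧
    ∀ (L : ℕ) [NeZero L] (t : ℝ) (n : ℕ), T ≤ t → T * t ≤ (L : ℝ) ^ 2 →
    ((n : ℝ) ≤ Real.exp (t ^ c) ∨ (Real.log L) ^ m ≤ t) →
    1 ≤ n → T * (n * t ^ (d / 2 : ℝ)) ≤ (L : ℝ) ^ d → ∀ x : Fin d → ZMod L,
    Real.sqrt (4 * Real.pi * t) ^ d *
      stirExp (nnRate d L) t (fun g => if (cyc g x).card ≤ n then 1 else 0) ≤ rr d 0 + ε := by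
  obtain ⟨m, hub⟩ := ub d hd
  obtain ⟨C₂, hC₂, h2⟩ := all_lcs d (by omega)
  obtain ⟨m', hm'⟩ : ∃ m' : ℕ, m' = m + 1 := ⟨_, rfl⟩
  have hm'0 : (0 : ℝ) < m' := by rw [hm']; positivity
  refine ⟨1 / (2 * m'), m', by positivity, fun ε hε => ?_⟩
  obtain ⟨T₀, hT₀, h1⟩ := hub (ε / 2) (by linarith)
  obtain ⟨p, hp⟩ : ∃ p : ℝ, p = (4 * Real.pi) ^ (d / 2 : ℝ) := ⟨_, rfl⟩
  have hpi := Real.pi_pos
  have hp0 : 0 < p := by rw [hp]; positivity
  obtain ⟨K', hK'⟩ : ∃ K' : ℝ, K' = 2 * p / ε + 1 := ⟨_, rfl⟩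
  have hK'1 : 1 ≤ K' := by
    rw [hK']
    have : 0 ≤ 2 * p / ε := by positivity
    linarith
  obtain ⟨t₁, ht₁, h3⟩ := tail_params d m' (by omega) (C₂ * K') (by nlinarith)
  refine ⟨max T₀ t₁, hT₀.trans (le_max_left _ _), ?_⟩
  intro L _ t n htT htL hcase hn hnL x
  have hT0t : T₀ ≤ t := (le_max_left _ _).trans htT
  have ht1 : t₁ ≤ t := (le_max_right _ _).trans htT
  have ht3 : (3 : ℝ) ≤ t := hT₀.trans hT0t
  have ht0 : 0 < t := by linarith
  have hn0 : (0 : ℝ) < n := by exact_mod_cast hn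
  have hL0 : (0 : ℝ) < L := by exact_mod_cast Nat.pos_of_ne_zero (NeZero.ne L)
  have htd : 0 < t ^ (d / 2 : ℝ) := Real.rpow_pos_of_pos ht0 _
  -- the polylogarithmic case
  have hpoly : ∀ (L' : ℕ) [NeZero L'], (Real.log L') ^ m' ≤ t → T₀ * t ≤ (L' : ℝ) ^ 2 →
      T₀ * (n * t ^ (d / 2 : ℝ)) ≤ (L' : ℝ) ^ d →
      ∀ x' : Fin d → ZMod L',
      Real.sqrt (4 * Real.pi * t) ^ d *
      stirExp (nnRate d L') t (fun g => if (cyc g x').card ≤ n then 1 else 0) ≤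
      rr d 0 + ε / 2 := by
    intro L' _ hlog htL' hnL' x'
    refine h1 L' t n hT0t htL' ?_ hn hnL' x'
    by_cases h : Real.log L' ≤ 1
    · have hlog0 : 0 ≤ Real.log L' := Real.log_natCast_nonneg L'
      have : (Real.log L') ^ m ≤ 1 := pow_le_one₀ hlog0 h
      linarith
    · rw [not_le] at h
      refine le_trans ?_ hlog
      exact pow_le_pow_right₀ h.le (by omega)
  by_cases hbig : (Real.log L) ^ m' ≤ t
  · refine (hpoly L hbig ?_ ?_ x).trans (by linarith)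
    · exact (mul_le_mul_of_nonneg_right (le_max_left _ _) ht0.le).trans htL
    · exact (mul_le_mul_of_nonneg_right (le_max_left _ _) (by positivity)).trans hnL
  · have hn2 : (n : ℝ) ≤ Real.exp (t ^ (1 / (2 * m') : ℝ)) := by
      rcases hcase with h | h
      · exact h
      · exact absurd h hbig
    obtain ⟨L₀, R₀, D, hL₀, hLe, hLge, hR, hD, hnt0, hnL0, herr⟩ := h3 t ht1 n hn hn2
    haveI : NeZero L₀ := ⟨hL₀⟩
    have hL00 : (1 : ℝ) ≤ L₀ := by exact_mod_cast Nat.one_le_iff_ne_zero.2 hL₀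
    have hL₀p : (0 : ℝ) < L₀ := by linarith
    -- L₀ ≤ L
    have hLL : L₀ ≤ L := by
      rw [not_le] at hbig
      have hlog0 : 0 ≤ Real.log L := Real.log_natCast_nonneg L
      have e1 : t ^ (1 / m' : ℝ) ≤ Real.log L := by
        have e2 : t ^ (1 / m' : ℝ) ≤ ((Real.log L) ^ m') ^ (1 / m' : ℝ) :=
          Real.rpow_le_rpow ht0.le hbig.le (by positivity)
        refine e2.trans (le_of_eq ?_)
        rw [← Real.rpow_natCast, ← Real.rpow_mul hlog0]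
        rw [show (m' : ℝ) * (1 / m') = 1 by field_simp, Real.rpow_one]
      have e3 : (L₀ : ℝ) ≤ L := by
        calc (L₀ : ℝ) ≤ Real.exp (t ^ (1 / m' : ℝ)) := hLe
          _ ≤ Real.exp (Real.log L) := Real.exp_le_exp.2 e1
          _ = L := Real.exp_log hL0
      exact_mod_cast e3
    have hlogL₀ : (Real.log L₀) ^ m' ≤ t := by
      have e1 : Real.log L₀ ≤ t ^ (1 / m' : ℝ) := by
        rw [← Real.log_exp (t ^ (1 / m' : ℝ))]
        exact Real.log_le_log (by linarith) hLe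
      have e2 : (Real.log L₀) ^ m' ≤ (t ^ (1 / m' : ℝ)) ^ m' :=
        pow_le_pow_left₀ (Real.log_nonneg hL00) e1 m'
      refine e2.trans (le_of_eq ?_)
      rw [← Real.rpow_natCast, ← Real.rpow_mul ht0.le]
      rw [show 1 / (m' : ℝ) * m' = 1 by field_simp, Real.rpow_one]
    rw [pow_one] at hnt0
    have hn1 : (1 : ℝ) ≤ n := by exact_mod_cast hn
    have htL₀ : t ≤ L₀ := le_trans (by nlinarith) hnt0
    have hTL₀ : T₀ ≤ L₀ := hT0t.trans htL₀
    have a1 : T₀ * t ≤ (L₀ : ℝ) ^ 2 := by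
      rw [sq]
      exact mul_le_mul hTL₀ htL₀ ht0.le hL₀p.le
    have a2 : (n : ℝ) * t ^ (d / 2 : ℝ) ≤ L₀ := by
      rw [Real.rpow_neg ht0.le, div_le_iff₀ hL₀p] at hnL0
      have := mul_le_mul_of_nonneg_right hnL0 htd.le
      have e1 : (t ^ (d / 2 : ℝ))⁻¹ * L₀ * t ^ (d / 2 : ℝ) = L₀ := by
        field_simp
      rw [e1] at this
      exact this
    have a3 : T₀ * (n * t ^ (d / 2 : ℝ)) ≤ (L₀ : ℝ) ^ d := by
      calc T₀ * (n * t ^ (d / 2 : ℝ)) ≤ (L₀ : ℝ) * L₀ :=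
            mul_le_mul hTL₀ a2 (by positivity) hL₀p.le
        _ = (L₀ : ℝ) ^ 2 := by ring
        _ ≤ (L₀ : ℝ) ^ d := pow_le_pow_right₀ hL00 (by omega)
    have h5 := hpoly L₀ hlogL₀ a1 a3 0
    have h6 := h2 L L₀ R₀ hR hLL t n D (by linarith) hD x 0
    obtain ⟨Q, hQ⟩ : ∃ Q : ℝ, Q = Real.sqrt (4 * Real.pi * t) ^ d := ⟨_, rfl⟩
    have hQ2 : Q = p * t ^ (d / 2 : ℝ) := by
      rw [hQ, sqrt_pow_rpow d _ (by positivity), Real.mul_rpow (by positivity) ht0.le, hp]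
    have hQ0 : 0 < Q := by rw [hQ2]; positivity
    rw [← hQ] at h5 ⊢
    have h7 := mul_le_mul_of_nonneg_left h6 hQ0.le
    have h8 : Q * (C₂ * (2 * R₀ + 1) ^ d * t * Real.exp (-(D / t))) ≤ ε / 2 := by
      have e1 : C₂ * (2 * (R₀ : ℝ) + 1) ^ d * t * Real.exp (-(D / t)) =
          C₂ * ((2 * (R₀ : ℝ) + 1) ^ d * t * Real.exp (-(D / t))) := by ring
      rw [hQ2, e1]
      refine err_scale p C₂ K' ε (t ^ (d / 2 : ℝ)) _ hp0 hK' hε htd (by positivity) ?_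
      rw [← Real.rpow_neg ht0.le]
      refine le_trans (le_of_eq ?_) herr
      ring
    rw [mul_add] at h7
    linarith

end Pool.Agent.H961.T2
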