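import Pool.Agent.H961.T2.B13

/-!
# The law of the microscopic cycles
-/

set_option autoImplicit false
set_option linter.unusedSectionVars false
set_option linter.unusedVariables false

namespace Pool.Agent.H961.T2

open Finset Equiv Matrix Q292.LC
open Pool.Agent.Y998.ST (stirExp nnRate cycleLen nn_nonneg exp_mono exp_sum exp_const)
open Pool.Agent.Q297.LC (stir_smul card_cyc)

theorem Icc_split (k0 n : ℕ) (h : k0 ≤ n) (F : ℕ → ℝ) :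
    ∑ ℓ ∈ Icc 1 n, F ℓ = ∑ ℓ ∈ Icc 1 k0, F ℓ + ∑ ℓ ∈ Ioc k0 n, F ℓ := by
  rw [← sum_union]
  · refine sum_congr ?_ fun _ _ => rfl
    ext x
    simp only [mem_Icc, mem_union, mem_Ioc]
    omega
  · rw [disjoint_left]
    intro x hx hx'
    simp only [mem_Icc, mem_Ioc] at hx hx'
    omega

theorem bsum_le (d : ℕ) (hd : 3 ≤ d) (k0 n : ℕ) (h : k0 ≤ n) :
    ∑ ℓ ∈ Ioc k0 n, (ℓ : ℝ) ^ (-(d / 2 : ℝ)) ≤ rr d k0 := by
  have h1 := rr_split d hd k0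
  have h2 := rr_split d hd n
  rw [Icc_split k0 n h] at h2
  have h3 := rr_nonneg d n
  linarith

/-- the abstract Scheffé argument -/
theorem scheffe {d L : ℕ} [NeZero L] (hd : 3 ≤ d) (t Q e e' ε : ℝ) (k0 n : ℕ) (ht : 0 ≤ t)
    (hQ : 0 ≤ Q) (he : 0 ≤ e) (hk : k0 < n)
    (h1 : ∀ ℓ, 1 ≤ ℓ → ℓ ≤ k0 → stirExp (nnRate d L) t (fun g => |Q * frac g ℓ -
      (ℓ : ℝ) ^ (-(d / 2 : ℝ))|) ≤ e)
    (h2 : stirExp (nnRate d L) t (fun g => Q * ∑ ℓ ∈ Icc 1 n, frac g ℓ) ≤ rr d 0 + e') :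
    stirExp (nnRate d L) t (fun g => ∑ ℓ ∈ Icc 1 n, |Q * frac g ℓ -
      (ℓ : ℝ) ^ (-(d / 2 : ℝ))|) ≤ 2 * (k0 * e) + e' + 2 * rr d k0 := by
  have hnn := nn_nonneg (d := d) (L := L)
  have s1 : stirExp (nnRate d L) t (fun g => ∑ ℓ ∈ Icc 1 n, |Q * frac g ℓ -
      (ℓ : ℝ) ^ (-(d / 2 : ℝ))|) ≤
      stirExp (nnRate d L) t (fun g => ∑ ℓ ∈ Icc 1 k0, |Q * frac g ℓ -
      (ℓ : ℝ) ^ (-(d / 2 : ℝ))|) + stirExp (nnRate d L) t (fun g => Q * ∑ ℓ ∈ Ioc k0 n, frac g ℓ) +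
      rr d k0 := by
    rw [← exp_add2]
    have e0 : rr d k0 = stirExp (nnRate d L) t (fun _ => rr d k0) := (exp_const _ t _).symm
    rw [e0, ← exp_add2]
    refine exp_mono hnn ht fun g => ?_
    rw [Icc_split k0 n hk.le]
    have f1 : ∑ ℓ ∈ Ioc k0 n, |Q * frac g ℓ - (ℓ : ℝ) ^ (-(d / 2 : ℝ))| ≤
        ∑ ℓ ∈ Ioc k0 n, (Q * frac g ℓ + (ℓ : ℝ) ^ (-(d / 2 : ℝ))) := by
      refine sum_le_sum fun ℓ _ => ?_
      have g1 : 0 ≤ Q * frac g ℓ := mul_nonneg hQ (frac_nonneg g ℓ)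
      have g2 : 0 ≤ (ℓ : ℝ) ^ (-(d / 2 : ℝ)) := Real.rpow_nonneg (Nat.cast_nonneg _) _
      rw [abs_le]
      constructor <;> linarith
    rw [sum_add_distrib, ← mul_sum] at f1
    have f2 := bsum_le d hd k0 n hk.le
    linarith
  have s2 : stirExp (nnRate d L) t (fun g => ∑ ℓ ∈ Icc 1 k0, |Q * frac g ℓ -
      (ℓ : ℝ) ^ (-(d / 2 : ℝ))|) ≤ k0 * e := by
    rw [← exp_sum]
    refine (sum_le_sum fun ℓ hℓ => h1 ℓ (mem_Icc.1 hℓ).1 (mem_Icc.1 hℓ).2).trans (le_of_eq ?_)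
    rw [sum_const, Nat.card_Icc, nsmul_eq_mul, Nat.add_sub_cancel]
  -- the long part
  have s3 : stirExp (nnRate d L) t (fun g => Q * ∑ ℓ ∈ Icc 1 n, frac g ℓ) =
      stirExp (nnRate d L) t (fun g => Q * ∑ ℓ ∈ Icc 1 k0, frac g ℓ) +
      stirExp (nnRate d L) t (fun g => Q * ∑ ℓ ∈ Ioc k0 n, frac g ℓ) := by
    rw [← exp_add2]
    congr 1
    funext g
    rw [Icc_split k0 n hk.le]
    ring
  have s4 : ∑ ℓ ∈ Icc 1 k0, (ℓ : ℝ) ^ (-(d / 2 : ℝ)) - k0 * e ≤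
      stirExp (nnRate d L) t (fun g => Q * ∑ ℓ ∈ Icc 1 k0, frac g ℓ) := by
    have e1 : stirExp (nnRate d L) t (fun g => Q * ∑ ℓ ∈ Icc 1 k0, frac g ℓ) =
        ∑ ℓ ∈ Icc 1 k0, stirExp (nnRate d L) t (fun g => Q * frac g ℓ) := by
      rw [exp_sum]
      congr 1
      funext g
      rw [mul_sum]
    rw [e1]
    have e2 : ∑ ℓ ∈ Icc 1 k0, ((ℓ : ℝ) ^ (-(d / 2 : ℝ)) - e) ≤
        ∑ ℓ ∈ Icc 1 k0, stirExp (nnRate d L) t (fun g => Q * frac g ℓ) := by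
      refine sum_le_sum fun ℓ hℓ => ?_
      have f1 := h1 ℓ (mem_Icc.1 hℓ).1 (mem_Icc.1 hℓ).2
      have f2 : (ℓ : ℝ) ^ (-(d / 2 : ℝ)) ≤ stirExp (nnRate d L) t (fun g => Q * frac g ℓ) +
          stirExp (nnRate d L) t (fun g => |Q * frac g ℓ - (ℓ : ℝ) ^ (-(d / 2 : ℝ))|) := by
        rw [← exp_add2]
        have e0 : (ℓ : ℝ) ^ (-(d / 2 : ℝ)) =
          stirExp (nnRate d L) t (fun _ => (ℓ : ℝ) ^ (-(d / 2 : ℝ))) := (exp_const _ t _).symm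
        conv_lhs => rw [e0]
        refine exp_mono hnn ht fun g => ?_
        have := neg_abs_le (Q * frac g ℓ - (ℓ : ℝ) ^ (-(d / 2 : ℝ)))
        linarith
      linarith
    rw [sum_sub_distrib, sum_const, Nat.card_Icc, nsmul_eq_mul, Nat.add_sub_cancel] at e2
    exact e2
  have s5 := rr_split d hd k0
  linarith

/-- the empirical law of the lengths of the short cycles -/
theorem main_l1 (d : ℕ) (hd : 3 ≤ d) : ∃ (c : ℝ) (m : ℕ), 0 < c ∧ ∀ ε : ℝ, 0 < ε →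
    ∃ T : ℝ, 3 ≤ T ∧ ∀ (L : ℕ) [NeZero L] (t : ℝ) (n : ℕ), T ≤ t → T * t ≤ (L : ℝ) ^ 2 →
    ((n : ℝ) ≤ Real.exp (t ^ c) ∨ (Real.log L) ^ m ≤ t) →
    T * (n * t ^ (d / 2 : ℝ)) ≤ (L : ℝ) ^ d →
    stirExp (nnRate d L) t (fun g => ∑ ℓ ∈ Icc 1 n, |(4 * Real.pi * t) ^ (d / 2 : ℝ) * frac g ℓ -
      (ℓ : ℝ) ^ (-(d / 2 : ℝ))|) ≤ ε := by
  obtain ⟨c, m, hc, hub⟩ := ub2 d hd
  refine ⟨c, m, hc, fun ε hε => ?_⟩
  obtain ⟨k0, hk0⟩ := rr_tendsto d hd (ε / 8) (by linarith)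
  obtain ⟨e, he⟩ : ∃ e : ℝ, e = ε / (8 * (k0 + 1)) := ⟨_, rfl⟩
  have he0 : 0 < e := by rw [he]; positivity
  have hek : (k0 : ℝ) * e ≤ ε / 8 := by
    have h1 : ((k0 : ℝ) + 1) * e = ε / 8 := by
      rw [he]
      field_simp
    linarith
  obtain ⟨T₁, hT₁, h1⟩ := hub (ε / 8) (by linarith)
  obtain ⟨T₂, hT₂, h2⟩ := len_all d (by omega) k0 e he0
  refine ⟨max T₁ T₂, hT₁.trans (le_max_left _ _), ?_⟩
  intro L _ t n htT htL hcase hnL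
  have hT1t : T₁ ≤ t := (le_max_left _ _).trans htT
  have hT2t : T₂ ≤ t := (le_max_right _ _).trans htT
  have ht0 : 0 < t := by linarith
  have hL0 : (0 : ℝ) < L := by exact_mod_cast Nat.pos_of_ne_zero (NeZero.ne L)
  have hT1L : T₁ * t ≤ (L : ℝ) ^ 2 := (mul_le_mul_of_nonneg_right (le_max_left _ _) ht0.le).trans htL
  have hT2L : T₂ * t ≤ (L : ℝ) ^ 2 :=
    (mul_le_mul_of_nonneg_right (le_max_right _ _) ht0.le).trans htL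
  have hL3 : 3 ≤ L := by
    have h1 : (3 : ℝ) ^ 2 ≤ (L : ℝ) ^ 2 := by nlinarith
    have h2 : (3 : ℝ) ≤ L := (pow_le_pow_iff_left₀ (by norm_num) hL0.le two_ne_zero).1 h1
    exact_mod_cast h2
  have hpi := Real.pi_pos
  have hlen := h2 L hL3 t hT2t hT2L
  have htd : 0 < t ^ (d / 2 : ℝ) := Real.rpow_pos_of_pos ht0 _
  obtain ⟨Q, hQ⟩ : ∃ Q : ℝ, Q = (4 * Real.pi * t) ^ (d / 2 : ℝ) := ⟨_, rfl⟩
  have hQ0 : 0 ≤ Q := by rw [hQ]; positivity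
  rcases Nat.lt_or_ge k0 n with hkn | hkn
  · have h3 := h1 L t n hT1t hT1L hcase (by omega)
      ((mul_le_mul_of_nonneg_right (le_max_left _ _) (by positivity)).trans hnL) 0
    rw [sqrt_pow_rpow d _ (by positivity), ← exp_frac_le t n 0, ← stir_smul] at h3
    simp only [← sum_frac] at h3
    rw [← hQ] at h3 hlen ⊢
    have h4 := scheffe hd t Q e (ε / 8) ε k0 n ht0.le hQ0 he0.le hkn hlen h3
    linarith
  · rw [← exp_sum]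
    have h3 : ∀ ℓ ∈ Icc 1 n, stirExp (nnRate d L) t (fun g =>
        |(4 * Real.pi * t) ^ (d / 2 : ℝ) * frac g ℓ - (ℓ : ℝ) ^ (-(d / 2 : ℝ))|) ≤ e :=
      fun ℓ hℓ => hlen ℓ (mem_Icc.1 hℓ).1 ((mem_Icc.1 hℓ).2.trans hkn)
    refine (sum_le_sum h3).trans ?_
    rw [sum_const, Nat.card_Icc, nsmul_eq_mul, Nat.add_sub_cancel]
    have h4 : (n : ℝ) * e ≤ k0 * e := by
      refine mul_le_mul_of_nonneg_right ?_ he0.le
      exact_mod_cast hkn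
    linarith

end Pool.Agent.H961.T2
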