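import Pool.Agent.H961.T2.B14

/-!
# Consequences: total fraction, one point, number of cycles
-/

set_option autoImplicit false
set_option linter.unusedSectionVars false
set_option linter.unusedVariables false

namespace Pool.Agent.H961.T2

open Finset Equiv Matrix Q292.LC
open Pool.Agent.Y998.ST (stirExp nnRate cycleLen nn_nonneg exp_mono exp_sum exp_const)
open Pool.Agent.Q297.LC (stir_smul card_cyc)

theorem rr_anti (d : ℕ) (hd : 3 ≤ d) {k n : ℕ} (h : k ≤ n) : rr d n ≤ rr d k := by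
  have h1 := rr_split d hd k
  have h2 := rr_split d hd n
  rw [Icc_split k n h] at h2
  have h3 : 0 ≤ ∑ ℓ ∈ Ioc k n, (ℓ : ℝ) ^ (-(d / 2 : ℝ)) :=
    sum_nonneg fun ℓ _ => Real.rpow_nonneg (Nat.cast_nonneg _) _
  linarith

/-- the tail of the series for the number of cycles -/
noncomputable def rc (d k : ℕ) : ℝ := ∑' i : ℕ, ((i : ℝ) + k + 1) ^ (-(1 + d / 2 : ℝ))

theorem rc_summable (d k : ℕ) (hd : 1 ≤ d) :
    Summable (fun i : ℕ => ((i : ℝ) + k + 1) ^ (-(1 + d / 2 : ℝ))) := by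
  have hd3 : (1 : ℝ) ≤ d := by exact_mod_cast hd
  have h1 : Summable (fun k : ℕ => (k : ℝ) ^ (-(1 + d / 2 : ℝ))) :=
    Real.summable_nat_rpow.2 (by linarith)
  have h2 := (summable_nat_add_iff (k + 1)).2 h1
  refine h2.congr fun i => ?_
  push_cast
  rw [add_assoc]

theorem rc_le (d k : ℕ) (hd : 3 ≤ d) : rc d k ≤ rr d k := by
  unfold rc rr
  refine (rc_summable d k (by omega)).tsum_le_tsum (fun i => ?_) (rr_summable d k hd)
  refine Real.rpow_le_rpow_of_exponent_le ?_ (by linarith)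
  have : (0 : ℝ) ≤ (i : ℝ) + k := by positivity
  linarith

theorem rc_nonneg (d k : ℕ) : 0 ≤ rc d k := tsum_nonneg fun i => by positivity

theorem rc_split (d : ℕ) (hd : 1 ≤ d) (k : ℕ) :
    rc d 0 = ∑ ℓ ∈ Icc 1 k, (ℓ : ℝ) ^ (-(1 + d / 2 : ℝ)) + rc d k := by
  have h1 := (rc_summable d 0 hd).sum_add_tsum_nat_add k
  have h2 : ∑ ℓ ∈ Icc 1 k, (ℓ : ℝ) ^ (-(1 + d / 2 : ℝ)) =
      ∑ i ∈ range k, ((i : ℝ) + ((0 : ℕ) : ℝ) + 1) ^ (-(1 + d / 2 : ℝ)) := by
    rw [range_eq_Ico, Finset.sum_Ico_eq_sum_range]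
    rw [show Icc 1 k = Ico 1 (k + 1) by ext; simp, Finset.sum_Ico_eq_sum_range]
    simp only [Nat.add_sub_cancel, Nat.sub_zero, Nat.zero_add]
    refine sum_congr rfl fun i _ => ?_
    push_cast
    congr 1
    ring
  unfold rc at *
  rw [h2, ← h1]
  congr 1
  refine tsum_congr fun i => ?_
  push_cast
  congr 1
  ring

theorem abs_exp_le {V : Type} [Fintype V] [DecidableEq V] {J : V → V → ℝ}
    (hJ : ∀ x y, 0 ≤ J x y) {t : ℝ} (ht : 0 ≤ t) (F : Perm V → ℝ) :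
    |stirExp J t F| ≤ stirExp J t (fun g => |F g|) := by
  rw [abs_le]
  constructor
  · have h := exp_mono hJ ht (F := fun g => -1 * |F g|) (G := F) fun g => by
      have := neg_abs_le (F g)
      linarith
    rw [stir_smul] at h
    linarith
  · exact exp_mono hJ ht fun g => le_abs_self _

section torus

variable {d L : ℕ} [NeZero L]

theorem exp_frac_eq (t : ℝ) (ℓ : ℕ) (x : Fin d → ZMod L) :
    stirExp (nnRate d L) t (fun g => frac g ℓ) =
    stirExp (nnRate d L) t (fun g => if cycleLen g x = ℓ then 1 else 0) := by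
  have hL0 : (0 : ℝ) < L := by exact_mod_cast Nat.pos_of_ne_zero (NeZero.ne L)
  have hN0 : (0 : ℝ) < (L : ℝ) ^ d := pow_pos hL0 d
  have h1 : ∀ g : Perm (Fin d → ZMod L), frac g ℓ =
      1 / (L : ℝ) ^ d * ∑ y, (if (cyc g y).card = ℓ then (1 : ℝ) else 0) := by
    intro g
    unfold frac
    rw [Finset.sum_boole, one_div, mul_comm, div_eq_mul_inv]
    simp only [card_cyc]
  simp only [h1]
  rw [stir_smul, ← Pool.Agent.Y998.ST.exp_sum]
  have h2 : ∀ y ∈ (univ : Finset (Fin d → ZMod L)),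
      stirExp (nnRate d L) t (fun g => if (cyc g y).card = ℓ then (1 : ℝ) else 0) =
      stirExp (nnRate d L) t (fun g => if cycleLen g x = ℓ then 1 else 0) := fun y _ => by
    rw [cyc_trans2 t (fun k => if k = ℓ then 1 else 0) y,
      ← cyc_trans2 t (fun k => if k = ℓ then 1 else 0) x]
    simp only [card_cyc]
  rw [sum_congr rfl h2, sum_const, card_univ, Fintype.card_fun, ZMod.card, Fintype.card_fin,
    nsmul_eq_mul]
  push_cast
  field_simp

/-- one point -/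
theorem one_point (t Q : ℝ) (ht : 0 ≤ t) (n : ℕ) (x : Fin d → ZMod L) (ε : ℝ)
    (h : stirExp (nnRate d L) t (fun g => ∑ ℓ ∈ Icc 1 n, |Q * frac g ℓ -
      (ℓ : ℝ) ^ (-(d / 2 : ℝ))|) ≤ ε) :
    ∑ ℓ ∈ Icc 1 n, |Q * stirExp (nnRate d L) t (fun g => if cycleLen g x = ℓ then 1 else 0) -
      (ℓ : ℝ) ^ (-(d / 2 : ℝ))| ≤ ε := by
  refine le_trans ?_ h
  rw [← exp_sum]
  refine sum_le_sum fun ℓ _ => ?_
  refine le_trans (le_of_eq ?_) (abs_exp_le nn_nonneg ht _)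
  congr 1
  rw [← exp_frac_eq t ℓ x, ← stir_smul]
  have h1 : stirExp (nnRate d L) t (fun g => Q * frac g ℓ) =
      stirExp (nnRate d L) t (fun g => (Q * frac g ℓ - (ℓ : ℝ) ^ (-(d / 2 : ℝ))) +
        (ℓ : ℝ) ^ (-(d / 2 : ℝ))) := by
    congr 1
    funext g
    ring
  rw [h1, exp_add2, exp_const]
  ring

/-- total fraction -/
theorem total (hd : 3 ≤ d) (t Q : ℝ) (ht : 0 ≤ t) (n : ℕ) (ε : ℝ)
    (h : stirExp (nnRate d L) t (fun g => ∑ ℓ ∈ Icc 1 n, |Q * frac g ℓ -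
      (ℓ : ℝ) ^ (-(d / 2 : ℝ))|) ≤ ε) :
    stirExp (nnRate d L) t (fun g =>
      |Q * (((univ.filter fun x => cycleLen g x ≤ n).card : ℝ) / (L : ℝ) ^ d) - rr d 0|) ≤
      ε + rr d n := by
  have h1 : stirExp (nnRate d L) t (fun g =>
      |Q * (((univ.filter fun x => cycleLen g x ≤ n).card : ℝ) / (L : ℝ) ^ d) - rr d 0|) ≤
      stirExp (nnRate d L) t (fun g => (∑ ℓ ∈ Icc 1 n, |Q * frac g ℓ -
      (ℓ : ℝ) ^ (-(d / 2 : ℝ))|) + rr d n) := by
    refine exp_mono nn_nonneg ht fun g => ?_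
    rw [← sum_frac, rr_split d hd n, mul_sum]
    have e1 : ∑ ℓ ∈ Icc 1 n, Q * frac g ℓ -
        (∑ ℓ ∈ Icc 1 n, (ℓ : ℝ) ^ (-(d / 2 : ℝ)) + rr d n) =
        ∑ ℓ ∈ Icc 1 n, (Q * frac g ℓ - (ℓ : ℝ) ^ (-(d / 2 : ℝ))) - rr d n := by
      rw [sum_sub_distrib]
      ring
    rw [e1]
    refine (abs_sub _ _).trans ?_
    refine add_le_add (abs_sum_le_sum_abs _ _) (le_of_eq ?_)
    exact abs_of_nonneg (rr_nonneg d n)
  rw [exp_add2, exp_const] at h1
  linarith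

theorem parts_card (g : Perm (Fin d → ZMod L)) :
    (g.partition.parts.card : ℝ) / (L : ℝ) ^ d =
      ∑ ℓ ∈ Icc 1 (L ^ d), frac g ℓ / ℓ := by
  have hL0 : (0 : ℝ) < L := by exact_mod_cast Nat.pos_of_ne_zero (NeZero.ne L)
  have hN0 : (0 : ℝ) < (L : ℝ) ^ d := pow_pos hL0 d
  have h1 : ∑ ℓ ∈ Icc 1 (L ^ d), g.partition.parts.count ℓ = g.partition.parts.card := by
    refine Multiset.sum_count_eq_card fun a ha => ?_
    rw [mem_Icc]
    refine ⟨g.partition.parts_pos ha, ?_⟩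
    have h2 := Multiset.le_sum_of_mem ha
    rw [g.partition.parts_sum] at h2
    refine h2.trans (le_of_eq ?_)
    rw [Fintype.card_fun, ZMod.card, Fintype.card_fin]
  rw [← h1]
  push_cast
  rw [sum_div]
  refine sum_congr rfl fun ℓ hℓ => ?_
  rw [frac_num g ℓ (mem_Icc.1 hℓ).1]
  have : (0 : ℝ) < ℓ := by
    have := (mem_Icc.1 hℓ).1
    exact_mod_cast this
  field_simp

theorem sum_frac_le_one (g : Perm (Fin d → ZMod L)) (S : Finset ℕ) :
    ∑ ℓ ∈ S, frac g ℓ ≤ 1 := by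
  have hL0 : (0 : ℝ) < L := by exact_mod_cast Nat.pos_of_ne_zero (NeZero.ne L)
  have hN0 : (0 : ℝ) < (L : ℝ) ^ d := pow_pos hL0 d
  unfold frac
  rw [← sum_div, div_le_one hN0]
  have h1 : ∑ ℓ ∈ S, (univ.filter fun x : Fin d → ZMod L => cycleLen g x = ℓ).card ≤
      (univ : Finset (Fin d → ZMod L)).card := by
    rw [← card_biUnion]
    · exact card_le_card (subset_univ _)
    · intro a _ b _ hab
      rw [Function.onFun, disjoint_left]
      intro x hx hx'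
      simp only [mem_filter, mem_univ, true_and] at hx hx'
      exact hab (hx.symm.trans hx')
  rw [card_univ, Fintype.card_fun, ZMod.card, Fintype.card_fin] at h1
  exact_mod_cast h1

/-- number of cycles -/
theorem number (hd : 3 ≤ d) (t Q : ℝ) (ht : 0 ≤ t) (hQ : 0 ≤ Q) (n : ℕ) (hn : 1 ≤ n)
    (hnL : n ≤ L ^ d) (ε : ℝ)
    (h : stirExp (nnRate d L) t (fun g => ∑ ℓ ∈ Icc 1 n, |Q * frac g ℓ -
      (ℓ : ℝ) ^ (-(d / 2 : ℝ))|) ≤ ε) :
    stirExp (nnRate d L) t (fun g =>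
      |Q * ((g.partition.parts.card : ℝ) / (L : ℝ) ^ d) - rc d 0|) ≤
      ε + (Q / n + rr d n) := by
  have hn0 : (0 : ℝ) < n := by exact_mod_cast hn
  have h1 : stirExp (nnRate d L) t (fun g =>
      |Q * ((g.partition.parts.card : ℝ) / (L : ℝ) ^ d) - rc d 0|) ≤
      stirExp (nnRate d L) t (fun g => (∑ ℓ ∈ Icc 1 n, |Q * frac g ℓ -
      (ℓ : ℝ) ^ (-(d / 2 : ℝ))|) + (Q / n + rr d n)) := by
    refine exp_mono nn_nonneg ht fun g => ?_
    rw [parts_card, rc_split d (by omega) n, Icc_split n (L ^ d) hnL]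
    have e1 : Q * (∑ ℓ ∈ Icc 1 n, frac g ℓ / ℓ + ∑ ℓ ∈ Ioc n (L ^ d), frac g ℓ / ℓ) -
        (∑ ℓ ∈ Icc 1 n, (ℓ : ℝ) ^ (-(1 + d / 2 : ℝ)) + rc d n) =
        ∑ ℓ ∈ Icc 1 n, (Q * frac g ℓ - (ℓ : ℝ) ^ (-(d / 2 : ℝ))) / ℓ +
          (Q * ∑ ℓ ∈ Ioc n (L ^ d), frac g ℓ / ℓ - rc d n) := by
      have e2 : ∀ ℓ ∈ Icc 1 n, (Q * frac g ℓ - (ℓ : ℝ) ^ (-(d / 2 : ℝ))) / ℓ =
          Q * (frac g ℓ / ℓ) - (ℓ : ℝ) ^ (-(1 + d / 2 : ℝ)) := by
        intro ℓ hℓ
        have hℓ0 : (0 : ℝ) < ℓ := by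
          have := (mem_Icc.1 hℓ).1
          exact_mod_cast this
        have e3 : (ℓ : ℝ) ^ (-(1 + d / 2 : ℝ)) = (ℓ : ℝ) ^ (-(d / 2 : ℝ)) / ℓ := by
          rw [neg_add, add_comm, Real.rpow_add hℓ0, Real.rpow_neg_one]
          rfl
        rw [e3]
        ring
      rw [sum_congr rfl e2, sum_sub_distrib, mul_add, mul_sum]
      ring
    rw [e1]
    refine (abs_add_le _ _).trans ?_
    refine add_le_add ?_ ?_
    · refine (abs_sum_le_sum_abs _ _).trans (sum_le_sum fun ℓ hℓ => ?_)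
      have hℓ1 : (1 : ℝ) ≤ ℓ := by
        have := (mem_Icc.1 hℓ).1
        exact_mod_cast this
      rw [abs_div, abs_of_pos (by linarith : (0 : ℝ) < ℓ)]
      exact div_le_self (abs_nonneg _) hℓ1
    · have f0 : ∑ ℓ ∈ Ioc n (L ^ d), frac g ℓ / ℓ ≤ 1 / n := by
        have g1 : ∀ ℓ ∈ Ioc n (L ^ d), frac g ℓ / ℓ ≤ 1 / n * frac g ℓ := by
          intro ℓ hℓ
          have hℓn : (n : ℝ) ≤ ℓ := by
            have := (mem_Ioc.1 hℓ).1
            exact_mod_cast this.le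
          rw [div_eq_mul_one_div, mul_comm]
          exact mul_le_mul_of_nonneg_right (one_div_le_one_div_of_le hn0 hℓn) (frac_nonneg g ℓ)
        refine (sum_le_sum g1).trans ?_
        rw [← mul_sum]
        exact mul_le_of_le_one_right (by positivity) (sum_frac_le_one g _)
      have f1 : 0 ≤ ∑ ℓ ∈ Ioc n (L ^ d), frac g ℓ / ℓ :=
        sum_nonneg fun ℓ _ => div_nonneg (frac_nonneg g ℓ) (Nat.cast_nonneg _)
      have f2 : Q * ∑ ℓ ∈ Ioc n (L ^ d), frac g ℓ / ℓ ≤ Q / n := by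
        have := mul_le_mul_of_nonneg_left f0 hQ
        rwa [mul_one_div] at this
      have f3 : 0 ≤ Q * ∑ ℓ ∈ Ioc n (L ^ d), frac g ℓ / ℓ := mul_nonneg hQ f1
      have f4 := rc_nonneg d n
      have f5 := rc_le d n hd
      rw [abs_le]
      constructor
      · have : 0 ≤ Q / n := by positivity
        linarith
      · linarith
  rw [exp_add2, exp_const] at h1
  linarith

end torus

end Pool.Agent.H961.T2
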