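import Pool.Agent.H961.T2.B15

/-!
# The number of cycles
-/

set_option autoImplicit false
set_option linter.unusedSectionVars false
set_option linter.unusedVariables false

namespace Pool.Agent.H961.T2

open Finset Equiv Matrix Q292.LC
open Pool.Agent.Y998.ST (stirExp nnRate cycleLen nn_nonneg exp_mono exp_sum exp_const)
open Pool.Agent.Q297.LC (stir_smul card_cyc)

theorem exp_beats (s c B : ℝ) (hc : 0 < c) (hB : 0 < B) :
    ∃ T : ℝ, 1 ≤ T ∧ ∀ t : ℝ, T ≤ t → B * t ^ s ≤ Real.exp (t ^ c) := by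
  have h1 := (isLittleO_rpow_exp_atTop (s / c)).bound (show 0 < 1 / B by positivity)
  have h2 := (tendsto_rpow_atTop hc).eventually h1
  obtain ⟨T, hT⟩ := Filter.eventually_atTop.1 h2
  refine ⟨max T 1, le_max_right _ _, fun t ht => ?_⟩
  have ht1 : 1 ≤ t := (le_max_right _ _).trans ht
  have ht0 : 0 < t := by linarith
  have h3 := hT t ((le_max_left _ _).trans ht)
  have h4 : (t ^ c) ^ (s / c) = t ^ s := by
    rw [← Real.rpow_mul ht0.le]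
    congr 1
    field_simp
  rw [h4, Real.norm_eq_abs, Real.norm_eq_abs, abs_of_pos (Real.exp_pos _),
    abs_of_pos (Real.rpow_pos_of_pos ht0 _)] at h3
  have h5 := mul_le_mul_of_nonneg_left h3 hB.le
  have h6 : B * (1 / B * Real.exp (t ^ c)) = Real.exp (t ^ c) := by field_simp
  linarith

theorem number_arith (T₁ B t N L : ℝ) (d : ℕ) (hd : 1 ≤ d) (T : ℝ) (hT₁ : 0 ≤ T₁) (hB : 0 ≤ B)
    (ht : 0 < t) (hT : 1 ≤ T) (hTB : T₁ * B ≤ T) (htL : T * t ≤ L) (n : ℝ)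
    (hn : n ≤ B * t ^ (d / 2 : ℝ)) : T₁ * (n * t ^ (d / 2 : ℝ)) ≤ L ^ d := by
  have h1 : t ^ (d / 2 : ℝ) * t ^ (d / 2 : ℝ) = t ^ d := by
    rw [← Real.rpow_add ht, ← Real.rpow_natCast]
    congr 1
    ring
  have htd : 0 ≤ t ^ (d / 2 : ℝ) := Real.rpow_nonneg ht.le _
  have h2 : n * t ^ (d / 2 : ℝ) ≤ B * t ^ d := by
    rw [← h1, ← mul_assoc]
    exact mul_le_mul_of_nonneg_right hn htd
  have h3 : T ≤ T ^ d := le_self_pow₀ hT (by omega)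
  calc T₁ * (n * t ^ (d / 2 : ℝ)) ≤ T₁ * (B * t ^ d) := mul_le_mul_of_nonneg_left h2 hT₁
    _ = (T₁ * B) * t ^ d := by ring
    _ ≤ T ^ d * t ^ d := mul_le_mul_of_nonneg_right (hTB.trans h3) (by positivity)
    _ = (T * t) ^ d := by rw [mul_pow]
    _ ≤ L ^ d := pow_le_pow_left₀ (by positivity) htL d

theorem number_main (d : ℕ) (hd : 3 ≤ d) (ε : ℝ) (hε : 0 < ε) : ∃ T : ℝ, 3 ≤ T ∧
    ∀ (L : ℕ) [NeZero L] (t : ℝ), T ≤ t → T * t ≤ L →
    stirExp (nnRate d L) t (fun g => |(4 * Real.pi * t) ^ (d / 2 : ℝ) *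
      ((g.partition.parts.card : ℝ) / (L : ℝ) ^ d) - rc d 0|) ≤ ε := by
  obtain ⟨c, m, hc, hmain⟩ := main_l1 d hd
  obtain ⟨T₁, hT₁, h1⟩ := hmain (ε / 4) (by linarith)
  obtain ⟨k1, hk1⟩ := rr_tendsto d hd (ε / 4) (by linarith)
  have hpi := Real.pi_pos
  obtain ⟨p, hp⟩ : ∃ p : ℝ, p = (4 * Real.pi) ^ (d / 2 : ℝ) := ⟨_, rfl⟩
  have hp0 : 0 < p := by rw [hp]; positivity
  obtain ⟨B, hB⟩ : ∃ B : ℝ, B = 4 * p / ε + 1 := ⟨_, rfl⟩
  have hB0 : 0 < B := by rw [hB]; positivity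
  obtain ⟨T₂, hT₂, h2⟩ := exp_beats (d / 2) c B hc hB0
  obtain ⟨T, hT⟩ : ∃ T : ℝ, T = T₁ + T₂ + T₁ * B + k1 * ε / p + 1 / 2 := ⟨_, rfl⟩
  have t1 : 0 ≤ T₁ * B := by positivity
  have t2 : 0 ≤ (k1 : ℝ) * ε / p := by positivity
  refine ⟨T, by rw [hT]; linarith, ?_⟩
  intro L _ t htT htL
  have hT1T : T₁ ≤ T := by rw [hT]; linarith
  have hT1t : T₁ ≤ t := hT1T.trans htT
  have ht3 : 3 ≤ t := hT₁.trans hT1t
  have ht0 : 0 < t := by linarith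
  have ht1 : 1 ≤ t := by linarith
  have hT1 : 1 ≤ T := by rw [hT]; linarith
  have hL0 : (0 : ℝ) < L := by exact_mod_cast Nat.pos_of_ne_zero (NeZero.ne L)
  have hL1 : (1 : ℝ) ≤ L := by
    have : 1 ≤ L := Nat.pos_of_ne_zero (NeZero.ne L)
    exact_mod_cast this
  have htd1 : 1 ≤ t ^ (d / 2 : ℝ) := Real.one_le_rpow ht1 (by positivity)
  have htt : t ≤ t ^ (d / 2 : ℝ) := by
    have hd3 : (3 : ℝ) ≤ d := by exact_mod_cast hd
    calc t = t ^ (1 : ℝ) := (Real.rpow_one t).symm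
      _ ≤ t ^ (d / 2 : ℝ) := Real.rpow_le_rpow_of_exponent_le (by linarith) (by linarith)
  obtain ⟨Q, hQ⟩ : ∃ Q : ℝ, Q = (4 * Real.pi * t) ^ (d / 2 : ℝ) := ⟨_, rfl⟩
  have hQ2 : Q = p * t ^ (d / 2 : ℝ) := by
    rw [hQ, Real.mul_rpow (by positivity) ht0.le, hp]
  have hQ0 : 0 < Q := by rw [hQ2]; positivity
  obtain ⟨n, hn⟩ : ∃ n : ℕ, n = ⌈4 * Q / ε⌉₊ := ⟨_, rfl⟩
  have hn1 : 4 * Q / ε ≤ n := by rw [hn]; exact Nat.le_ceil _
  have hn2 : (n : ℝ) < 4 * Q / ε + 1 := by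
    rw [hn]
    exact Nat.ceil_lt_add_one (by positivity)
  have hn0 : 1 ≤ n := by
    rw [hn]
    exact Nat.one_le_ceil_iff.2 (by positivity)
  have hnr : (0 : ℝ) < n := by exact_mod_cast hn0
  have hnB : (n : ℝ) ≤ B * t ^ (d / 2 : ℝ) := by
    have e1 : 4 * Q / ε + 1 ≤ B * t ^ (d / 2 : ℝ) := by
      rw [hQ2, hB]
      have e2 : (4 * p / ε + 1) * t ^ (d / 2 : ℝ) = 4 * (p * t ^ (d / 2 : ℝ)) / ε +
        t ^ (d / 2 : ℝ) := by ring
      rw [e2]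
      linarith
    linarith
  have hTB : T₁ * B ≤ T := by rw [hT]; linarith
  have hnL := number_arith T₁ B t 0 L d (by omega) T (by linarith) hB0.le ht0 hT1 hTB htL n hnB
  have hnexp : (n : ℝ) ≤ Real.exp (t ^ c) := by
    refine hnB.trans (h2 t ?_)
    refine le_trans ?_ htT
    rw [hT]
    linarith
  have hTL2 : T₁ * t ≤ (L : ℝ) ^ 2 := by
    have e1 : T₁ * t ≤ T * t := mul_le_mul_of_nonneg_right hT1T ht0.le
    have e2 : (L : ℝ) ≤ (L : ℝ) ^ 2 := by nlinarith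
    linarith
  have h3 := h1 L t n hT1t hTL2 (Or.inl hnexp) hnL
  rw [← hQ] at h3 ⊢
  have hnLd : n ≤ L ^ d := by
    have e1 : (n : ℝ) ≤ (L : ℝ) ^ d := by
      have e2 : (n : ℝ) ≤ T₁ * (n * t ^ (d / 2 : ℝ)) := by
        have e3 : (n : ℝ) * 1 ≤ n * t ^ (d / 2 : ℝ) := mul_le_mul_of_nonneg_left htd1 hnr.le
        have e4 : 0 ≤ (n : ℝ) * t ^ (d / 2 : ℝ) := by positivity
        have e5 : 1 * ((n : ℝ) * t ^ (d / 2 : ℝ)) ≤ T₁ * (n * t ^ (d / 2 : ℝ)) :=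
          mul_le_mul_of_nonneg_right (by linarith) e4
        linarith
      exact e2.trans hnL
    exact_mod_cast e1
  have h4 := number hd t Q ht0.le hQ0.le n hn0 hnLd (ε / 4) h3
  have h5 : Q / n ≤ ε / 4 := by
    rw [div_le_iff₀ hnr]
    rw [div_le_iff₀ hε] at hn1
    linarith
  have h6 : rr d n ≤ ε / 4 := by
    refine (rr_anti d hd ?_).trans hk1
    have e1 : (k1 : ℝ) ≤ n := by
      refine le_trans ?_ hn1
      rw [le_div_iff₀ hε]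
      have e2 : (k1 : ℝ) * ε / p ≤ t := by
        refine le_trans ?_ htT
        rw [hT]
        linarith
      rw [div_le_iff₀ hp0] at e2
      have e3 : t * p ≤ Q := by
        rw [hQ2, mul_comm]
        exact mul_le_mul_of_nonneg_left htt hp0.le
      linarith
    exact_mod_cast e1
  linarith

end Pool.Agent.H961.T2
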